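import Pool.Agent.Q301.TM.Defs

/-!
# Remainders of compactifications in a model of set theory: definitions

In a structure `M` for the language of set theory, `Mem z a` says that `z` is an element of `a` in
the sense of `M`, and `El a` is the type of the elements of `a`. A topological space in `M` is
given by two elements of `M`: the set `x` of the points and the set `t` of the open sets. All
functions are required to be in the model (`IsMap`, from `Pool.Agent.Q301.TM.Defs`). `IsOmega` and
`IsFinite` are from `Pool.Agent.H310R3.Cards`, `IsTopology`, `IsCompact` and `IsHausdorff` from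
`Pool.Agent.H310R3.TopDefs`, and `IsSubspace` from `Pool.Agent.Q301.TM.Defs`.
-/

namespace Pool.Agent.Q301.UF

open FirstOrder FirstOrder.Language
open Pool.Agent.Helper672.Plain (LSet Mem El)
open Pool.Agent.H310Cards (IsOmega IsFinite)
open Pool.Agent.H310Top (IsTopology IsCompact IsHausdorff)
open Pool.Agent.Q301.TM (IsMap IsSubspace)

universe u

variable {M : Type u} [LSet.Structure M]

/-- `y` is denumerable: in the model there is a bijection of `y` onto the set of the natural
numbers. -/
def IsDenumerable (y : M) : Prop :=
  ∃ (w : M) (f : El y → El w), IsOmega w ∧ IsMap f ∧ Function.Bijective f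

/-- `f` is a homeomorphic embedding of the space `x` with the topology `t` into the space `k` with
the topology `τ`: it is in the model, it is injective, and the open sets of `x` are the preimages
of the open sets of `k`. -/
def IsEmbedding {x k : M} (t τ : M) (f : El x → El k) : Prop :=
  IsMap f ∧ Function.Injective f ∧ ∀ u, Mem u t ↔ (∀ z, Mem z u → Mem z x) ∧
    ∃ v, Mem v τ ∧ ∀ p : El x, Mem p.1 u ↔ Mem (f p).1 v

/-- The space `y` with the topology `s` is a remainder of the space `x` with the topology `t`:
there are a compact Hausdorff space `k` with the topology `τ`, a homeomorphic embedding `h` of `x`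
into `k` with dense range, and a homeomorphic embedding `g` of `y` into `k` whose range is the
complement of the range of `h`. -/
def IsRemainder (s y t x : M) : Prop :=
  ∃ (τ k : M) (h : El x → El k) (g : El y → El k),
    IsTopology τ k ∧ IsCompact τ k ∧ IsHausdorff τ k ∧
    IsEmbedding t τ h ∧ (∀ v, Mem v τ → (∃ z, Mem z v) → ∃ p, Mem (h p).1 v) ∧
    IsEmbedding s τ g ∧ ∀ q : El k, (∃ i, g i = q) ↔ ¬ ∃ p, h p = q

/-- The space `y` with the topology `s` is the one-point compactification `ℕ(∞)` of the discrete
space `w` of the natural numbers, with the point `a` as the point at infinity: the open sets are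
the subsets `u` of `w ∪ {a}` such that `a` is not in `u` or `w` is contained in the union of `u`
and a finite set `F`. -/
def IsNInf (s y : M) : Prop :=
  ∃ w a : M, IsOmega w ∧ ¬ Mem a w ∧ (∀ z, Mem z y ↔ Mem z w ∨ z = a) ∧
    ∀ u, Mem u s ↔ (∀ z, Mem z u → Mem z y) ∧
      (Mem a u → ∃ F, IsFinite F ∧ ∀ z, Mem z w → Mem z u ∨ Mem z F)

/-- The space is locally compact: every point `p` is in an open set `u` that is contained in a
compact subspace `c`, with the subspace topology `s`. -/
def IsLocallyCompact (t x : M) : Prop :=
  ∀ p, Mem p x → ∃ u c s, Mem u t ∧ Mem p u ∧ (∀ z, Mem z u → Mem z c) ∧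
    (∀ z, Mem z c → Mem z x) ∧ IsSubspace s c t ∧ IsCompact s c

end Pool.Agent.Q301.UF
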