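import Pool.Agent.Q301.TM.Defs

/-!
# Filterbase infinite sets in a model of set theory: definitions

In a structure `M` for the language of set theory, `Mem z a` says that `z` is an element of `a` in
the sense of `M`, and `El a` is the type of the elements of `a`. A sequence of sets in `M` is a
function `V : El w → El s` in `M` (`IsMap V`), where `w` is the set of the natural numbers
(`IsOmega w`); its `i`-th member is the set `(V i).1`.
-/

namespace Pool.Agent.Q301.UF

open FirstOrder FirstOrder.Language
open Pool.Agent.Helper672.Plain (LSet Mem El)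
open Pool.Agent.H310Cards (IsOmega IsFinite)
open Pool.Agent.Q301.TM (IsMap)

universe u

variable {M : Type u} [LSet.Structure M]

/-- `F` is a filterbase in `a`: a nonempty set of nonempty subsets of `a` such that the
intersection of any two members contains a member. -/
structure IsFilterbase (F a : M) : Prop where
  sub : ∀ u, Mem u F → ∀ z, Mem z u → Mem z a
  nonempty : ∃ u, Mem u F
  proper : ∀ u, Mem u F → ∃ z, Mem z u
  inter : ∀ u v, Mem u F → Mem v F → ∃ c, Mem c F ∧ ∀ z, Mem z c → Mem z u ∧ Mem z v

/-- The intersection of the members of `F` is empty. -/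
def IsFree (F : M) : Prop := ∀ z, ∃ u, Mem u F ∧ ¬ Mem z u

/-- `F` is closed under binary (hence finite) unions and intersections, and all its members are
infinite. -/
structure IsInfLattice (F : M) : Prop where
  union : ∀ u v c, Mem u F → Mem v F → (∀ z, Mem z c ↔ Mem z u ∨ Mem z v) → Mem c F
  inter : ∀ u v c, Mem u F → Mem v F → (∀ z, Mem z c ↔ Mem z u ∧ Mem z v) → Mem c F
  infinite : ∀ u, Mem u F → ¬ IsFinite u

/-- The set `u \ v` is finite. -/
def DiffFinite (u v : M) : Prop := ∀ c, (∀ z, Mem z c ↔ Mem z u ∧ ¬ Mem z v) → IsFinite c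

/-- The set `u ∩ v` is finite. -/
def InterFinite (u v : M) : Prop := ∀ c, (∀ z, Mem z c ↔ Mem z u ∧ Mem z v) → IsFinite c

/-- The set `a` is filterbase infinite: there is a sequence `V` of free filterbases in `a` such
that for `i ≠ j` some member of `V i` and some member of `V j` are disjoint. -/
def IsFilterbaseInfinite (a : M) : Prop :=
  ∃ (w s : M) (V : El w → El s), IsOmega w ∧ IsMap V ∧
    (∀ i, IsFilterbase (V i).1 a ∧ IsFree (V i).1) ∧
    ∀ i j, i ≠ j → ∃ u v, Mem u (V i).1 ∧ Mem v (V j).1 ∧ ∀ z, Mem z u → ¬ Mem z v

/-- The set `a` is strongly filterbase infinite: there is a sequence `V` of filterbases in `a`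
that are closed under finite unions and intersections and have infinite members only, such that
the difference of any two members of `V i` is finite, for `i ≠ j` some member of `V i` and some
member of `V j` have a finite intersection, and for every natural number `n` and every choice
`f i` of members of `V i` for `i < n` the complement of the union of the sets `f i` is
infinite. -/
def IsStronglyFilterbaseInfinite (a : M) : Prop :=
  ∃ (w s : M) (V : El w → El s), IsOmega w ∧ IsMap V ∧
    (∀ i, IsFilterbase (V i).1 a ∧ IsInfLattice (V i).1) ∧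
    (∀ i u v, Mem u (V i).1 → Mem v (V i).1 → DiffFinite u v) ∧
    (∀ i j, i ≠ j → ∃ u v, Mem u (V i).1 ∧ Mem v (V j).1 ∧ InterFinite u v) ∧
    ∀ (n : El w) (p : M) (f : El w → El p), IsMap f →
      (∀ i : El w, Mem i.1 n.1 → Mem (f i).1 (V i).1) →
      ∀ c, (∀ z, Mem z c ↔ Mem z a ∧ ¬ ∃ i : El w, Mem i.1 n.1 ∧ Mem z (f i).1) → ¬ IsFinite c

end Pool.Agent.Q301.UF
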