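import Pool.Agent.Q301.UF.Fz
import Pool.Agent.Q301.UF.FDefs

/-!
# Generic ultrafilters: a filterbase infinite set that is not strongly filterbase infinite
-/

set_option maxHeartbeats 1000000
set_option linter.all false
set_option synthInstance.maxSize 2000

namespace Pool.Agent.Q301.UF

open FirstOrder FirstOrder.Language
open Pool.Agent.Helper672.ZFA
open Pool.Agent.Helper672.Plain (LSet)
open Pool.Agent.Helper672.ZFA.H635 (toL plainN_ordPair plainN_graph plainN_opGraph
  isModel_of_zermelo)
open Pool.Agent.H635Amen (ZF)
open Pool.Agent.H310Cards (IsOmega IsFinite IsFun App IsInj IsNat IsPow)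
open Pool.Agent.H310 (FinP finP_iff finP_le finP_lt exists_BN mem_nat nat_iff appN finite_of_finP
  mem_cp extN exists_code instPEl)
open Pool.Agent.Q301.TM
open Pool.Agent.Helper672.ZFA.Q301SF (UD)

universe u u₁

section

attribute [local instance] toL instPEl

section

variable {N : Type u} [LSet.Structure N] [hM : IsModel N] {δ : Type u₁} [ITy N δ]
  {C : INat N × IPow N δ → Prop} (hC : UD N C)

include hC in
theorem fb_inf {d : N} (e : δ ≃ Helper672.Plain.El d) (he : IntF N (fun x => e x))
    (he' : IntF N (fun q => e.symm q)) : IsFilterbaseInfinite d := by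
  have hCI := hC.int
  obtain ⟨w, hw⟩ := exists_omega (N := N)
  obtain ⟨ν, hν, hν', -⟩ := omega_equiv hw
  obtain ⟨s, ε, hε, -, hεc⟩ := exists_dom (N := N) (IPow N (IPow N (Helper672.Plain.El d)))
  have hI : ∀ n : INat N, Int N (fun B : IPow N (Helper672.Plain.El d) => C (n, iimage (fun q => e.symm q) B)) :=
    fun n => by (repeat' (first | with_reducible exact IntF.id | with_reducible exact IntF.fst' | with_reducible exact IntF.snd' | with_reducible exact IntF.const _ | with_reducible exact Int.const _ | assumption | with_reducible apply Int.and | with_reducible apply Int.or | with_reducible apply Int.not | with_reducible apply Int.imp | with_reducible apply Int.iff | with_reducible apply Int.ne | with_reducible apply Int.eq | with_reducible apply Int.mem | with_reducible apply Int.subset | with_reducible apply Int.ltN | with_reducible apply Int.leN | with_reducible_and_instances apply Int.le | with_reducible_and_instances apply Int.lt | with_reducible apply Int.all | with_reducible apply Int.ex | with_reducible apply IntF.fst | with_reducible apply IntF.snd | with_reducible apply IntF.app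 | with_reducible apply IntF.inl | with_reducible apply IntF.inr | with_reducible_and_instances apply IntF.mul | with_reducible_and_instances apply IntF.inv | with_reducible_and_instances apply IntF.add | with_reducible_and_instances apply IntF.sub | with_reducible_and_instances apply IntF.neg | with_reducible_and_instances apply IntF.smul | with_reducible apply Int.fin | with_reducible apply IntF.sep | with_reducible apply IntF.lam | with_reducible apply IntF.insert | with_reducible apply IntF.singleton | with_reducible apply IntF.union | with_reducible apply IntF.iimage | with_reducible apply IntF.ite | with_reducible apply IntF.the | with_reducible apply IntF.irec | with_reducible apply IntF.succ | with_reducible apply IntF.val | with_reducible apply IntF.mk | (with_reducible refine Int.comp ?_ ?_; assumption) | (with_reducible refine Int.comp₂ ?_ ?_ ?_; assumption) | (with_reducible refine Int.comp₃ ?_ ?_ ?_ ?_; assumption) | (with_reducible refine Int.comp₄ ?_ ?_ ?_ ?_ ?_; assumption) | (with_reducible refine IntF.comp ?_ ?_; assumption) | (with_reducible refine IntF.comp₂ ?_ ?_ ?_; assumption)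 | (with_reducible refine IntF.comp₃ ?_ ?_ ?_ ?_; assumption) | with_reducible apply IntF.pair))
  obtain ⟨V, hV, hVe⟩ : ∃ V : Helper672.Plain.El w → Helper672.Plain.El s, IntF N V ∧ ∀ i, V i =
      ε (sep N fun B : IPow N (Helper672.Plain.El d) => C (ν i, iimage (fun q => e.symm q) B)) :=
    ⟨fun i => ε (sep N fun B : IPow N (Helper672.Plain.El d) => C (ν i, iimage (fun q => e.symm q) B)),
      by (repeat' (first | with_reducible exact IntF.id | with_reducible exact IntF.fst' | with_reducible exact IntF.snd' | with_reducible exact IntF.const _ | with_reducible exact Int.const _ | assumption | with_reducible apply Int.and | with_reducible apply Int.or | with_reducible apply Int.not | with_reducible apply Int.imp | with_reducible apply Int.iff | with_reducible apply Int.ne | with_reducible apply Int.eq | with_reducible apply Int.mem | with_reducible apply Int.subset | with_reducible apply Int.ltN | with_reducible apply Int.leN | with_reducible_and_instances apply Int.le | with_reducible_and_instances apply Int.lt | with_reducible apply Int.all | with_reducible apply Int.ex | with_reducible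 apply IntF.fst | with_reducible apply IntF.snd | with_reducible apply IntF.app | with_reducible apply IntF.inl | with_reducible apply IntF.inr | with_reducible_and_instances apply IntF.mul | with_reducible_and_instances apply IntF.inv | with_reducible_and_instances apply IntF.add | with_reducible_and_instances apply IntF.sub | with_reducible_and_instances apply IntF.neg | with_reducible_and_instances apply IntF.smul | with_reducible apply Int.fin | with_reducible apply IntF.sep | with_reducible apply IntF.lam | with_reducible apply IntF.insert | with_reducible apply IntF.singleton | with_reducible apply IntF.union | with_reducible apply IntF.iimage | with_reducible apply IntF.ite | with_reducible apply IntF.the | with_reducible apply IntF.irec | with_reducible apply IntF.succ | with_reducible apply IntF.val | with_reducible apply IntF.mk | (with_reducible refine Int.comp ?_ ?_; assumption) | (with_reducible refine Int.comp₂ ?_ ?_ ?_; assumption) | (with_reducible refine Int.comp₃ ?_ ?_ ?_ ?_; assumption) | (with_reducible refine Int.comp₄ ?_ ?_ ?_ ?_ ?_; assumption) | (with_reducible refine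 IntF.comp ?_ ?_; assumption) | (with_reducible refine IntF.comp₂ ?_ ?_ ?_; assumption) | (with_reducible refine IntF.comp₃ ?_ ?_ ?_ ?_; assumption) | with_reducible apply IntF.pair)), fun _ => rfl⟩
  have hmem : ∀ i u, Helper672.Plain.Mem u (V i).1 ↔ ∃ A : IPow N δ, C (ν i, A) ∧
      code (M := N) (iimage (fun x => e x) A) = u := by
    intro i u
    rw [hVe, hεc]
    refine mem_cp.trans ⟨?_, ?_⟩
    · rintro ⟨B, hB, rfl⟩
      refine ⟨_, (mem_sep (hI _)).1 hB, congrArg code (IPow.ext' fun q => ?_)⟩
      rw [mem_iimage he]
      constructor
      · rintro ⟨x, hx, rfl⟩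
        obtain ⟨q, hq, rfl⟩ := (mem_iimage he').1 hx
        rwa [Equiv.apply_symm_apply]
      · exact fun hq => ⟨e.symm q, (mem_iimage he').2 ⟨q, hq, rfl⟩, e.apply_symm_apply q⟩
    · rintro ⟨A, hA, rfl⟩
      refine ⟨_, (mem_sep (hI _)).2 ?_, rfl⟩
      refine hC.mono _ _ _ hA fun x hx => (mem_iimage he').2 ⟨e x, (mem_iimage he).2 ⟨x, hx, rfl⟩,
        e.symm_apply_apply x⟩
  have hel : ∀ (A : IPow N δ) z, Helper672.Plain.Mem z (code (M := N) (iimage (fun x => e x) A)) ↔
      ∃ x, x ∈ A ∧ (e x).1 = z := by
    intro A z
    refine mem_cp.trans ⟨?_, ?_⟩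
    · rintro ⟨q, hq, rfl⟩
      obtain ⟨x, hx, rfl⟩ := (mem_iimage he).1 hq
      exact ⟨x, hx, rfl⟩
    · rintro ⟨x, hx, rfl⟩
      exact ⟨e x, (mem_iimage he).2 ⟨x, hx, rfl⟩, rfl⟩
  refine ⟨w, s, V, hw, isMap_iff.2 hV, fun i => ⟨⟨fun u hu z hz => ?_, ?_, fun u hu => ?_,
    fun u v hu hv => ?_⟩, fun z => ?_⟩, fun i j hij => ?_⟩
  · obtain ⟨A, -, rfl⟩ := (hmem i u).1 hu
    obtain ⟨x, -, rfl⟩ := (hel A z).1 hz
    exact (e x).2
  · exact ⟨_, (hmem i _).2 ⟨_, hC.univ _, rfl⟩⟩
  · obtain ⟨A, hA, rfl⟩ := (hmem i u).1 hu
    obtain ⟨x, hx, -⟩ := hC.not_disj hA hA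
    exact ⟨_, (hel A _).2 ⟨x, hx, rfl⟩⟩
  · obtain ⟨A, hA, rfl⟩ := (hmem i u).1 hu
    obtain ⟨B, hB, rfl⟩ := (hmem i v).1 hv
    refine ⟨_, (hmem i _).2 ⟨_, hC.inter _ _ _ hA hB, rfl⟩, fun z hz => ?_⟩
    obtain ⟨x, hx, rfl⟩ := (hel _ z).1 hz
    exact ⟨(hel _ _).2 ⟨x, (mem_inter.1 hx).1, rfl⟩, (hel _ _).2 ⟨x, (mem_inter.1 hx).2, rfl⟩⟩
  · by_cases hz : Helper672.Plain.Mem z d
    · refine ⟨_, (hmem i _).2 ⟨iuniv N δ \ {e.symm ⟨z, hz⟩}, (hC.ultra _ _).resolve_left fun h =>
        hC.npr _ _ h (IFin.singleton _), rfl⟩, fun h => ?_⟩
      obtain ⟨x, hx, hxz⟩ := (hel _ z).1 h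
      refine (mem_sdiff.1 hx).2 (mem_singleton.2 ?_)
      rw [← e.symm_apply_apply x]
      exact congrArg e.symm (Subtype.ext hxz)
    · refine ⟨_, (hmem i _).2 ⟨_, hC.univ _, rfl⟩, fun h => hz ?_⟩
      obtain ⟨x, hx, rfl⟩ := (hel _ z).1 h
      exact (e x).2
  · obtain ⟨A, hA, hA'⟩ := hC.sep (ν i) (ν j) fun h => hij (ν.injective h)
    refine ⟨_, _, (hmem i _).2 ⟨A, hA, rfl⟩, (hmem j _).2 ⟨iuniv N δ \ A,
      (hC.ultra _ _).resolve_left hA', rfl⟩, fun z hz hz' => ?_⟩
    obtain ⟨x, hx, rfl⟩ := (hel _ z).1 hz
    obtain ⟨x', hx', h⟩ := (hel _ _).1 hz'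
    rw [e.injective (Subtype.ext h)] at hx'
    exact (mem_sdiff.1 hx').2 hx

include hC in
theorem not_sfb {d : N} (e : δ ≃ Helper672.Plain.El d) (he : IntF N (fun x => e x))
    (he' : IntF N (fun q => e.symm q)) : ¬ IsStronglyFilterbaseInfinite d := by
  have hCI := hC.int
  rintro ⟨w, s, V, hw, hV, h1, h2, h3, -⟩
  obtain ⟨ν, hν, hν', -⟩ := omega_equiv hw
  have hV := isMap_iff.1 hV
  have hel : ∀ (A : IPow N δ) z, Helper672.Plain.Mem z (code (M := N) (iimage (fun x => e x) A)) ↔
      ∃ x, x ∈ A ∧ (e x).1 = z := by
    intro A z
    refine mem_cp.trans ⟨?_, ?_⟩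
    · rintro ⟨q, hq, rfl⟩
      obtain ⟨x, hx, rfl⟩ := (mem_iimage he).1 hq
      exact ⟨x, hx, rfl⟩
    · rintro ⟨x, hx, rfl⟩
      exact ⟨e x, (mem_iimage he).2 ⟨x, hx, rfl⟩, rfl⟩
  have hel' : ∀ (A : IPow N δ) x, Helper672.Plain.Mem (e x).1 (code (M := N) (iimage (fun x => e x) A)) ↔
      x ∈ A := by
    intro A x
    refine (hel A _).trans ⟨?_, fun h => ⟨x, h, rfl⟩⟩
    rintro ⟨x', hx', h⟩
    rwa [e.injective (Subtype.ext h)] at hx'
  -- sets of the model
  have hset : ∀ u, (∀ z, Helper672.Plain.Mem z u → Helper672.Plain.Mem z d) → ∃ A : IPow N δ,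
      code (M := N) (iimage (fun x => e x) A) = u := by
    intro u hu
    have hI : Int N (fun x : δ => Helper672.Plain.Mem (e x).1 u) := by (repeat' (first | with_reducible apply memPE | with_reducible apply memPE' | with_reducible apply memPE'' | with_reducible apply memCode | with_reducible apply memCodeP | with_reducible apply memCode₂ | with_reducible apply eqPE | with_reducible apply eqPE' | with_reducible exact IntF.id | with_reducible exact IntF.fst' | with_reducible exact IntF.snd' | with_reducible exact IntF.const _ | with_reducible exact Int.const _ | assumption | with_reducible apply Int.and | with_reducible apply Int.or | with_reducible apply Int.not | with_reducible apply Int.imp | with_reducible apply Int.iff | with_reducible apply Int.ne | with_reducible apply Int.eq | with_reducible apply Int.mem | with_reducible apply Int.subset | with_reducible apply Int.ltN | with_reducible apply Int.leN | with_reducible_and_instances apply Int.le | with_reducible_and_instances apply Int.lt | with_reducible apply Int.all | with_reducible apply Int.ex | with_reducible apply IntF.fst | with_reducible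 apply IntF.snd | with_reducible apply IntF.app | with_reducible apply IntF.inl | with_reducible apply IntF.inr | with_reducible_and_instances apply IntF.mul | with_reducible_and_instances apply IntF.inv | with_reducible_and_instances apply IntF.add | with_reducible_and_instances apply IntF.sub | with_reducible_and_instances apply IntF.neg | with_reducible_and_instances apply IntF.smul | with_reducible apply Int.fin | with_reducible apply IntF.sep | with_reducible apply IntF.lam | with_reducible apply IntF.insert | with_reducible apply IntF.singleton | with_reducible apply IntF.union | with_reducible apply IntF.iimage | with_reducible apply IntF.ite | with_reducible apply IntF.the | with_reducible apply IntF.irec | with_reducible apply IntF.succ | with_reducible apply IntF.val | with_reducible apply IntF.mk | (with_reducible refine Int.comp ?_ ?_; assumption) | (with_reducible refine Int.comp₂ ?_ ?_ ?_; assumption) | (with_reducible refine Int.comp₃ ?_ ?_ ?_ ?_; assumption) | (with_reducible refine Int.comp₄ ?_ ?_ ?_ ?_ ?_; assumption) | (with_reducible refine IntF.comp ?_ ?_; assumption) |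 (with_reducible refine IntF.comp₂ ?_ ?_ ?_; assumption) | (with_reducible refine IntF.comp₃ ?_ ?_ ?_ ?_; assumption) | with_reducible apply IntF.pair))
    refine ⟨sep N fun x : δ => Helper672.Plain.Mem (e x).1 u, extN fun z => (hel _ z).trans ⟨?_, fun hz => ?_⟩⟩
    · rintro ⟨x, hx, rfl⟩
      exact (mem_sep hI).1 hx
    · obtain ⟨x, hx⟩ := e.surjective (mkE z (hu z hz))
      refine ⟨x, (mem_sep hI).2 ?_, ?_⟩
      · rw [hx]
        exact hz
      · rw [hx]
        rfl
  have hfin : ∀ (A : IPow N δ), IsFinite (code (M := N) (iimage (fun x => e x) A)) → IFin A := by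
    intro A hA
    refine ((ifin_of_finite hA d).image he').subset fun x hx => ?_
    exact (mem_iimage he').2 ⟨e x, (mem_sep (memI' _ _)).2 ((hel' A x).2 hx), e.symm_apply_apply x⟩
  have hWI : Int N (fun q : IPow N δ × INat N =>
      Helper672.Plain.Mem (code (M := N) (iimage (fun x => e x) q.1)) (V (ν.symm q.2)).1) := by
    refine memCode₂ ?_ ?_
    · (repeat' (first | with_reducible exact IntF.id | with_reducible exact IntF.fst' | with_reducible exact IntF.snd' | with_reducible exact IntF.const _ | with_reducible exact Int.const _ | assumption | with_reducible apply Int.and | with_reducible apply Int.or | with_reducible apply Int.not | with_reducible apply Int.imp | with_reducible apply Int.iff | with_reducible apply Int.ne | with_reducible apply Int.eq | with_reducible apply Int.mem | with_reducible apply Int.subset | with_reducible apply Int.ltN | with_reducible apply Int.leN | with_reducible_and_instances apply Int.le | with_reducible_and_instances apply Int.lt | with_reducible apply Int.all | with_reducible apply Int.ex | with_reducible apply IntF.fst | with_reducible apply IntF.snd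 | with_reducible apply IntF.app | with_reducible apply IntF.inl | with_reducible apply IntF.inr | with_reducible_and_instances apply IntF.mul | with_reducible_and_instances apply IntF.inv | with_reducible_and_instances apply IntF.add | with_reducible_and_instances apply IntF.sub | with_reducible_and_instances apply IntF.neg | with_reducible_and_instances apply IntF.smul | with_reducible apply Int.fin | with_reducible apply IntF.sep | with_reducible apply IntF.lam | with_reducible apply IntF.insert | with_reducible apply IntF.singleton | with_reducible apply IntF.union | with_reducible apply IntF.iimage | with_reducible apply IntF.ite | with_reducible apply IntF.the | with_reducible apply IntF.irec | with_reducible apply IntF.succ | with_reducible apply IntF.val | with_reducible apply IntF.mk | (with_reducible refine Int.comp ?_ ?_; assumption) | (with_reducible refine Int.comp₂ ?_ ?_ ?_; assumption) | (with_reducible refine Int.comp₃ ?_ ?_ ?_ ?_; assumption) | (with_reducible refine Int.comp₄ ?_ ?_ ?_ ?_ ?_; assumption) | (with_reducible refine IntF.comp ?_ ?_; assumption) | (with_reducible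 refine IntF.comp₂ ?_ ?_ ?_; assumption) | (with_reducible refine IntF.comp₃ ?_ ?_ ?_ ?_; assumption) | with_reducible apply IntF.pair))
    · (repeat' (first | with_reducible exact IntF.id | with_reducible exact IntF.fst' | with_reducible exact IntF.snd' | with_reducible exact IntF.const _ | with_reducible exact Int.const _ | assumption | with_reducible apply Int.and | with_reducible apply Int.or | with_reducible apply Int.not | with_reducible apply Int.imp | with_reducible apply Int.iff | with_reducible apply Int.ne | with_reducible apply Int.eq | with_reducible apply Int.mem | with_reducible apply Int.subset | with_reducible apply Int.ltN | with_reducible apply Int.leN | with_reducible_and_instances apply Int.le | with_reducible_and_instances apply Int.lt | with_reducible apply Int.all | with_reducible apply Int.ex | with_reducible apply IntF.fst | with_reducible apply IntF.snd | with_reducible apply IntF.app | with_reducible apply IntF.inl | with_reducible apply IntF.inr | with_reducible_and_instances apply IntF.mul | with_reducible_and_instances apply IntF.inv | with_reducible_and_instances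 apply IntF.add | with_reducible_and_instances apply IntF.sub | with_reducible_and_instances apply IntF.neg | with_reducible_and_instances apply IntF.smul | with_reducible apply Int.fin | with_reducible apply IntF.sep | with_reducible apply IntF.lam | with_reducible apply IntF.insert | with_reducible apply IntF.singleton | with_reducible apply IntF.union | with_reducible apply IntF.iimage | with_reducible apply IntF.ite | with_reducible apply IntF.the | with_reducible apply IntF.irec | with_reducible apply IntF.succ | with_reducible apply IntF.val | with_reducible apply IntF.mk | (with_reducible refine Int.comp ?_ ?_; assumption) | (with_reducible refine Int.comp₂ ?_ ?_ ?_; assumption) | (with_reducible refine Int.comp₃ ?_ ?_ ?_ ?_; assumption) | (with_reducible refine Int.comp₄ ?_ ?_ ?_ ?_ ?_; assumption) | (with_reducible refine IntF.comp ?_ ?_; assumption) | (with_reducible refine IntF.comp₂ ?_ ?_ ?_; assumption) | (with_reducible refine IntF.comp₃ ?_ ?_ ?_ ?_; assumption) | with_reducible apply IntF.pair))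
  have hsd : ∀ A B : IPow N δ, DiffFinite (code (M := N) (iimage (fun x => e x) A))
      (code (M := N) (iimage (fun x => e x) B)) → IFin (A \ B) := by
    intro A B h
    refine hfin _ (h _ fun z => (hel _ z).trans ⟨?_, ?_⟩)
    · rintro ⟨x, hx, rfl⟩
      exact ⟨(hel' A x).2 (mem_sdiff.1 hx).1, fun h => (mem_sdiff.1 hx).2 ((hel' B x).1 h)⟩
    · rintro ⟨hz, hz'⟩
      obtain ⟨x, hx, rfl⟩ := (hel A z).1 hz
      exact ⟨x, mem_sdiff.2 ⟨hx, fun h => hz' ((hel' B x).2 h)⟩, rfl⟩
  have key := hC.pigeon hWI ?_ ?_
  · obtain ⟨n, n', A, B, hne, hA, hB, hAB⟩ := key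
    obtain ⟨u, v, hu, hv, huv⟩ := h3 (ν.symm n) (ν.symm n') fun h => hne (ν.symm.injective h)
    obtain ⟨A', rfl⟩ := hset u ((h1 _).1.sub u hu)
    obtain ⟨B', rfl⟩ := hset v ((h1 _).1.sub v hv)
    have h4 : IFin (A' ∩ B') := by
      refine hfin _ (huv _ fun z => (hel _ z).trans ⟨?_, ?_⟩)
      · rintro ⟨x, hx, rfl⟩
        exact ⟨(hel' A' x).2 (mem_inter.1 hx).1, (hel' B' x).2 (mem_inter.1 hx).2⟩
      · rintro ⟨hz, hz'⟩
        obtain ⟨x, hx, rfl⟩ := (hel A' z).1 hz
        exact ⟨x, mem_inter.2 ⟨hx, (hel' B' x).1 hz'⟩, rfl⟩
    have h5 := hsd _ _ (h2 _ _ _ hA hu)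
    have h6 := hsd _ _ (h2 _ _ _ hB hv)
    have h7 : IFin A := (((h4.union h5).union h6).union hAB).subset fun x hx => by
      by_cases hxA : x ∈ A'
      · by_cases hxB : x ∈ B'
        · exact mem_union.2 (Or.inl (mem_union.2 (Or.inl (mem_union.2 (Or.inl
            (mem_inter.2 ⟨hxA, hxB⟩))))))
        · by_cases hxB2 : x ∈ B
          · exact mem_union.2 (Or.inl (mem_union.2 (Or.inr (mem_sdiff.2 ⟨hxB2, hxB⟩))))
          · exact mem_union.2 (Or.inr (mem_sdiff.2 ⟨hx, hxB2⟩))
      · exact mem_union.2 (Or.inl (mem_union.2 (Or.inl (mem_union.2 (Or.inr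
          (mem_sdiff.2 ⟨hx, hxA⟩))))))
    exact (h1 _).2.infinite _ hA (finite_code (h7.image he))
  · intro n
    obtain ⟨u, hu⟩ := (h1 (ν.symm n)).1.nonempty
    obtain ⟨A, rfl⟩ := hset u ((h1 _).1.sub u hu)
    exact ⟨A, hu⟩
  · intro n A B hA hB
    exact hsd _ _ (h2 _ _ _ hA hB)

end

theorem exists_fb (N : Type u) [LSet.Structure N] (h : HasUD N) :
    ∃ d : N, IsFilterbaseInfinite d ∧ ¬ IsStronglyFilterbaseInfinite d := by
  obtain ⟨hN, z, C, hC⟩ := h
  letI : IsModel N := isModel_of_zermelo hN
  obtain ⟨d, e, he, he', -⟩ := exists_dom (N := N) (El z)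
  exact ⟨d, fb_inf hC e he he', not_sfb hC e he he'⟩

end

/-- A filterbase infinite set need not be strongly filterbase infinite. -/
theorem p915581 (h : ∃ (M : Type u) (_ : LSet.Structure M), ZF M) :
    ∃ (N : Type u) (_ : LSet.Structure N), ZF N ∧
      ∃ d : N, IsFilterbaseInfinite d ∧ ¬ IsStronglyFilterbaseInfinite d := by
  obtain ⟨N, i, hN, hU⟩ := exists_model h
  exact ⟨N, i, hN, exists_fb N hU⟩

end Pool.Agent.Q301.UF
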