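import Pool.Agent.Q301.UF.Top
import Pool.Agent.H635R2.Ext

/-!
# Generic ultrafilters: the models exist
-/

set_option maxHeartbeats 1000000
set_option linter.all false
set_option synthInstance.maxSize 2000

namespace Pool.Agent.Q301.UF

open FirstOrder FirstOrder.Language
open Pool.Agent.Helper672.ZFA
open Pool.Agent.Helper672.Plain (LSet)
open Pool.Agent.Helper672.ZFA.H635 (toL plainN_ordPair plainN_graph plainN_opGraph IsGen NN nn_zf
  CollL coll_of_zf exists_countable_sub exists_reals isModel_of_zermelo nn_zermelo IPerm)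
open Pool.Agent.H635Amen (ZF)
open Pool.Agent.H310Cards (IsOmega IsFinite IsPow)
open Pool.Agent.H310Top (IsTopology IsCompact IsHausdorff)
open Pool.Agent.H310 (instPEl)
open Pool.Agent.Helper672.ZFA.Q301SF (UD exists_ud SQ PP ZT not_fin_univ rwq mem_rwq)

universe u

/-- The model has a set of indiscernibles with a sequence of ultrafilters. -/
def HasUD (N : Type u) [LSet.Structure N] : Prop :=
  ∃ hN : Helper672.Plain.Zermelo N, letI := toL N; letI : IsModel N := isModel_of_zermelo hN
    ∃ (z : N) (C : INat N × IPow N (El z) → Prop), UD N C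

theorem exists_ud' {M : Type u} [L.Structure M] [IsModel M] [Countable M] (hC : CollL M) :
    ∃ (N : Type u) (_ : LSet.Structure N), ZF N ∧ HasUD N := by
  have p₀ : PP M (INat M) := (⟨∅, fun i k d d' h => absurd h (by simp), IFin.empty⟩,
    ⟨iuniv M (INat M × INat M), fun n h => not_fin_univ (h.subset fun x _ => mem_rwq.2 (by simp)),
      0, fun n _ x => by simp⟩)
  obtain ⟨G, hG⟩ := H635.exists_gen (M := M) p₀
  refine ⟨NN (SQ (ZT M (INat M))) hG, inferInstance, nn_zf hG hC, nn_zermelo hG, ?_⟩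
  letI := toL (NN (SQ (ZT M (INat M))) hG)
  letI : IsModel (NN (SQ (ZT M (INat M))) hG) := isModel_of_zermelo (nn_zermelo hG)
  obtain ⟨z, C, h⟩ := exists_ud hG hC
  exact ⟨z, C, h⟩

section

attribute [local instance] toL instPEl

theorem exists_ud_c (M : Type u) [LSet.Structure M] [Countable M] (h : ZF M) :
    ∃ (N : Type u) (_ : LSet.Structure N), ZF N ∧ HasUD N := by
  have hM : IsModel M := isModel_of_zermelo h.toZermelo
  exact exists_ud' (coll_of_zf h)

theorem exists_space (N : Type u) [LSet.Structure N] (h : HasUD N) :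
    ∃ d t : N, IsPow t d ∧ ¬ IsFinite d ∧ (∃ y s, IsDenumerable y ∧ IsRemainder s y t d) ∧
      (∀ y s, IsNInf s y → ¬ IsRemainder s y t d) ∧ IsTopology t d ∧ IsHausdorff t d ∧
      IsLocallyCompact t d := by
  obtain ⟨hN, z, C, hC⟩ := h
  letI : IsModel N := isModel_of_zermelo hN
  obtain ⟨d, e, he, he', -⟩ := exists_dom (N := N) (El z)
  obtain ⟨t, ht⟩ : ∃ t : N, IsPow t d := by
    obtain ⟨t, ht⟩ := exists_family (N := N) (a := d) (p := fun _ => True) (Int.const _)
    refine ⟨t, fun u => (ht u).trans ⟨?_, fun h => ?_⟩⟩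
    · rintro ⟨U, rfl, -⟩ z hz
      exact (TM.mem_cpE.1 hz).1
    · obtain ⟨U, hU, -⟩ := H310.exists_code h
      exact ⟨U, hU, trivial⟩
  exact ⟨d, t, ht, not_finite hC e he', pos_rem hC e he he' ht, fun y s h => neg_rem hC e he he' ht h,
    discrete_top ht, discrete_haus ht, discrete_lc ht⟩

end

theorem exists_model (h : ∃ (M : Type u) (_ : LSet.Structure M), ZF M) :
    ∃ (N : Type u) (_ : LSet.Structure N), ZF N ∧ HasUD N := by
  obtain ⟨M, i, hM⟩ := h
  obtain ⟨M₀, h1, h2⟩ := exists_countable_sub M hM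
  exact exists_ud_c M₀ h2

/-- The space `ℕ(∞)` need not be a remainder of an infinite discrete space that has a denumerable
remainder. -/
theorem pea9bab (h : ∃ (M : Type u) (_ : LSet.Structure M), ZF M) :
    ∃ (N : Type u) (_ : LSet.Structure N), ZF N ∧
      ∃ d t : N, IsPow t d ∧ ¬ IsFinite d ∧ (∃ y s, IsDenumerable y ∧ IsRemainder s y t d) ∧
        ∀ y s, IsNInf s y → ¬ IsRemainder s y t d := by
  obtain ⟨N, i, hN, hU⟩ := exists_model h
  obtain ⟨d, t, h1, h2, h3, h4, -⟩ := exists_space N hU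
  exact ⟨N, i, hN, d, t, h1, h2, h3, h4⟩

/-- The space `ℕ(∞)` need not be a remainder of a locally compact Hausdorff space that has a
denumerable remainder. -/
theorem p5ed4ef (h : ∃ (M : Type u) (_ : LSet.Structure M), ZF M) :
    ∃ (N : Type u) (_ : LSet.Structure N), ZF N ∧
      ∃ t x : N, IsTopology t x ∧ IsHausdorff t x ∧ IsLocallyCompact t x ∧
        (∃ y s, IsDenumerable y ∧ IsRemainder s y t x) ∧
        ∀ y s, IsNInf s y → ¬ IsRemainder s y t x := by
  obtain ⟨N, i, hN, hU⟩ := exists_model h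
  obtain ⟨d, t, -, -, h3, h4, h5, h6, h7⟩ := exists_space N hU
  exact ⟨N, i, hN, t, d, h5, h6, h7, h3, h4⟩

end Pool.Agent.Q301.UF
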