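import Pool.Agent.Q301.UF.Sys

/-!
# Generic ultrafilters on a set of indiscernibles: genericity and homogeneity
-/

set_option maxHeartbeats 1000000
set_option linter.all false
set_option synthInstance.maxSize 2000

namespace Pool.Agent.Helper672.ZFA.Q301SF

open FirstOrder FirstOrder.Language
open Pool.Agent.Helper672.ZFA.H635 (IPerm SymSys IG WFI FEq FMem tw Good feq_of_map feq_iff IsGen
  nd nd_eq mem_nd mem_nd_nd exists_mk mk_eq_nd EqFam NN nn_ext CollL nn_zf mem_NN extG SymQ
  good_extG mem_nd_inr feq_equivQ fmem_tw toL)
open Pool.Agent.Helper672.ZFA.H310M (PGr FS fsu fs1 mem_fs1 fsi mem_fsi Co Cel Gm rhoi sig sigi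
  rho_rhoi rhoi_rho sig_sigi sigi_sig sig_fst sig_snd sigi_fst sigi_snd rho_comp sig_comp sigi_comp
  rho_inv rhoi_inv sig_inv sigi_inv sig_one sigi_one rho_one int_rho int_rhoi int_sig int_sigi
  mem_smul' SS SS_U rho_of_U UU TS ts int_ts mem_ts mem_ts_sig ts_surj ts_of_U cell_eq cell_eq'
  exists_free exists_add exists_move)
open Pool.Agent.Helper672.Plain (LSet)

universe u

section gen

variable {M : Type u} [L.Structure M] [hM : IsModel M]

/-- Shrinking a row. -/
theorem exists_shrink (q : QQ M (INat M)) (n : INat M) (s : IPow M (INat M))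
    (h : ¬ IFin (rwq q.1 n ∩ s)) : ∃ q', q' ≤ q ∧ (∀ x, ((n, x) : QC M (INat M)) ∈ q'.1 → x ∈ s) ∧
      ∀ m, m ≠ n → ∀ x, ((m, x) : QC M (INat M)) ∈ q.1 → ((m, x) : QC M (INat M)) ∈ q'.1 := by
  have hI : Int M (fun c : QC M (INat M) => c ∈ q.1 ∧ (c.1 = n → c.2 ∈ s)) := by (repeat' (first | with_reducible exact IntF.id | with_reducible exact IntF.fst' | with_reducible exact IntF.snd' | with_reducible exact IntF.const _ | with_reducible exact Int.const _ | assumption | with_reducible apply Int.and | with_reducible apply Int.or | with_reducible apply Int.not | with_reducible apply Int.imp | with_reducible apply Int.iff | with_reducible apply Int.ne | with_reducible apply Int.eq | with_reducible apply Int.mem | with_reducible apply Int.subset | with_reducible apply Int.ltN | with_reducible apply Int.leN | with_reducible_and_instances apply Int.le | with_reducible_and_instances apply Int.lt | with_reducible apply Int.all | with_reducible apply Int.ex | with_reducible apply IntF.fst | with_reducible apply IntF.snd | with_reducible apply IntF.app | with_reducible apply IntF.inl |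 with_reducible apply IntF.inr | with_reducible_and_instances apply IntF.mul | with_reducible_and_instances apply IntF.inv | with_reducible_and_instances apply IntF.add | with_reducible_and_instances apply IntF.sub | with_reducible_and_instances apply IntF.neg | with_reducible_and_instances apply IntF.smul | with_reducible apply Int.fin | with_reducible apply IntF.sep | with_reducible apply IntF.lam | with_reducible apply IntF.insert | with_reducible apply IntF.singleton | with_reducible apply IntF.union | with_reducible apply IntF.iimage | with_reducible apply IntF.ite | with_reducible apply IntF.the | with_reducible apply IntF.irec | with_reducible apply IntF.succ | with_reducible apply IntF.val | with_reducible apply IntF.mk | (with_reducible refine Int.comp ?_ ?_; assumption) | (with_reducible refine Int.comp₂ ?_ ?_ ?_; assumption) | (with_reducible refine Int.comp₃ ?_ ?_ ?_ ?_; assumption) | (with_reducible refine Int.comp₄ ?_ ?_ ?_ ?_ ?_; assumption) | (with_reducible refine IntF.comp ?_ ?_; assumption) | (with_reducible refine IntF.comp₂ ?_ ?_ ?_; assumption) | (with_reducible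 refine IntF.comp₃ ?_ ?_ ?_ ?_; assumption) | with_reducible apply IntF.pair))
  have hm : ∀ k x, ((k, x) : QC M (INat M)) ∈ sep M (fun c : QC M (INat M) => c ∈ q.1 ∧
      (c.1 = n → c.2 ∈ s)) ↔ ((k, x) : QC M (INat M)) ∈ q.1 ∧ (k = n → x ∈ s) :=
    fun k x => mem_sep hI
  obtain ⟨h1, m, hm'⟩ := q.2
  refine ⟨⟨sep M fun c : QC M (INat M) => c ∈ q.1 ∧ (c.1 = n → c.2 ∈ s), fun k hk => ?_,
    max m n.succ, fun k hk x => (hm k x).2 ⟨hm' k ((le_max_left _ _).trans hk) x, fun h2 => ?_⟩⟩,
    fun c hc => ?_, fun x hx => ((hm _ _).1 hx).2 rfl, fun k hk x hx => (hm _ _).2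
      ⟨hx, fun h2 => absurd h2 hk⟩⟩
  · by_cases hkn : k = n
    · subst hkn
      exact h (hk.subset fun x hx => mem_rwq.2 ((hm _ _).2
        ⟨mem_rwq.1 (mem_inter.1 hx).1, fun _ => (mem_inter.1 hx).2⟩))
    · exact h1 k (hk.subset fun x hx => mem_rwq.2 ((hm _ _).2
        ⟨mem_rwq.1 hx, fun h2 => absurd h2 hkn⟩))
  · subst h2
    exact absurd ((le_max_right _ _).trans hk) (not_le.2 (INat.lt_succ_self k))
  · obtain ⟨k, x⟩ := c
    exact ((hm _ _).1 hc).1

/-- Common extensions of a condition and the image of a condition. -/
theorem exists_mv2 {q₀ p : PP M (INat M)} (hqp : q₀ ≤ p) (l : LQ M (INat M)) (g : IPerm M (INat M))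
    (hE : ∀ x, x ∈ l.1.1 → g.1.1 x = x) (hB : ∀ b, b ∈ l.2.1 → ∀ x, x ∈ b ↔ g.1.1 x ∈ b)
    (hinf : ∀ n, ¬ IFin (sep M fun x => ((n, x) : QC M (INat M)) ∈ q₀.2.1 ∧
      ((n, g.1.2 x) : QC M (INat M)) ∈ p.2.1)) :
    ∃ π : Gm (ZT M (INat M)), UQ l π ∧ π.1.1 = g ∧ ∃ r, r ≤ q₀ ∧ r ≤ π • p := by
  obtain ⟨π, h1, h2, r, h3, h4⟩ := exists_move (Z := ZT M (INat M)) q₀.1 (E := l.1) (mem_ZT g) hE
  have hI : Int M (fun c : QC M (INat M) => c ∈ q₀.2.1 ∧ c ∈ (π • p.2).1) := by (repeat' (first | with_reducible exact IntF.id | with_reducible exact IntF.fst' | with_reducible exact IntF.snd' | with_reducible exact IntF.const _ | with_reducible exact Int.const _ | assumption | with_reducible apply Int.and | with_reducible apply Int.or | with_reducible apply Int.not | with_reducible apply Int.imp | with_reducible apply Int.iff | with_reducible apply Int.ne | with_reducible apply Int.eq | with_reducible apply Int.mem | with_reducible apply Int.subset | with_reducible apply Int.ltN | with_reducible apply Int.leN | with_reducible_and_instances apply Int.le | with_reducible_and_instances apply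 Int.lt | with_reducible apply Int.all | with_reducible apply Int.ex | with_reducible apply IntF.fst | with_reducible apply IntF.snd | with_reducible apply IntF.app | with_reducible apply IntF.inl | with_reducible apply IntF.inr | with_reducible_and_instances apply IntF.mul | with_reducible_and_instances apply IntF.inv | with_reducible_and_instances apply IntF.add | with_reducible_and_instances apply IntF.sub | with_reducible_and_instances apply IntF.neg | with_reducible_and_instances apply IntF.smul | with_reducible apply Int.fin | with_reducible apply IntF.sep | with_reducible apply IntF.lam | with_reducible apply IntF.insert | with_reducible apply IntF.singleton | with_reducible apply IntF.union | with_reducible apply IntF.iimage | with_reducible apply IntF.ite | with_reducible apply IntF.the | with_reducible apply IntF.irec | with_reducible apply IntF.succ | with_reducible apply IntF.val | with_reducible apply IntF.mk | (with_reducible refine Int.comp ?_ ?_; assumption) | (with_reducible refine Int.comp₂ ?_ ?_ ?_; assumption) | (with_reducible refine Int.comp₃ ?_ ?_ ?_ ?_;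 assumption) | (with_reducible refine Int.comp₄ ?_ ?_ ?_ ?_ ?_; assumption) | (with_reducible refine IntF.comp ?_ ?_; assumption) | (with_reducible refine IntF.comp₂ ?_ ?_ ?_; assumption) | (with_reducible refine IntF.comp₃ ?_ ?_ ?_ ?_; assumption) | with_reducible apply IntF.pair))
  have hrho : ∀ x, rhoi π x = g.1.2 x := fun x => by
    rw [← h2]
    rfl
  have hI2 : ∀ n, Int M (fun x => ((n, x) : QC M (INat M)) ∈ q₀.2.1 ∧
      ((n, g.1.2 x) : QC M (INat M)) ∈ p.2.1) := by
    intro n
    have hg := g.1.2.int
    (repeat' (first | with_reducible exact IntF.id | with_reducible exact IntF.fst' | with_reducible exact IntF.snd' | with_reducible exact IntF.const _ | with_reducible exact Int.const _ | assumption | with_reducible apply Int.and | with_reducible apply Int.or | with_reducible apply Int.not | with_reducible apply Int.imp | with_reducible apply Int.iff | with_reducible apply Int.ne | with_reducible apply Int.eq | with_reducible apply Int.mem | with_reducible apply Int.subset | with_reducible apply Int.ltN | with_reducible apply Int.leN | with_reducible_and_instances apply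 Int.le | with_reducible_and_instances apply Int.lt | with_reducible apply Int.all | with_reducible apply Int.ex | with_reducible apply IntF.fst | with_reducible apply IntF.snd | with_reducible apply IntF.app | with_reducible apply IntF.inl | with_reducible apply IntF.inr | with_reducible_and_instances apply IntF.mul | with_reducible_and_instances apply IntF.inv | with_reducible_and_instances apply IntF.add | with_reducible_and_instances apply IntF.sub | with_reducible_and_instances apply IntF.neg | with_reducible_and_instances apply IntF.smul | with_reducible apply Int.fin | with_reducible apply IntF.sep | with_reducible apply IntF.lam | with_reducible apply IntF.insert | with_reducible apply IntF.singleton | with_reducible apply IntF.union | with_reducible apply IntF.iimage | with_reducible apply IntF.ite | with_reducible apply IntF.the | with_reducible apply IntF.irec | with_reducible apply IntF.succ | with_reducible apply IntF.val | with_reducible apply IntF.mk | (with_reducible refine Int.comp ?_ ?_; assumption) | (with_reducible refine Int.comp₂ ?_ ?_ ?_; assumption) | (with_reducible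 refine Int.comp₃ ?_ ?_ ?_ ?_; assumption) | (with_reducible refine Int.comp₄ ?_ ?_ ?_ ?_ ?_; assumption) | (with_reducible refine IntF.comp ?_ ?_; assumption) | (with_reducible refine IntF.comp₂ ?_ ?_ ?_; assumption) | (with_reducible refine IntF.comp₃ ?_ ?_ ?_ ?_; assumption) | with_reducible apply IntF.pair))
  have hm : ∀ n x, ((n, x) : QC M (INat M)) ∈ sep M (fun c : QC M (INat M) => c ∈ q₀.2.1 ∧
      c ∈ (π • p.2).1) ↔ ((n, x) : QC M (INat M)) ∈ q₀.2.1 ∧
      ((n, g.1.2 x) : QC M (INat M)) ∈ p.2.1 := by
    intro n x
    refine (mem_sep hI).trans (and_congr Iff.rfl ?_)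
    rw [mem_smulq, hrho]
  refine ⟨π, ⟨h1, fun b hb x => ?_⟩, h2, (r, ⟨sep M fun c : QC M (INat M) => c ∈ q₀.2.1 ∧
    c ∈ (π • p.2).1, fun n hn => hinf n (hn.subset fun x hx => ?_), ?_⟩), ⟨h3, ?_⟩, ⟨?_, ?_⟩⟩
  · rw [hB b hb x, ← h2]
    rfl
  · exact mem_rwq.2 ((hm n x).2 ((mem_sep (hI2 n)).1 hx))
  · obtain ⟨m, hm1⟩ := q₀.2.2.2
    obtain ⟨m', hm2⟩ := p.2.2.2
    exact ⟨max m m', fun n hn x => (hm n x).2 ⟨hm1 n ((le_max_left _ _).trans hn) x,
      hm2 n ((le_max_right _ _).trans hn) _⟩⟩
  · rintro ⟨n, x⟩ hc
    exact ((hm n x).1 hc).1
  · exact h4.trans ((SS (ZT M (INat M))).smul_le π hqp.1)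
  · rintro ⟨n, x⟩ hc
    exact ((mem_sep hI).1 hc).2

/-! ### The generic ultrafilters -/

variable {G : Set (PP M (INat M))} (hG : IsGen M G)

variable (G) in
/-- The generic ultrafilters. -/
def Ul (n : INat M) (b : IPow M (INat M)) : Prop :=
  ∃ r : PP M (INat M), r ∈ G ∧ ∀ x, ((n, x) : QC M (INat M)) ∈ r.2.1 → x ∈ b

theorem Ul.mono {n : INat M} {b b' : IPow M (INat M)} (h : Ul G n b) (hb : ∀ x, x ∈ b → x ∈ b') :
    Ul G n b' := by
  obtain ⟨r, h1, h2⟩ := h
  exact ⟨r, h1, fun x hx => hb x (h2 x hx)⟩

include hG in
theorem Ul.inter {n : INat M} {b b' : IPow M (INat M)} (h : Ul G n b) (h' : Ul G n b') :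
    Ul G n (b ∩ b') := by
  obtain ⟨r, h1, h2⟩ := h
  obtain ⟨r', h3, h4⟩ := h'
  obtain ⟨q, hq, h5, h6⟩ := hG.dir r r' h1 h3
  exact ⟨q, hq, fun x hx => mem_inter.2 ⟨h2 x (h5.2 _ hx), h4 x (h6.2 _ hx)⟩⟩

theorem Ul.not_fin {n : INat M} {b : IPow M (INat M)} (h : Ul G n b) : ¬ IFin b := by
  obtain ⟨r, h1, h2⟩ := h
  exact fun hb => r.2.2.1 n (hb.subset fun x hx => h2 x (mem_rwq.1 hx))

include hG in
theorem ul_ultra (n : INat M) (b : IPow M (INat M)) : Ul G n b ∨ Ul G n (iuniv M (INat M) \ b) := by
  obtain ⟨r, hr, h⟩ := hG.dense (fun r : PP M (INat M) =>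
      (∀ x, ((n, x) : QC M (INat M)) ∈ r.2.1 → x ∈ b) ∨
      ∀ x, ((n, x) : QC M (INat M)) ∈ r.2.1 → ¬ x ∈ b) (by (repeat' (first | with_reducible exact IntF.id | with_reducible exact IntF.fst' | with_reducible exact IntF.snd' | with_reducible exact IntF.const _ | with_reducible exact Int.const _ | assumption | with_reducible apply Int.and | with_reducible apply Int.or | with_reducible apply Int.not | with_reducible apply Int.imp | with_reducible apply Int.iff | with_reducible apply Int.ne | with_reducible apply Int.eq | with_reducible apply Int.mem | with_reducible apply Int.subset | with_reducible apply Int.ltN | with_reducible apply Int.leN | with_reducible_and_instances apply Int.le | with_reducible_and_instances apply Int.lt | with_reducible apply Int.all | with_reducible apply Int.ex | with_reducible apply IntF.fst | with_reducible apply IntF.snd | with_reducible apply IntF.app | with_reducible apply IntF.inl | with_reducible apply IntF.inr | with_reducible_and_instances apply IntF.mul | with_reducible_and_instances apply IntF.inv | with_reducible_and_instances apply IntF.add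 | with_reducible_and_instances apply IntF.sub | with_reducible_and_instances apply IntF.neg | with_reducible_and_instances apply IntF.smul | with_reducible apply Int.fin | with_reducible apply IntF.sep | with_reducible apply IntF.lam | with_reducible apply IntF.insert | with_reducible apply IntF.singleton | with_reducible apply IntF.union | with_reducible apply IntF.iimage | with_reducible apply IntF.ite | with_reducible apply IntF.the | with_reducible apply IntF.irec | with_reducible apply IntF.succ | with_reducible apply IntF.val | with_reducible apply IntF.mk | (with_reducible refine Int.comp ?_ ?_; assumption) | (with_reducible refine Int.comp₂ ?_ ?_ ?_; assumption) | (with_reducible refine Int.comp₃ ?_ ?_ ?_ ?_; assumption) | (with_reducible refine Int.comp₄ ?_ ?_ ?_ ?_ ?_; assumption) | (with_reducible refine IntF.comp ?_ ?_; assumption) | (with_reducible refine IntF.comp₂ ?_ ?_ ?_; assumption) | (with_reducible refine IntF.comp₃ ?_ ?_ ?_ ?_; assumption) | with_reducible apply IntF.pair))) fun r => by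
    by_cases h : IFin (rwq r.2.1 n ∩ b)
    · have h' : ¬ IFin (rwq r.2.1 n ∩ (iuniv M (INat M) \ b)) := fun h1 =>
        r.2.2.1 n ((h.union h1).subset fun x hx => by
          by_cases hxb : x ∈ b
          · exact mem_union.2 (Or.inl (mem_inter.2 ⟨hx, hxb⟩))
          · exact mem_union.2 (Or.inr (mem_inter.2 ⟨hx, mem_sdiff.2 ⟨by simp, hxb⟩⟩)))
      obtain ⟨q, h1, h2, -⟩ := exists_shrink r.2 n _ h'
      exact ⟨(r.1, q), ⟨le_rfl, h1⟩, Or.inr fun x hx => (mem_sdiff.1 (h2 x hx)).2⟩
    · obtain ⟨q, h1, h2, -⟩ := exists_shrink r.2 n _ h
      exact ⟨(r.1, q), ⟨le_rfl, h1⟩, Or.inl h2⟩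
  rcases h with h | h
  · exact Or.inl ⟨r, hr, h⟩
  · exact Or.inr ⟨r, hr, fun x hx => mem_sdiff.2 ⟨by simp, h x hx⟩⟩

include hG in
theorem Ul.union {n : INat M} {b b' : IPow M (INat M)} (h : Ul G n (b ∪ b')) :
    Ul G n b ∨ Ul G n b' := by
  rcases ul_ultra hG n b with h1 | h1
  · exact Or.inl h1
  · refine Or.inr ((h.inter hG h1).mono fun x hx => ?_)
    obtain ⟨h2, h3⟩ := mem_inter.1 hx
    rcases mem_union.1 h2 with h2 | h2
    · exact absurd h2 (mem_sdiff.1 h3).2
    · exact h2

include hG in
/-- Different ultrafilters. -/
theorem ul_sep {m n : INat M} (hmn : m ≠ n) : ∃ b, Ul G m b ∧ ¬ Ul G n b := by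
  obtain ⟨r, hr, h⟩ := hG.dense (fun r : PP M (INat M) => ∀ x, ¬ (((m, x) : QC M (INat M)) ∈ r.2.1 ∧
      ((n, x) : QC M (INat M)) ∈ r.2.1)) (by (repeat' (first | with_reducible exact IntF.id | with_reducible exact IntF.fst' | with_reducible exact IntF.snd' | with_reducible exact IntF.const _ | with_reducible exact Int.const _ | assumption | with_reducible apply Int.and | with_reducible apply Int.or | with_reducible apply Int.not | with_reducible apply Int.imp | with_reducible apply Int.iff | with_reducible apply Int.ne | with_reducible apply Int.eq | with_reducible apply Int.mem | with_reducible apply Int.subset | with_reducible apply Int.ltN | with_reducible apply Int.leN | with_reducible_and_instances apply Int.le | with_reducible_and_instances apply Int.lt | with_reducible apply Int.all | with_reducible apply Int.ex | with_reducible apply IntF.fst | with_reducible apply IntF.snd | with_reducible apply IntF.app | with_reducible apply IntF.inl | with_reducible apply IntF.inr | with_reducible_and_instances apply IntF.mul | with_reducible_and_instances apply IntF.inv | with_reducible_and_instances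 apply IntF.add | with_reducible_and_instances apply IntF.sub | with_reducible_and_instances apply IntF.neg | with_reducible_and_instances apply IntF.smul | with_reducible apply Int.fin | with_reducible apply IntF.sep | with_reducible apply IntF.lam | with_reducible apply IntF.insert | with_reducible apply IntF.singleton | with_reducible apply IntF.union | with_reducible apply IntF.iimage | with_reducible apply IntF.ite | with_reducible apply IntF.the | with_reducible apply IntF.irec | with_reducible apply IntF.succ | with_reducible apply IntF.val | with_reducible apply IntF.mk | (with_reducible refine Int.comp ?_ ?_; assumption) | (with_reducible refine Int.comp₂ ?_ ?_ ?_; assumption) | (with_reducible refine Int.comp₃ ?_ ?_ ?_ ?_; assumption) | (with_reducible refine Int.comp₄ ?_ ?_ ?_ ?_ ?_; assumption) | (with_reducible refine IntF.comp ?_ ?_; assumption) | (with_reducible refine IntF.comp₂ ?_ ?_ ?_; assumption) | (with_reducible refine IntF.comp₃ ?_ ?_ ?_ ?_; assumption) | with_reducible apply IntF.pair))) fun r => by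
    obtain ⟨s, h1, h2, h3⟩ := exists_thin (r.2.2.1 m) (r.2.2.1 n)
    obtain ⟨q, h4, h5, h6⟩ := exists_shrink r.2 m s fun h => h2 (h.subset fun x hx =>
      mem_inter.2 ⟨h1 x hx, hx⟩)
    obtain ⟨q', h7, h8, -⟩ := exists_shrink q n (iuniv M (INat M) \ s) fun h =>
      h3 (h.subset fun x hx => by
        obtain ⟨h9, h10⟩ := mem_sdiff.1 hx
        exact mem_inter.2 ⟨mem_rwq.2 (h6 n hmn.symm x (mem_rwq.1 h9)), mem_sdiff.2 ⟨by simp, h10⟩⟩)
    exact ⟨(r.1, q'), ⟨le_rfl, h7.trans h4⟩, fun x hx =>
      (mem_sdiff.1 (h8 x hx.2)).2 (h5 x (h7 _ hx.1))⟩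
  refine ⟨rwq r.2.1 m, ⟨r, hr, fun x hx => mem_rwq.2 hx⟩, fun ⟨r', h1, h2⟩ => ?_⟩
  obtain ⟨q, hq, h3, h4⟩ := hG.dir r r' hr h1
  refine q.2.2.1 n (IFin.empty.subset fun x hx => ?_)
  have hx' := mem_rwq.1 hx
  exact absurd ⟨mem_rwq.1 (h2 x (h4.2 _ hx')), h3.2 _ hx'⟩ (h x)

include hG in
/-- Infinite sets belong to some of the ultrafilters. -/
theorem ul_dense {b : IPow M (INat M)} (hb : ¬ IFin b) : ∃ n, Ul G n b := by
  obtain ⟨r, hr, n, h⟩ := hG.dense (fun r : PP M (INat M) => ∃ n, ∀ x,
      ((n, x) : QC M (INat M)) ∈ r.2.1 → x ∈ b) (by (repeat' (first | with_reducible exact IntF.id | with_reducible exact IntF.fst' | with_reducible exact IntF.snd' | with_reducible exact IntF.const _ | with_reducible exact Int.const _ | assumption | with_reducible apply Int.and | with_reducible apply Int.or | with_reducible apply Int.not | with_reducible apply Int.imp | with_reducible apply Int.iff | with_reducible apply Int.ne | with_reducible apply Int.eq | with_reducible apply Int.mem | with_reducible apply Int.subset | with_reducible apply Int.ltN | with_reducible apply Int.leN | with_reducible_and_instances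 apply Int.le | with_reducible_and_instances apply Int.lt | with_reducible apply Int.all | with_reducible apply Int.ex | with_reducible apply IntF.fst | with_reducible apply IntF.snd | with_reducible apply IntF.app | with_reducible apply IntF.inl | with_reducible apply IntF.inr | with_reducible_and_instances apply IntF.mul | with_reducible_and_instances apply IntF.inv | with_reducible_and_instances apply IntF.add | with_reducible_and_instances apply IntF.sub | with_reducible_and_instances apply IntF.neg | with_reducible_and_instances apply IntF.smul | with_reducible apply Int.fin | with_reducible apply IntF.sep | with_reducible apply IntF.lam | with_reducible apply IntF.insert | with_reducible apply IntF.singleton | with_reducible apply IntF.union | with_reducible apply IntF.iimage | with_reducible apply IntF.ite | with_reducible apply IntF.the | with_reducible apply IntF.irec | with_reducible apply IntF.succ | with_reducible apply IntF.val | with_reducible apply IntF.mk | (with_reducible refine Int.comp ?_ ?_; assumption) | (with_reducible refine Int.comp₂ ?_ ?_ ?_; assumption)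 | (with_reducible refine Int.comp₃ ?_ ?_ ?_ ?_; assumption) | (with_reducible refine Int.comp₄ ?_ ?_ ?_ ?_ ?_; assumption) | (with_reducible refine IntF.comp ?_ ?_; assumption) | (with_reducible refine IntF.comp₂ ?_ ?_ ?_; assumption) | (with_reducible refine IntF.comp₃ ?_ ?_ ?_ ?_; assumption) | with_reducible apply IntF.pair))) fun r => by
    obtain ⟨n, hn⟩ := r.2.2.2
    obtain ⟨q, h1, h2, -⟩ := exists_shrink r.2 n b fun h => hb (h.subset fun x hx =>
      mem_inter.2 ⟨mem_rwq.2 (hn n le_rfl x), hx⟩)
    exact ⟨(r.1, q), ⟨le_rfl, h1⟩, n, h2⟩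
  exact ⟨n, r, hr, h⟩

/-! ### Homogeneity -/

theorem hom1 (z : NN (SQ (ZT M (INat M))) hG) : ∃ l : LQ M (INat M), ∀ x y, ¬ x ∈ l.1.1 →
    ¬ y ∈ l.1.1 → (∀ b, b ∈ l.2.1 → (x ∈ b ↔ y ∈ b)) → Mem (ca (ZT M (INat M)) hG x) z →
      Mem (ca (ZT M (INat M)) hG y) z := by
  obtain ⟨l, hl⟩ := support (S := SQ (ZT M (INat M))) z
  refine ⟨l, fun x y hx hy hb h => ?_⟩
  obtain ⟨p, hp, h1⟩ := hl _ _ _ _ (ef_ca hG) x h
  refine h1 p le_rfl hp y fun q₀ hq₀ hq₀p => ?_
  obtain ⟨g, g1, g2, g3, g4, g5, g6⟩ := exists_swap (M := M) x y
  have hfix : ∀ z, z ∈ l.1.1 → g.1.1 z = z := fun z hz => g5 z (fun h => hx (h ▸ hz))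
    (fun h => hy (h ▸ hz))
  have hI2 : ∀ n, Int M (fun x => ((n, x) : QC M (INat M)) ∈ q₀.2.1 ∧
      ((n, g.1.2 x) : QC M (INat M)) ∈ p.2.1) := by
    intro n
    have hg := g.1.2.int
    (repeat' (first | with_reducible exact IntF.id | with_reducible exact IntF.fst' | with_reducible exact IntF.snd' | with_reducible exact IntF.const _ | with_reducible exact Int.const _ | assumption | with_reducible apply Int.and | with_reducible apply Int.or | with_reducible apply Int.not | with_reducible apply Int.imp | with_reducible apply Int.iff | with_reducible apply Int.ne | with_reducible apply Int.eq | with_reducible apply Int.mem | with_reducible apply Int.subset | with_reducible apply Int.ltN | with_reducible apply Int.leN | with_reducible_and_instances apply Int.le | with_reducible_and_instances apply Int.lt | with_reducible apply Int.all | with_reducible apply Int.ex | with_reducible apply IntF.fst | with_reducible apply IntF.snd | with_reducible apply IntF.app | with_reducible apply IntF.inl | with_reducible apply IntF.inr | with_reducible_and_instances apply IntF.mul | with_reducible_and_instances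 apply IntF.inv | with_reducible_and_instances apply IntF.add | with_reducible_and_instances apply IntF.sub | with_reducible_and_instances apply IntF.neg | with_reducible_and_instances apply IntF.smul | with_reducible apply Int.fin | with_reducible apply IntF.sep | with_reducible apply IntF.lam | with_reducible apply IntF.insert | with_reducible apply IntF.singleton | with_reducible apply IntF.union | with_reducible apply IntF.iimage | with_reducible apply IntF.ite | with_reducible apply IntF.the | with_reducible apply IntF.irec | with_reducible apply IntF.succ | with_reducible apply IntF.val | with_reducible apply IntF.mk | (with_reducible refine Int.comp ?_ ?_; assumption) | (with_reducible refine Int.comp₂ ?_ ?_ ?_; assumption) | (with_reducible refine Int.comp₃ ?_ ?_ ?_ ?_; assumption) | (with_reducible refine Int.comp₄ ?_ ?_ ?_ ?_ ?_; assumption) | (with_reducible refine IntF.comp ?_ ?_; assumption) | (with_reducible refine IntF.comp₂ ?_ ?_ ?_; assumption) | (with_reducible refine IntF.comp₃ ?_ ?_ ?_ ?_; assumption) | with_reducible apply IntF.pair))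
  have key := exists_mv2 hq₀p l g hfix (fun b hb' z => ?_) fun n hn => ?_
  · obtain ⟨π, h2, h3, r, h4, h5⟩ := key
    refine ⟨π, h2, ?_, r, h4, h5⟩
    change π.1.1.1.1 x = y
    rw [h3, g1]
  · by_cases hzx : z = x
    · rw [hzx, g1]
      exact hb b hb'
    by_cases hzy : z = y
    · rw [hzy, g2]
      exact (hb b hb').symm
    · rw [g5 z hzx hzy]
  · refine q₀.2.2.1 n ((hn.union ((IFin.singleton x).union (IFin.singleton y))).subset
      fun z hz => ?_)
    by_cases hzx : z = x
    · exact mem_union.2 (Or.inr (mem_union.2 (Or.inl (mem_singleton.2 hzx))))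
    by_cases hzy : z = y
    · exact mem_union.2 (Or.inr (mem_union.2 (Or.inr (mem_singleton.2 hzy))))
    · refine mem_union.2 (Or.inl ((mem_sep (hI2 n)).2 ⟨mem_rwq.1 hz, ?_⟩))
      rw [g6 z hzx hzy]
      exact hq₀p.2 _ (mem_rwq.1 hz)

theorem hom2 (z : NN (SQ (ZT M (INat M))) hG) : ∃ l : LQ M (INat M), ∀ b n,
    Mem (op (db (ZT M (INat M)) hG b) (nn _ hG n)) z → ∃ m : INat M, ∀ H₁ H₂ : IPow M (INat M),
      (∀ x, x ∈ H₁ → x ∈ b) → (∀ x, x ∈ H₂ → ¬ x ∈ b) →
      (∀ x, x ∈ H₁ ∨ x ∈ H₂ → ¬ x ∈ l.1.1) →
      (∀ d, d ∈ l.2.1 → ∀ x y, x ∈ H₁ ∨ x ∈ H₂ → y ∈ H₁ ∨ y ∈ H₂ → x ∈ d → y ∈ d) →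
      ¬ IFin H₁ → (∀ k, k < m → ¬ Ul G k H₁) → (∀ k, k < m → ¬ Ul G k H₂) →
      ∃ H : IPow M (INat M), (∀ x, x ∈ H → x ∈ H₁) ∧
        Mem (op (db (ZT M (INat M)) hG ((b \ H) ∪ H₂)) (nn _ hG n)) z := by
  obtain ⟨l, hl⟩ := support (S := SQ (ZT M (INat M))) z
  have hf : EqFam hG (fun (π : Gm (ZT M (INat M))) (q : IPow M (INat M) × INat M) =>
      (mb π q.1, q.2)) (fun q => op (db (ZT M (INat M)) hG q.1) (nn _ hG q.2)) := by
    refine EqFam.op (fun π b => Prod.ext (mb_inv_mb π _) rfl) ?_ ?_
    · exact EqFam.comp (ef_db hG) (φ := fun q : IPow M (INat M) × INat M => q.1) (by (repeat' (first | with_reducible exact IntF.id | with_reducible exact IntF.fst' | with_reducible exact IntF.snd' | with_reducible exact IntF.const _ | with_reducible exact Int.const _ | assumption | with_reducible apply Int.and | with_reducible apply Int.or | with_reducible apply Int.not | with_reducible apply Int.imp | with_reducible apply Int.iff | with_reducible apply Int.ne | with_reducible apply Int.eq | with_reducible apply Int.mem | with_reducible apply Int.subset | with_reducible apply Int.ltN |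 with_reducible apply Int.leN | with_reducible_and_instances apply Int.le | with_reducible_and_instances apply Int.lt | with_reducible apply Int.all | with_reducible apply Int.ex | with_reducible apply IntF.fst | with_reducible apply IntF.snd | with_reducible apply IntF.app | with_reducible apply IntF.inl | with_reducible apply IntF.inr | with_reducible_and_instances apply IntF.mul | with_reducible_and_instances apply IntF.inv | with_reducible_and_instances apply IntF.add | with_reducible_and_instances apply IntF.sub | with_reducible_and_instances apply IntF.neg | with_reducible_and_instances apply IntF.smul | with_reducible apply Int.fin | with_reducible apply IntF.sep | with_reducible apply IntF.lam | with_reducible apply IntF.insert | with_reducible apply IntF.singleton | with_reducible apply IntF.union | with_reducible apply IntF.iimage | with_reducible apply IntF.ite | with_reducible apply IntF.the | with_reducible apply IntF.irec | with_reducible apply IntF.succ | with_reducible apply IntF.val | with_reducible apply IntF.mk | (with_reducible refine Int.comp ?_ ?_; assumption)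 | (with_reducible refine Int.comp₂ ?_ ?_ ?_; assumption) | (with_reducible refine Int.comp₃ ?_ ?_ ?_ ?_; assumption) | (with_reducible refine Int.comp₄ ?_ ?_ ?_ ?_ ?_; assumption) | (with_reducible refine IntF.comp ?_ ?_; assumption) | (with_reducible refine IntF.comp₂ ?_ ?_ ?_; assumption) | (with_reducible refine IntF.comp₃ ?_ ?_ ?_ ?_; assumption) | with_reducible apply IntF.pair)))
        fun _ _ => rfl
    · exact EqFam.comp (ef_nn hG) (φ := fun q : IPow M (INat M) × INat M => q.2) (by (repeat' (first | with_reducible exact IntF.id | with_reducible exact IntF.fst' | with_reducible exact IntF.snd' | with_reducible exact IntF.const _ | with_reducible exact Int.const _ | assumption | with_reducible apply Int.and | with_reducible apply Int.or | with_reducible apply Int.not | with_reducible apply Int.imp | with_reducible apply Int.iff | with_reducible apply Int.ne | with_reducible apply Int.eq | with_reducible apply Int.mem | with_reducible apply Int.subset | with_reducible apply Int.ltN | with_reducible apply Int.leN | with_reducible_and_instances apply Int.le | with_reducible_and_instances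 apply Int.lt | with_reducible apply Int.all | with_reducible apply Int.ex | with_reducible apply IntF.fst | with_reducible apply IntF.snd | with_reducible apply IntF.app | with_reducible apply IntF.inl | with_reducible apply IntF.inr | with_reducible_and_instances apply IntF.mul | with_reducible_and_instances apply IntF.inv | with_reducible_and_instances apply IntF.add | with_reducible_and_instances apply IntF.sub | with_reducible_and_instances apply IntF.neg | with_reducible_and_instances apply IntF.smul | with_reducible apply Int.fin | with_reducible apply IntF.sep | with_reducible apply IntF.lam | with_reducible apply IntF.insert | with_reducible apply IntF.singleton | with_reducible apply IntF.union | with_reducible apply IntF.iimage | with_reducible apply IntF.ite | with_reducible apply IntF.the | with_reducible apply IntF.irec | with_reducible apply IntF.succ | with_reducible apply IntF.val | with_reducible apply IntF.mk | (with_reducible refine Int.comp ?_ ?_; assumption) | (with_reducible refine Int.comp₂ ?_ ?_ ?_; assumption) | (with_reducible refine Int.comp₃ ?_ ?_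 ?_ ?_; assumption) | (with_reducible refine Int.comp₄ ?_ ?_ ?_ ?_ ?_; assumption) | (with_reducible refine IntF.comp ?_ ?_; assumption) | (with_reducible refine IntF.comp₂ ?_ ?_ ?_; assumption) | (with_reducible refine IntF.comp₃ ?_ ?_ ?_ ?_; assumption) | with_reducible apply IntF.pair)))
        fun _ _ => rfl
  refine ⟨l, fun b n h => ?_⟩
  obtain ⟨p, hp, h1⟩ := hl _ _ _ _ hf (b, n) h
  obtain ⟨m, hm⟩ := p.2.2.2
  refine ⟨m, fun H₁ H₂ hH₁ hH₂ hHE hHB hinf hU₁ hU₂ => ?_⟩
  obtain ⟨e, he, he1, he2⟩ := exists_inj hinf
  obtain ⟨g, g1, g2, g3, g4⟩ := exists_invol H₂ (e₁ := fun x : INat M => x) (e₂ := e)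
    IntF.id he (fun a b _ _ h => h) (fun a b _ _ h => he2 _ _ h) fun a c ha hc h2 => by
      have h3 := hH₁ _ (he1 c)
      rw [← h2] at h3
      exact hH₂ a ha h3
  have hgx : ∀ x, ¬ x ∈ H₁ → ¬ x ∈ H₂ → g.1.1 x = x := fun x hx hx' => g3 x fun a ha =>
    ⟨fun h2 => hx' (h2 ▸ ha), fun h2 => hx (h2 ▸ he1 a)⟩
  have hgH : ∀ x, x ∈ H₁ ∨ x ∈ H₂ → g.1.1 x ∈ H₁ ∨ g.1.1 x ∈ H₂ := by
    intro x hx
    by_cases hx2 : x ∈ H₂
    · rw [g1 x hx2]
      exact Or.inl (he1 _)
    by_cases hx3 : ∃ a, a ∈ H₂ ∧ e a = x
    · obtain ⟨a, ha, rfl⟩ := hx3
      rw [g2 a ha]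
      exact Or.inr ha
    · rw [g3 x fun a ha => ⟨fun h2 => hx2 (h2 ▸ ha), fun h2 => hx3 ⟨a, ha, h2⟩⟩]
      exact hx
  have hHm : ∀ x, x ∈ iimage e H₂ ↔ ∃ a, a ∈ H₂ ∧ e a = x := fun x => mem_iimage he
  refine ⟨iimage e H₂, fun x hx => ?_, ?_⟩
  · obtain ⟨a, -, rfl⟩ := (hHm x).1 hx
    exact he1 a
  refine h1 p le_rfl hp (_, n) fun q₀ hq₀ hq₀p => ?_
  have hI2 : ∀ n, Int M (fun x => ((n, x) : QC M (INat M)) ∈ q₀.2.1 ∧
      ((n, g.1.2 x) : QC M (INat M)) ∈ p.2.1) := by
    intro n
    have hg := g.1.2.int
    (repeat' (first | with_reducible exact IntF.id | with_reducible exact IntF.fst' | with_reducible exact IntF.snd' | with_reducible exact IntF.const _ | with_reducible exact Int.const _ | assumption | with_reducible apply Int.and | with_reducible apply Int.or | with_reducible apply Int.not | with_reducible apply Int.imp | with_reducible apply Int.iff | with_reducible apply Int.ne | with_reducible apply Int.eq | with_reducible apply Int.mem | with_reducible apply Int.subset | with_reducible apply Int.ltN | with_reducible apply Int.leN | with_reducible_and_instances apply Int.le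 | with_reducible_and_instances apply Int.lt | with_reducible apply Int.all | with_reducible apply Int.ex | with_reducible apply IntF.fst | with_reducible apply IntF.snd | with_reducible apply IntF.app | with_reducible apply IntF.inl | with_reducible apply IntF.inr | with_reducible_and_instances apply IntF.mul | with_reducible_and_instances apply IntF.inv | with_reducible_and_instances apply IntF.add | with_reducible_and_instances apply IntF.sub | with_reducible_and_instances apply IntF.neg | with_reducible_and_instances apply IntF.smul | with_reducible apply Int.fin | with_reducible apply IntF.sep | with_reducible apply IntF.lam | with_reducible apply IntF.insert | with_reducible apply IntF.singleton | with_reducible apply IntF.union | with_reducible apply IntF.iimage | with_reducible apply IntF.ite | with_reducible apply IntF.the | with_reducible apply IntF.irec | with_reducible apply IntF.succ | with_reducible apply IntF.val | with_reducible apply IntF.mk | (with_reducible refine Int.comp ?_ ?_; assumption) | (with_reducible refine Int.comp₂ ?_ ?_ ?_; assumption) | (with_reducible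 refine Int.comp₃ ?_ ?_ ?_ ?_; assumption) | (with_reducible refine Int.comp₄ ?_ ?_ ?_ ?_ ?_; assumption) | (with_reducible refine IntF.comp ?_ ?_; assumption) | (with_reducible refine IntF.comp₂ ?_ ?_ ?_; assumption) | (with_reducible refine IntF.comp₃ ?_ ?_ ?_ ?_; assumption) | with_reducible apply IntF.pair))
  have key := exists_mv2 hq₀p l g (fun x hx => ?_) (fun d hd x => ?_) fun k hk => ?_
  · obtain ⟨π, h2, h3, r, h4, h5⟩ := key
    refine ⟨π, h2, Prod.ext (IPow.ext' fun x => ?_) rfl, r, h4, h5⟩
    rw [mem_mb, show rhoi π x = g.1.2 x by rw [← h3]; rfl, g4, mem_union, mem_sdiff, hHm]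
    by_cases hx2 : x ∈ H₂
    · rw [g1 x hx2]
      exact iff_of_true (hH₁ _ (he1 x)) (Or.inr hx2)
    by_cases hx3 : ∃ a, a ∈ H₂ ∧ e a = x
    · obtain ⟨a, ha, h6⟩ := hx3
      rw [← h6, g2 a ha]
      refine iff_of_false (hH₂ a ha) ?_
      rintro (⟨-, h7⟩ | h7)
      · exact h7 ⟨a, ha, rfl⟩
      · exact hH₂ _ h7 (hH₁ _ (he1 a))
    · rw [g3 x fun a ha => ⟨fun h2 => hx2 (h2 ▸ ha), fun h2 => hx3 ⟨a, ha, h2⟩⟩]
      exact ⟨fun h6 => Or.inl ⟨h6, hx3⟩, fun h6 => h6.elim (fun h7 => h7.1) fun h7 => absurd h7 hx2⟩
  · refine hgx x (fun h6 => hHE x (Or.inl h6) hx) fun h6 => hHE x (Or.inr h6) hx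
  · by_cases hx : x ∈ H₁ ∨ x ∈ H₂
    · have h6 := hgH x hx
      exact ⟨fun h7 => hHB d hd x _ hx h6 h7, fun h7 => hHB d hd _ x h6 hx h7⟩
    · rw [hgx x (fun h6 => hx (Or.inl h6)) fun h6 => hx (Or.inr h6)]
  · by_cases hkm : m ≤ k
    · exact q₀.2.2.1 k (hk.subset fun x hx => (mem_sep (hI2 k)).2 ⟨mem_rwq.1 hx, hm k hkm _⟩)
    · have hkm := not_le.1 hkm
      have hU : Ul G k ((sep M fun x => ((k, x) : QC M (INat M)) ∈ q₀.2.1 ∧
          ((k, g.1.2 x) : QC M (INat M)) ∈ p.2.1) ∪ (H₁ ∪ H₂)) := by
        refine ⟨q₀, hq₀, fun x hx => ?_⟩
        by_cases hx1 : x ∈ H₁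
        · exact mem_union.2 (Or.inr (mem_union.2 (Or.inl hx1)))
        by_cases hx2 : x ∈ H₂
        · exact mem_union.2 (Or.inr (mem_union.2 (Or.inr hx2)))
        · refine mem_union.2 (Or.inl ((mem_sep (hI2 k)).2 ⟨hx, ?_⟩))
          rw [g4, hgx x hx1 hx2]
          exact hq₀p.2 _ hx
      rcases hU.union hG with h6 | h6
      · exact h6.not_fin hk
      · rcases h6.union hG with h6 | h6
        · exact hU₁ k hkm h6
        · exact hU₂ k hkm h6

end gen

end Pool.Agent.Helper672.ZFA.Q301SF
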