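import Pool.Agent.Q301.UF.UD

/-!
# Generic ultrafilters on a set of indiscernibles: ideals and sequences of sets
-/

set_option maxHeartbeats 1000000
set_option linter.all false
set_option synthInstance.maxSize 2000

namespace Pool.Agent.Helper672.ZFA.Q301SF

open FirstOrder FirstOrder.Language
open Pool.Agent.H310 (FinP finP_iff finP_le finP_lt not_finP_nat finP_of_bound)

universe u u₁

section

variable {N : Type u} [L.Structure N] [hN : IsModel N] {δ : Type u₁} [ITy N δ]
  {C : INat N × IPow N δ → Prop} (hC : UD N C)

include hC

theorem UD.not_disj {n : INat N} {A B : IPow N δ} (h : C (n, A)) (h' : C (n, B)) :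
    ∃ x, x ∈ A ∧ x ∈ B := by
  by_contra hc
  refine hC.npr n _ (hC.inter n A B h h') (IFin.empty.subset fun x hx => ?_)
  exact absurd ⟨x, (mem_inter.1 hx).1, (mem_inter.1 hx).2⟩ hc

theorem UD.univ (n : INat N) : C (n, iuniv N δ) := by
  rcases hC.ultra n (iuniv N δ) with h | h
  · exact h
  · exact hC.mono n _ _ h fun x _ => by simp

theorem UD.prime {n : INat N} {A B : IPow N δ} (h : C (n, A ∪ B)) : C (n, A) ∨ C (n, B) := by
  rcases hC.ultra n A with h1 | h1
  · exact Or.inl h1
  · refine Or.inr (hC.mono n _ _ (hC.inter n _ _ h h1) fun x hx => ?_)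
    obtain ⟨h2, h3⟩ := mem_inter.1 hx
    rcases mem_union.1 h2 with h2 | h2
    · exact absurd h2 (mem_sdiff.1 h3).2
    · exact h2

theorem UD.thin (m : INat N) : ∀ A : IPow N δ, ¬ IFin A → ∃ B : IPow N δ, (∀ x, x ∈ B → x ∈ A) ∧
    ¬ IFin B ∧ ∀ k, k < m → ¬ C (k, B) := by
  have hCI := hC.int
  refine INat.ind (p := fun m => ∀ A : IPow N δ, ¬ IFin A → ∃ B : IPow N δ, (∀ x, x ∈ B → x ∈ A) ∧
    ¬ IFin B ∧ ∀ k, k < m → ¬ C (k, B)) (by (repeat' (first | with_reducible exact IntF.id | with_reducible exact IntF.fst' | with_reducible exact IntF.snd' | with_reducible exact IntF.const _ | with_reducible exact Int.const _ | assumption | with_reducible apply Int.and | with_reducible apply Int.or | with_reducible apply Int.not | with_reducible apply Int.imp | with_reducible apply Int.iff | with_reducible apply Int.ne | with_reducible apply Int.eq | with_reducible apply Int.mem | with_reducible apply Int.subset | with_reducible apply Int.ltN | with_reducible apply Int.leN | with_reducible_and_instances apply Int.le | with_reducible_and_instances apply Int.lt | with_reducible apply Int.all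 | with_reducible apply Int.ex | with_reducible apply IntF.fst | with_reducible apply IntF.snd | with_reducible apply IntF.app | with_reducible apply IntF.inl | with_reducible apply IntF.inr | with_reducible_and_instances apply IntF.mul | with_reducible_and_instances apply IntF.inv | with_reducible_and_instances apply IntF.add | with_reducible_and_instances apply IntF.sub | with_reducible_and_instances apply IntF.neg | with_reducible_and_instances apply IntF.smul | with_reducible apply Int.fin | with_reducible apply IntF.sep | with_reducible apply IntF.lam | with_reducible apply IntF.insert | with_reducible apply IntF.singleton | with_reducible apply IntF.union | with_reducible apply IntF.iimage | with_reducible apply IntF.ite | with_reducible apply IntF.the | with_reducible apply IntF.irec | with_reducible apply IntF.succ | with_reducible apply IntF.val | with_reducible apply IntF.mk | (with_reducible refine Int.comp ?_ ?_; assumption) | (with_reducible refine Int.comp₂ ?_ ?_ ?_; assumption) | (with_reducible refine Int.comp₃ ?_ ?_ ?_ ?_; assumption) | (with_reducible refine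 Int.comp₄ ?_ ?_ ?_ ?_ ?_; assumption) | (with_reducible refine IntF.comp ?_ ?_; assumption) | (with_reducible refine IntF.comp₂ ?_ ?_ ?_; assumption) | (with_reducible refine IntF.comp₃ ?_ ?_ ?_ ?_; assumption) | with_reducible apply IntF.pair))) ?_ ?_ m
  · intro A hA
    exact ⟨A, fun _ h => h, hA, fun k hk => absurd hk INat.not_lt_zero⟩
  · intro m ih A hA
    obtain ⟨B, h1, h2, h3⟩ := ih A hA
    obtain ⟨B', h4, h5, h6⟩ := hC.half B h2
    have step : ∀ B'' : IPow N δ, (∀ x, x ∈ B'' → x ∈ B) → ¬ C (m, B'') → ∀ k, k < m.succ →
        ¬ C (k, B'') := by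
      intro B'' h7 h8 k hk h9
      rcases INat.lt_succ_iff'.1 hk with hk | rfl
      · exact h3 k hk (hC.mono k _ _ h9 h7)
      · exact h8 h9
    by_cases h7 : C (m, B')
    · refine ⟨B \ B', fun x hx => h1 x (mem_sdiff.1 hx).1, h6,
        step _ (fun x hx => (mem_sdiff.1 hx).1) fun h8 => ?_⟩
      obtain ⟨x, hx, hx'⟩ := hC.not_disj h7 h8
      exact (mem_sdiff.1 hx').2 hx
    · exact ⟨B', fun x hx => h1 x (h4 x hx), h5, step _ h4 h7⟩

/-- Ideals that meet all the ultrafilters. -/
theorem UD.ideal {I : IPow N δ → Prop} (hI : Int N I)
    (hmono : ∀ A B, I B → (∀ x, x ∈ A → x ∈ B) → I A) (hun : ∀ A B, I A → I B → I (A ∪ B))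
    (hfin : ∀ A, IFin A → I A) (hmeet : ∀ n, ∃ A, C (n, A) ∧ I A) : I (iuniv N δ) := by
  have hCI := hC.int
  have hmany : ∀ m : INat N, ∃ v, I v ∧ ∀ k, k < m → C (k, v) := by
    refine INat.ind (p := fun m : INat N => ∃ v, I v ∧ ∀ k, k < m → C (k, v)) (by (repeat' (first | with_reducible exact IntF.id | with_reducible exact IntF.fst' | with_reducible exact IntF.snd' | with_reducible exact IntF.const _ | with_reducible exact Int.const _ | assumption | with_reducible apply Int.and | with_reducible apply Int.or | with_reducible apply Int.not | with_reducible apply Int.imp | with_reducible apply Int.iff | with_reducible apply Int.ne | with_reducible apply Int.eq | with_reducible apply Int.mem | with_reducible apply Int.subset | with_reducible apply Int.ltN | with_reducible apply Int.leN | with_reducible_and_instances apply Int.le | with_reducible_and_instances apply Int.lt | with_reducible apply Int.all | with_reducible apply Int.ex | with_reducible apply IntF.fst | with_reducible apply IntF.snd | with_reducible apply IntF.app | with_reducible apply IntF.inl | with_reducible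 apply IntF.inr | with_reducible_and_instances apply IntF.mul | with_reducible_and_instances apply IntF.inv | with_reducible_and_instances apply IntF.add | with_reducible_and_instances apply IntF.sub | with_reducible_and_instances apply IntF.neg | with_reducible_and_instances apply IntF.smul | with_reducible apply Int.fin | with_reducible apply IntF.sep | with_reducible apply IntF.lam | with_reducible apply IntF.insert | with_reducible apply IntF.singleton | with_reducible apply IntF.union | with_reducible apply IntF.iimage | with_reducible apply IntF.ite | with_reducible apply IntF.the | with_reducible apply IntF.irec | with_reducible apply IntF.succ | with_reducible apply IntF.val | with_reducible apply IntF.mk | (with_reducible refine Int.comp ?_ ?_; assumption) | (with_reducible refine Int.comp₂ ?_ ?_ ?_; assumption) | (with_reducible refine Int.comp₃ ?_ ?_ ?_ ?_; assumption) | (with_reducible refine Int.comp₄ ?_ ?_ ?_ ?_ ?_; assumption) | (with_reducible refine IntF.comp ?_ ?_; assumption) | (with_reducible refine IntF.comp₂ ?_ ?_ ?_; assumption) | (with_reducible refine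 IntF.comp₃ ?_ ?_ ?_ ?_; assumption) | with_reducible apply IntF.pair))) ?_ ?_
    · exact ⟨∅, hfin _ IFin.empty, fun k hk => absurd hk INat.not_lt_zero⟩
    · rintro m ⟨v, h1, h2⟩
      obtain ⟨v', h3, h4⟩ := hmeet m
      refine ⟨v ∪ v', hun _ _ h1 h4, fun k hk => ?_⟩
      rcases INat.lt_succ_iff'.1 hk with hk | rfl
      · exact hC.mono k _ _ (h2 k hk) fun x hx => mem_union.2 (Or.inl hx)
      · exact hC.mono k _ _ h3 fun x hx => mem_union.2 (Or.inr hx)
  obtain ⟨F, hF, hJ⟩ := hC.hom (fun q => I q.1) (by (repeat' (first | with_reducible exact IntF.id | with_reducible exact IntF.fst' | with_reducible exact IntF.snd' | with_reducible exact IntF.const _ | with_reducible exact Int.const _ | assumption | with_reducible apply Int.and | with_reducible apply Int.or | with_reducible apply Int.not | with_reducible apply Int.imp | with_reducible apply Int.iff | with_reducible apply Int.ne | with_reducible apply Int.eq | with_reducible apply Int.mem | with_reducible apply Int.subset | with_reducible apply Int.ltN | with_reducible apply Int.leN | with_reducible_and_instances apply Int.le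 | with_reducible_and_instances apply Int.lt | with_reducible apply Int.all | with_reducible apply Int.ex | with_reducible apply IntF.fst | with_reducible apply IntF.snd | with_reducible apply IntF.app | with_reducible apply IntF.inl | with_reducible apply IntF.inr | with_reducible_and_instances apply IntF.mul | with_reducible_and_instances apply IntF.inv | with_reducible_and_instances apply IntF.add | with_reducible_and_instances apply IntF.sub | with_reducible_and_instances apply IntF.neg | with_reducible_and_instances apply IntF.smul | with_reducible apply Int.fin | with_reducible apply IntF.sep | with_reducible apply IntF.lam | with_reducible apply IntF.insert | with_reducible apply IntF.singleton | with_reducible apply IntF.union | with_reducible apply IntF.iimage | with_reducible apply IntF.ite | with_reducible apply IntF.the | with_reducible apply IntF.irec | with_reducible apply IntF.succ | with_reducible apply IntF.val | with_reducible apply IntF.mk | (with_reducible refine Int.comp ?_ ?_; assumption) | (with_reducible refine Int.comp₂ ?_ ?_ ?_; assumption) | (with_reducible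 refine Int.comp₃ ?_ ?_ ?_ ?_; assumption) | (with_reducible refine Int.comp₄ ?_ ?_ ?_ ?_ ?_; assumption) | (with_reducible refine IntF.comp ?_ ?_; assumption) | (with_reducible refine IntF.comp₂ ?_ ?_ ?_; assumption) | (with_reducible refine IntF.comp₃ ?_ ?_ ?_ ?_; assumption) | with_reducible apply IntF.pair)))
  refine atom_ind (K := fun _ => True) (S := I) (Int.const _) hI (fun _ _ _ _ => trivial)
    (fun _ _ _ _ => trivial) (fun A D _ _ h1 h2 => ?_) hF (fun _ _ => trivial) _ trivial
    fun A _ _ hat => ?_
  · refine hmono _ _ (hun _ _ h1 h2) fun x hx => ?_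
    by_cases hxD : x ∈ D
    · exact mem_union.2 (Or.inl (mem_inter.2 ⟨hx, hxD⟩))
    · exact mem_union.2 (Or.inr (mem_sdiff.2 ⟨hx, hxD⟩))
  by_contra hc
  obtain ⟨n, hn⟩ := hC.dense A fun h => hc (hfin A h)
  obtain ⟨B, h1, h2⟩ := hmeet n
  have h3 := hC.inter n _ _ hn h1
  have hb : I (A ∩ B) := hmono _ _ h2 fun x hx => (mem_inter.1 hx).2
  obtain ⟨m, hm⟩ := hJ (A ∩ B) 0 hb
  obtain ⟨v, h4, h5⟩ := hmany m
  obtain ⟨b', h6, h7, h8⟩ := hC.thin m (A ∩ B) (hC.npr n _ h3)
  have hA' : ∀ x, x ∈ b' ∨ x ∈ A \ ((A ∩ B) ∪ v) → x ∈ A := by
    rintro x (hx | hx)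
    · exact (mem_inter.1 (h6 x hx)).1
    · exact (mem_sdiff.1 hx).1
  obtain ⟨H, h9, h10⟩ := hm b' (A \ ((A ∩ B) ∪ v)) h6
    (fun x hx hx' => (mem_sdiff.1 hx).2 (mem_union.2 (Or.inl hx')))
    (fun D hD x y hx hy hxD => hat D hD x y (hA' x hx) (hA' y hy) hxD) h7 h8 fun k hk h => by
      obtain ⟨x, hx, hx'⟩ := hC.not_disj h (h5 k hk)
      exact (mem_sdiff.1 hx).2 (mem_union.2 (Or.inr hx'))
  refine hc (hmono _ _ (hun _ _ (hun _ _ hb h4) h10) fun x hx => ?_)
  by_cases h11 : x ∈ (A ∩ B) ∪ v
  · exact mem_union.2 (Or.inl h11)
  · exact mem_union.2 (Or.inr (mem_union.2 (Or.inr (mem_sdiff.2 ⟨hx, h11⟩))))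

/-- Sequences of sets modulo finite sets. -/
theorem UD.pigeon {W : IPow N δ × INat N → Prop} (hW : Int N W) (hex : ∀ n, ∃ A, W (A, n))
    (hfin : ∀ n A B, W (A, n) → W (B, n) → IFin (A \ B)) :
    ∃ n n' A B, n ≠ n' ∧ W (A, n) ∧ W (B, n') ∧ IFin (A \ B) := by
  have hCI := hC.int
  have hcap : IntF N (fun q : IPow N δ × IPow N δ => q.1 ∩ q.2) := IntF.inter IntF.fst' IntF.snd'
  have hsd : IntF N (fun q : IPow N δ × IPow N δ => q.1 \ q.2) := IntF.sdiff IntF.fst' IntF.snd'
  obtain ⟨F, hF, hJ⟩ := hC.hom W hW
  have key : ∀ T : IPow N (INat N), ¬ IFin T → ∃ T' : IPow N (INat N), (∀ n, n ∈ T' → n ∈ T) ∧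
      ¬ IFin T' ∧ ∀ n n', n ∈ T' → n' ∈ T' → ∀ A B, W (A, n) → W (B, n') →
        IFin ((A \ B) ∩ iuniv N δ) := by
    refine atom_ind (K := fun _ => True) (S := fun v : IPow N δ => ∀ T : IPow N (INat N), ¬ IFin T →
      ∃ T' : IPow N (INat N), (∀ n, n ∈ T' → n ∈ T) ∧ ¬ IFin T' ∧ ∀ n n', n ∈ T' → n' ∈ T' →
        ∀ A B, W (A, n) → W (B, n') → IFin ((A \ B) ∩ v)) (Int.const _) (by (repeat' (first | with_reducible exact IntF.id | with_reducible exact IntF.fst' | with_reducible exact IntF.snd' | with_reducible exact IntF.const _ | with_reducible exact Int.const _ | assumption | with_reducible apply Int.and | with_reducible apply Int.or | with_reducible apply Int.not | with_reducible apply Int.imp | with_reducible apply Int.iff | with_reducible apply Int.ne | with_reducible apply Int.eq | with_reducible apply Int.mem | with_reducible apply Int.subset | with_reducible apply Int.ltN | with_reducible apply Int.leN | with_reducible_and_instances apply Int.le | with_reducible_and_instances apply Int.lt | with_reducible apply Int.all | with_reducible apply Int.ex | with_reducible apply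 IntF.fst | with_reducible apply IntF.snd | with_reducible apply IntF.app | with_reducible apply IntF.inl | with_reducible apply IntF.inr | with_reducible_and_instances apply IntF.mul | with_reducible_and_instances apply IntF.inv | with_reducible_and_instances apply IntF.add | with_reducible_and_instances apply IntF.sub | with_reducible_and_instances apply IntF.neg | with_reducible_and_instances apply IntF.smul | with_reducible apply Int.fin | with_reducible apply IntF.sep | with_reducible apply IntF.lam | with_reducible apply IntF.insert | with_reducible apply IntF.singleton | with_reducible apply IntF.union | with_reducible apply IntF.iimage | with_reducible apply IntF.ite | with_reducible apply IntF.the | with_reducible apply IntF.irec | with_reducible apply IntF.succ | with_reducible apply IntF.val | with_reducible apply IntF.mk | (with_reducible refine Int.comp ?_ ?_; assumption) | (with_reducible refine Int.comp₂ ?_ ?_ ?_; assumption) | (with_reducible refine Int.comp₃ ?_ ?_ ?_ ?_; assumption) | (with_reducible refine Int.comp₄ ?_ ?_ ?_ ?_ ?_; assumption) | (with_reducible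 refine IntF.comp ?_ ?_; assumption) | (with_reducible refine IntF.comp₂ ?_ ?_ ?_; assumption) | (with_reducible refine IntF.comp₃ ?_ ?_ ?_ ?_; assumption) | with_reducible apply IntF.pair)))
      (fun _ _ _ _ => trivial) (fun _ _ _ _ => trivial) (fun v D _ _ h1 h2 T hT => ?_) hF
      (fun _ _ => trivial) _ trivial fun v _ _ hat => ?_
    · obtain ⟨T', h3, h4, h5⟩ := h1 T hT
      obtain ⟨T'', h6, h7, h8⟩ := h2 T' h4
      refine ⟨T'', fun n hn => h3 n (h6 n hn), h7, fun n n' hn hn' A B hA hB => ?_⟩
      refine ((h5 n n' (h6 n hn) (h6 n' hn') A B hA hB).union (h8 n n' hn hn' A B hA hB)).subset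
        fun x hx => ?_
      obtain ⟨h9, h10⟩ := mem_inter.1 hx
      by_cases hxD : x ∈ D
      · exact mem_union.2 (Or.inl (mem_inter.2 ⟨h9, mem_inter.2 ⟨h10, hxD⟩⟩))
      · exact mem_union.2 (Or.inr (mem_inter.2 ⟨h9, mem_sdiff.2 ⟨h10, hxD⟩⟩))
    · have hdec : ∀ n A, W (A, n) → IFin (A ∩ v) ∨ IFin (v \ A) := by
        intro n A hA
        by_contra hc
        push Not at hc
        obtain ⟨m, hm⟩ := hJ A n hA
        obtain ⟨H₁, h1, h2, h3⟩ := hC.thin m _ hc.1
        obtain ⟨H₂, h4, h5, h6⟩ := hC.thin m _ hc.2
        have hv : ∀ x, x ∈ H₁ ∨ x ∈ H₂ → x ∈ v := by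
          rintro x (hx | hx)
          · exact (mem_inter.1 (h1 x hx)).2
          · exact (mem_sdiff.1 (h4 x hx)).1
        obtain ⟨H, h7, h8⟩ := hm H₁ H₂ (fun x hx => (mem_inter.1 (h1 x hx)).1)
          (fun x hx => (mem_sdiff.1 (h4 x hx)).2)
          (fun D hD x y hx hy hxD => hat D hD x y (hv x hx) (hv y hy) hxD) h2 h3 h6
        refine h5 ((hfin n _ _ h8 hA).subset fun x hx => ?_)
        exact mem_sdiff.2 ⟨mem_union.2 (Or.inr hx), (mem_sdiff.1 (h4 x hx)).2⟩
      intro T hT
      have hTI : Int N (fun n : INat N => n ∈ T ∧ ∀ A, W (A, n) → IFin (A ∩ v)) := by (repeat' (first | with_reducible exact IntF.id | with_reducible exact IntF.fst' | with_reducible exact IntF.snd' | with_reducible exact IntF.const _ | with_reducible exact Int.const _ | assumption | with_reducible apply Int.and | with_reducible apply Int.or | with_reducible apply Int.not | with_reducible apply Int.imp | with_reducible apply Int.iff | with_reducible apply Int.ne | with_reducible apply Int.eq | with_reducible apply Int.mem | with_reducible apply Int.subset | with_reducible apply Int.ltN | with_reducible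 apply Int.leN | with_reducible_and_instances apply Int.le | with_reducible_and_instances apply Int.lt | with_reducible apply Int.all | with_reducible apply Int.ex | with_reducible apply IntF.fst | with_reducible apply IntF.snd | with_reducible apply IntF.app | with_reducible apply IntF.inl | with_reducible apply IntF.inr | with_reducible_and_instances apply IntF.mul | with_reducible_and_instances apply IntF.inv | with_reducible_and_instances apply IntF.add | with_reducible_and_instances apply IntF.sub | with_reducible_and_instances apply IntF.neg | with_reducible_and_instances apply IntF.smul | with_reducible apply Int.fin | with_reducible apply IntF.sep | with_reducible apply IntF.lam | with_reducible apply IntF.insert | with_reducible apply IntF.singleton | with_reducible apply IntF.union | with_reducible apply IntF.iimage | with_reducible apply IntF.ite | with_reducible apply IntF.the | with_reducible apply IntF.irec | with_reducible apply IntF.succ | with_reducible apply IntF.val | with_reducible apply IntF.mk | (with_reducible refine Int.comp ?_ ?_; assumption) | (with_reducible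 refine Int.comp₂ ?_ ?_ ?_; assumption) | (with_reducible refine Int.comp₃ ?_ ?_ ?_ ?_; assumption) | (with_reducible refine Int.comp₄ ?_ ?_ ?_ ?_ ?_; assumption) | (with_reducible refine IntF.comp ?_ ?_; assumption) | (with_reducible refine IntF.comp₂ ?_ ?_ ?_; assumption) | (with_reducible refine IntF.comp₃ ?_ ?_ ?_ ?_; assumption) | with_reducible apply IntF.pair))
      have hT1 : ∀ n, n ∈ ZFA.sep N (fun n : INat N => n ∈ T ∧ ∀ A, W (A, n) → IFin (A ∩ v)) ↔
          n ∈ T ∧ ∀ A, W (A, n) → IFin (A ∩ v) := fun n => mem_sep hTI
      by_cases h1 : IFin (ZFA.sep N (fun n : INat N => n ∈ T ∧ ∀ A, W (A, n) → IFin (A ∩ v)))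
      · refine ⟨T \ ZFA.sep N (fun n : INat N => n ∈ T ∧ ∀ A, W (A, n) → IFin (A ∩ v)),
          fun n hn => (mem_sdiff.1 hn).1, fun h2 => hT ((h1.union h2).subset fun n hn => ?_), ?_⟩
        · by_cases h3 : n ∈ ZFA.sep N (fun n : INat N => n ∈ T ∧ ∀ A, W (A, n) → IFin (A ∩ v))
          · exact mem_union.2 (Or.inl h3)
          · exact mem_union.2 (Or.inr (mem_sdiff.2 ⟨hn, h3⟩))
        · intro n n' _ hn' A B _ hB
          obtain ⟨h2, h3⟩ := mem_sdiff.1 hn'
          rw [hT1] at h3
          push Not at h3
          obtain ⟨B', hB', h4⟩ := h3 h2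
          have h5 := (hdec n' B' hB').resolve_left h4
          refine (h5.union (hfin n' B' B hB' hB)).subset fun x hx => ?_
          obtain ⟨h6, h7⟩ := mem_inter.1 hx
          by_cases hxB : x ∈ B'
          · exact mem_union.2 (Or.inr (mem_sdiff.2 ⟨hxB, (mem_sdiff.1 h6).2⟩))
          · exact mem_union.2 (Or.inl (mem_sdiff.2 ⟨h7, hxB⟩))
      · refine ⟨_, fun n hn => ((hT1 n).1 hn).1, h1, fun n n' hn _ A B hA _ => ?_⟩
        refine (((hT1 n).1 hn).2 A hA).subset fun x hx => ?_
        obtain ⟨h6, h7⟩ := mem_inter.1 hx
        exact mem_inter.2 ⟨(mem_sdiff.1 h6).1, h7⟩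
  obtain ⟨T', -, h1, h2⟩ := key _ not_fin_univ
  obtain ⟨n, hn⟩ : ∃ n, n ∈ T' := by
    by_contra hc
    exact h1 (IFin.empty.subset fun x hx => absurd ⟨x, hx⟩ hc)
  obtain ⟨n', hn', hne⟩ : ∃ n', n' ∈ T' ∧ n ≠ n' := by
    by_contra hc
    refine h1 ((IFin.singleton n).subset fun x hx => mem_singleton.2 ?_)
    by_contra h3
    exact hc ⟨x, hx, fun h => h3 h.symm⟩
  obtain ⟨A, hA⟩ := hex n
  obtain ⟨B, hB⟩ := hex n'
  exact ⟨n, n', A, B, hne, hA, hB, (h2 n n' hn hn' A B hA hB).subset fun x hx =>
    mem_inter.2 ⟨hx, by simp⟩⟩

end

end Pool.Agent.Helper672.ZFA.Q301SF
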