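import Pool.Agent.Q301.SF.Fin
import Pool.Agent.H310R3.Gen

/-!
# Infinite sets of natural numbers: halves and involutions
-/

set_option maxHeartbeats 1000000
set_option linter.all false
set_option synthInstance.maxSize 2000

namespace Pool.Agent.Helper672.ZFA.Q301SF

open FirstOrder FirstOrder.Language
open Pool.Agent.Helper672.ZFA.H635 (IPerm)
open Pool.Agent.H310 (FinP finP_iff finP_le finP_lt not_finP_nat finP_of_bound exists_enum_nat
  inj_of_lt)

universe u

section

variable {M : Type u} [L.Structure M] [hM : IsModel M]
variable {α β : Type u} [ITy M α] [ITy M β]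

theorem fin_iff {s : IPow M α} : IFin s ↔ FinP M (fun x => x ∈ s) :=
  ⟨fun h => ⟨s, h, fun _ h => h⟩, fun ⟨t, ht, h⟩ => ht.subset h⟩

theorem int_memS (s : IPow M α) : Int M (fun x : α => x ∈ s) := by (repeat' (first | with_reducible exact IntF.id | with_reducible exact IntF.fst' | with_reducible exact IntF.snd' | with_reducible exact IntF.const _ | with_reducible exact Int.const _ | assumption | with_reducible apply Int.and | with_reducible apply Int.or | with_reducible apply Int.not | with_reducible apply Int.imp | with_reducible apply Int.iff | with_reducible apply Int.ne | with_reducible apply Int.eq | with_reducible apply Int.mem | with_reducible apply Int.subset | with_reducible apply Int.ltN | with_reducible apply Int.leN | with_reducible_and_instances apply Int.le | with_reducible_and_instances apply Int.lt | with_reducible apply Int.all | with_reducible apply Int.ex | with_reducible apply IntF.fst | with_reducible apply IntF.snd | with_reducible apply IntF.app | with_reducible apply IntF.inl | with_reducible apply IntF.inr | with_reducible_and_instances apply IntF.mul |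 with_reducible_and_instances apply IntF.inv | with_reducible_and_instances apply IntF.add | with_reducible_and_instances apply IntF.sub | with_reducible_and_instances apply IntF.neg | with_reducible_and_instances apply IntF.smul | with_reducible apply Int.fin | with_reducible apply IntF.sep | with_reducible apply IntF.lam | with_reducible apply IntF.insert | with_reducible apply IntF.singleton | with_reducible apply IntF.union | with_reducible apply IntF.iimage | with_reducible apply IntF.ite | with_reducible apply IntF.the | with_reducible apply IntF.irec | with_reducible apply IntF.succ | with_reducible apply IntF.val | with_reducible apply IntF.mk | (with_reducible refine Int.comp ?_ ?_; assumption) | (with_reducible refine Int.comp₂ ?_ ?_ ?_; assumption) | (with_reducible refine Int.comp₃ ?_ ?_ ?_ ?_; assumption) | (with_reducible refine Int.comp₄ ?_ ?_ ?_ ?_ ?_; assumption) | (with_reducible refine IntF.comp ?_ ?_; assumption) | (with_reducible refine IntF.comp₂ ?_ ?_ ?_; assumption) | (with_reducible refine IntF.comp₃ ?_ ?_ ?_ ?_; assumption) | with_reducible apply IntF.pair))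

/-- Images of infinite sets under injections are infinite. -/
theorem not_fin_of_inj {s : IPow M α} (hs : ¬ IFin s) {f : α → β} (hf : IntF M f)
    (hinj : ∀ a a', a ∈ s → a' ∈ s → f a = f a' → a = a') {t : IPow M β} (h : ∀ a, a ∈ s → f a ∈ t) :
    ¬ IFin t := fun ht =>
  hs (fin_iff.2 (FinP.of_inj (int_memS s) hf hinj (fin_iff.1 ht) h))

theorem not_fin_univ : ¬ IFin (iuniv M (INat M)) := fun h =>
  not_finP_nat (M := M) ((fin_iff.1 h).mono fun a _ => by simp)

/-- Enumeration of infinite sets. -/
theorem exists_inj {s : IPow M (INat M)} (hs : ¬ IFin s) : ∃ g : INat M → INat M, IntF M g ∧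
    (∀ n, g n ∈ s) ∧ ∀ m n, g m = g n → m = n := by
  obtain ⟨g, h1, h2, h3⟩ := exists_enum_nat (p := fun n => n ∈ s) (int_memS s) fun ⟨n, hn⟩ =>
    hs (fin_iff.2 (finP_of_bound hn))
  exact ⟨g, h1, h2, inj_of_lt (fun a => lt_irrefl a) h3⟩

open Classical in
/-- The parity. -/
theorem exists_par : ∃ E : IPow M (INat M), ¬ IFin E ∧ ¬ IFin (iuniv M (INat M) \ E) := by
  have hs : IntF M (fun q : INat M × INat M => if q.2 = 0 then (0 : INat M).succ else 0) := by
    (repeat' (first | with_reducible exact IntF.id | with_reducible exact IntF.fst' | with_reducible exact IntF.snd' | with_reducible exact IntF.const _ | with_reducible exact Int.const _ | assumption | with_reducible apply Int.and | with_reducible apply Int.or | with_reducible apply Int.not | with_reducible apply Int.imp | with_reducible apply Int.iff | with_reducible apply Int.ne | with_reducible apply Int.eq | with_reducible apply Int.mem | with_reducible apply Int.subset | with_reducible apply Int.ltN | with_reducible apply Int.leN | with_reducible_and_instances apply Int.le | with_reducible_and_instances apply Int.lt |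 with_reducible apply Int.all | with_reducible apply Int.ex | with_reducible apply IntF.fst | with_reducible apply IntF.snd | with_reducible apply IntF.app | with_reducible apply IntF.inl | with_reducible apply IntF.inr | with_reducible_and_instances apply IntF.mul | with_reducible_and_instances apply IntF.inv | with_reducible_and_instances apply IntF.add | with_reducible_and_instances apply IntF.sub | with_reducible_and_instances apply IntF.neg | with_reducible_and_instances apply IntF.smul | with_reducible apply Int.fin | with_reducible apply IntF.sep | with_reducible apply IntF.lam | with_reducible apply IntF.insert | with_reducible apply IntF.singleton | with_reducible apply IntF.union | with_reducible apply IntF.iimage | with_reducible apply IntF.ite | with_reducible apply IntF.the | with_reducible apply IntF.irec | with_reducible apply IntF.succ | with_reducible apply IntF.val | with_reducible apply IntF.mk | (with_reducible refine Int.comp ?_ ?_; assumption) | (with_reducible refine Int.comp₂ ?_ ?_ ?_; assumption) | (with_reducible refine Int.comp₃ ?_ ?_ ?_ ?_; assumption) |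 (with_reducible refine Int.comp₄ ?_ ?_ ?_ ?_ ?_; assumption) | (with_reducible refine IntF.comp ?_ ?_; assumption) | (with_reducible refine IntF.comp₂ ?_ ?_ ?_; assumption) | (with_reducible refine IntF.comp₃ ?_ ?_ ?_ ?_; assumption) | with_reducible apply IntF.pair))
  obtain ⟨f, hf, h0, h1⟩ : ∃ f : INat M → INat M, IntF M f ∧ f 0 = 0 ∧ ∀ n, f n.succ =
      if f n = 0 then (0 : INat M).succ else 0 := by
    refine ⟨fun n => irec 0 (fun _ x => if x = 0 then (0 : INat M).succ else 0) n, ?_, irec_zero hs,
      fun n => irec_succ hs n⟩
    (repeat' (first | with_reducible exact IntF.id | with_reducible exact IntF.fst' | with_reducible exact IntF.snd' | with_reducible exact IntF.const _ | with_reducible exact Int.const _ | assumption | with_reducible apply Int.and | with_reducible apply Int.or | with_reducible apply Int.not | with_reducible apply Int.imp | with_reducible apply Int.iff | with_reducible apply Int.ne | with_reducible apply Int.eq | with_reducible apply Int.mem | with_reducible apply Int.subset | with_reducible apply Int.ltN | with_reducible apply Int.leN | with_reducible_and_instances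 apply Int.le | with_reducible_and_instances apply Int.lt | with_reducible apply Int.all | with_reducible apply Int.ex | with_reducible apply IntF.fst | with_reducible apply IntF.snd | with_reducible apply IntF.app | with_reducible apply IntF.inl | with_reducible apply IntF.inr | with_reducible_and_instances apply IntF.mul | with_reducible_and_instances apply IntF.inv | with_reducible_and_instances apply IntF.add | with_reducible_and_instances apply IntF.sub | with_reducible_and_instances apply IntF.neg | with_reducible_and_instances apply IntF.smul | with_reducible apply Int.fin | with_reducible apply IntF.sep | with_reducible apply IntF.lam | with_reducible apply IntF.insert | with_reducible apply IntF.singleton | with_reducible apply IntF.union | with_reducible apply IntF.iimage | with_reducible apply IntF.ite | with_reducible apply IntF.the | with_reducible apply IntF.irec | with_reducible apply IntF.succ | with_reducible apply IntF.val | with_reducible apply IntF.mk | (with_reducible refine Int.comp ?_ ?_; assumption) | (with_reducible refine Int.comp₂ ?_ ?_ ?_; assumption) |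 (with_reducible refine Int.comp₃ ?_ ?_ ?_ ?_; assumption) | (with_reducible refine Int.comp₄ ?_ ?_ ?_ ?_ ?_; assumption) | (with_reducible refine IntF.comp ?_ ?_; assumption) | (with_reducible refine IntF.comp₂ ?_ ?_ ?_; assumption) | (with_reducible refine IntF.comp₃ ?_ ?_ ?_ ?_; assumption) | with_reducible apply IntF.pair))
  have hI : Int M (fun n : INat M => f n = 0) := by (repeat' (first | with_reducible exact IntF.id | with_reducible exact IntF.fst' | with_reducible exact IntF.snd' | with_reducible exact IntF.const _ | with_reducible exact Int.const _ | assumption | with_reducible apply Int.and | with_reducible apply Int.or | with_reducible apply Int.not | with_reducible apply Int.imp | with_reducible apply Int.iff | with_reducible apply Int.ne | with_reducible apply Int.eq | with_reducible apply Int.mem | with_reducible apply Int.subset | with_reducible apply Int.ltN | with_reducible apply Int.leN | with_reducible_and_instances apply Int.le | with_reducible_and_instances apply Int.lt | with_reducible apply Int.all | with_reducible apply Int.ex | with_reducible apply IntF.fst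 | with_reducible apply IntF.snd | with_reducible apply IntF.app | with_reducible apply IntF.inl | with_reducible apply IntF.inr | with_reducible_and_instances apply IntF.mul | with_reducible_and_instances apply IntF.inv | with_reducible_and_instances apply IntF.add | with_reducible_and_instances apply IntF.sub | with_reducible_and_instances apply IntF.neg | with_reducible_and_instances apply IntF.smul | with_reducible apply Int.fin | with_reducible apply IntF.sep | with_reducible apply IntF.lam | with_reducible apply IntF.insert | with_reducible apply IntF.singleton | with_reducible apply IntF.union | with_reducible apply IntF.iimage | with_reducible apply IntF.ite | with_reducible apply IntF.the | with_reducible apply IntF.irec | with_reducible apply IntF.succ | with_reducible apply IntF.val | with_reducible apply IntF.mk | (with_reducible refine Int.comp ?_ ?_; assumption) | (with_reducible refine Int.comp₂ ?_ ?_ ?_; assumption) | (with_reducible refine Int.comp₃ ?_ ?_ ?_ ?_; assumption) | (with_reducible refine Int.comp₄ ?_ ?_ ?_ ?_ ?_; assumption) | (with_reducible refine IntF.comp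 ?_ ?_; assumption) | (with_reducible refine IntF.comp₂ ?_ ?_ ?_; assumption) | (with_reducible refine IntF.comp₃ ?_ ?_ ?_ ?_; assumption) | with_reducible apply IntF.pair))
  have hE : ∀ n : INat M, n ∈ sep M (fun n : INat M => f n = 0) ↔ f n = 0 := fun n => mem_sep hI
  have key : ∀ n, f n = 0 ↔ ¬ f n.succ = 0 := by
    intro n
    rw [h1]
    by_cases h : f n = 0
    · simp only [h, if_pos]
      exact ⟨fun _ => INat.succ_ne_zero _, fun _ => trivial⟩
    · simp [h]
  have hub : ∀ (Q : INat M → Prop), Int M Q → (∀ n, Q n ∨ Q n.succ) → ¬ IFin (sep M Q) := by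
    intro Q hQ h hfin
    obtain ⟨n, hn⟩ := (fin_iff.1 hfin).bound
    rcases h n.succ with h2 | h2
    · exact absurd (hn _ ((mem_sep hQ).2 h2)) (not_le.2 (INat.lt_succ_self n))
    · exact absurd (hn _ ((mem_sep hQ).2 h2)) (not_le.2 ((INat.lt_succ_self n).trans
        (INat.lt_succ_self _)))
  refine ⟨sep M (fun n : INat M => f n = 0), hub _ hI fun n => ?_, ?_⟩
  · by_cases h : f n = 0
    · exact Or.inl h
    · exact Or.inr (by_contra fun h2 => h ((key n).2 h2))
  · have hI' : Int M (fun n : INat M => ¬ f n = 0) := Int.not hI
    have h2 : iuniv M (INat M) \ sep M (fun n : INat M => f n = 0) =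
        sep M (fun n : INat M => ¬ f n = 0) := IPow.ext' fun n => by
      rw [mem_sdiff, hE, mem_sep hI']
      simp
    rw [h2]
    refine hub _ hI' fun n => ?_
    by_cases h : f n = 0
    · exact Or.inr ((key n).1 h)
    · exact Or.inl h

/-- Halves of infinite sets. -/
theorem exists_half {s : IPow M (INat M)} (hs : ¬ IFin s) : ∃ t : IPow M (INat M), (∀ x, x ∈ t → x ∈ s) ∧
    ¬ IFin t ∧ ¬ IFin (s \ t) := by
  obtain ⟨E, h1, h2⟩ := exists_par (M := M)
  obtain ⟨g, h3, h4, h5⟩ := exists_inj hs
  refine ⟨iimage g E, fun x hx => ?_, not_fin_of_inj h1 h3 (fun a a' _ _ h => h5 _ _ h)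
    fun a ha => (mem_iimage h3).2 ⟨a, ha, rfl⟩, not_fin_of_inj h2 h3 (fun a a' _ _ h => h5 _ _ h)
    fun a ha => mem_sdiff.2 ⟨h4 a, fun h => ?_⟩⟩
  · obtain ⟨a, -, rfl⟩ := (mem_iimage h3).1 hx
    exact h4 a
  · obtain ⟨b, hb, h6⟩ := (mem_iimage h3).1 h
    rw [h5 _ _ h6] at hb
    exact (mem_sdiff.1 ha).2 hb

/-- An infinite subset that leaves the given set infinite. -/
theorem exists_thin {s t : IPow M (INat M)} (hs : ¬ IFin s) (ht : ¬ IFin t) :
    ∃ s' : IPow M (INat M), (∀ x, x ∈ s' → x ∈ s) ∧ ¬ IFin s' ∧ ¬ IFin (t \ s') := by
  by_cases h : IFin (t \ s)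
  · have h2 : ¬ IFin (t ∩ s) := fun h3 => ht ((h.union h3).subset fun x hx => by
      by_cases hxs : x ∈ s
      · exact mem_union.2 (Or.inr (mem_inter.2 ⟨hx, hxs⟩))
      · exact mem_union.2 (Or.inl (mem_sdiff.2 ⟨hx, hxs⟩)))
    obtain ⟨s', h3, h4, h5⟩ := exists_half h2
    exact ⟨s', fun x hx => (mem_inter.1 (h3 x hx)).2, h4, fun h6 => h5 (h6.subset fun x hx =>
      mem_sdiff.2 ⟨(mem_inter.1 (mem_sdiff.1 hx).1).1, (mem_sdiff.1 hx).2⟩)⟩
  · exact ⟨s, fun _ h => h, hs, h⟩

/-- Involutions that exchange two families. -/
theorem exists_invol (W : IPow M α) {e₁ e₂ : α → β} (h1 : IntF M e₁) (h2 : IntF M e₂)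
    (i1 : ∀ a b, a ∈ W → b ∈ W → e₁ a = e₁ b → a = b)
    (i2 : ∀ a b, a ∈ W → b ∈ W → e₂ a = e₂ b → a = b)
    (hd : ∀ a b, a ∈ W → b ∈ W → e₁ a ≠ e₂ b) : ∃ g : IPerm M β,
      (∀ a, a ∈ W → g.1.1 (e₁ a) = e₂ a) ∧ (∀ a, a ∈ W → g.1.1 (e₂ a) = e₁ a) ∧
      (∀ x, (∀ a, a ∈ W → e₁ a ≠ x ∧ e₂ a ≠ x) → g.1.1 x = x) ∧ ∀ x, g.1.2 x = g.1.1 x := by
  have hR : ∀ x : β, ∃ y : β, (∃ a, a ∈ W ∧ ((x = e₁ a ∧ y = e₂ a) ∨ (x = e₂ a ∧ y = e₁ a))) ∨
      ((∀ a, a ∈ W → e₁ a ≠ x ∧ e₂ a ≠ x) ∧ y = x) := by
    intro x
    by_cases h : ∀ a, a ∈ W → e₁ a ≠ x ∧ e₂ a ≠ x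
    · exact ⟨x, Or.inr ⟨h, rfl⟩⟩
    · push Not at h
      obtain ⟨a, ha, h3⟩ := h
      by_cases h4 : e₁ a = x
      · exact ⟨e₂ a, Or.inl ⟨a, ha, Or.inl ⟨h4.symm, rfl⟩⟩⟩
      · exact ⟨e₁ a, Or.inl ⟨a, ha, Or.inr ⟨(h3 h4).symm, rfl⟩⟩⟩
  choose f hf using hR
  have huniq : ∀ x y y' : β, ((∃ a, a ∈ W ∧ ((x = e₁ a ∧ y = e₂ a) ∨ (x = e₂ a ∧ y = e₁ a))) ∨
      ((∀ a, a ∈ W → e₁ a ≠ x ∧ e₂ a ≠ x) ∧ y = x)) → ((∃ a, a ∈ W ∧ ((x = e₁ a ∧ y' = e₂ a) ∨
      (x = e₂ a ∧ y' = e₁ a))) ∨ ((∀ a, a ∈ W → e₁ a ≠ x ∧ e₂ a ≠ x) ∧ y' = x)) → y = y' := by
    rintro x y y' (⟨a, ha, h⟩ | ⟨h, rfl⟩) (⟨b, hb, h'⟩ | ⟨h', rfl⟩)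
    · rcases h with ⟨h, rfl⟩ | ⟨h, rfl⟩ <;> rcases h' with ⟨h', rfl⟩ | ⟨h', rfl⟩
      · rw [i1 a b ha hb (h.symm.trans h')]
      · exact absurd (h.symm.trans h') (hd a b ha hb)
      · exact absurd (h'.symm.trans h) (hd b a hb ha)
      · rw [i2 a b ha hb (h.symm.trans h')]
    · rcases h with ⟨h, -⟩ | ⟨h, -⟩
      · exact absurd h.symm (h' a ha).1
      · exact absurd h.symm (h' a ha).2
    · rcases h' with ⟨h', -⟩ | ⟨h', -⟩
      · exact absurd h'.symm (h b hb).1
      · exact absurd h'.symm (h b hb).2
    · rfl
  have hfI : IntF M f := by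
    refine IntF.of_unique (p := fun x y => (∃ a, a ∈ W ∧ ((x = e₁ a ∧ y = e₂ a) ∨
      (x = e₂ a ∧ y = e₁ a))) ∨ ((∀ a, a ∈ W → e₁ a ≠ x ∧ e₂ a ≠ x) ∧ y = x)) (by (repeat' (first | with_reducible exact IntF.id | with_reducible exact IntF.fst' | with_reducible exact IntF.snd' | with_reducible exact IntF.const _ | with_reducible exact Int.const _ | assumption | with_reducible apply Int.and | with_reducible apply Int.or | with_reducible apply Int.not | with_reducible apply Int.imp | with_reducible apply Int.iff | with_reducible apply Int.ne | with_reducible apply Int.eq | with_reducible apply Int.mem | with_reducible apply Int.subset | with_reducible apply Int.ltN | with_reducible apply Int.leN | with_reducible_and_instances apply Int.le | with_reducible_and_instances apply Int.lt | with_reducible apply Int.all | with_reducible apply Int.ex | with_reducible apply IntF.fst | with_reducible apply IntF.snd | with_reducible apply IntF.app | with_reducible apply IntF.inl | with_reducible apply IntF.inr | with_reducible_and_instances apply IntF.mul | with_reducible_and_instances apply IntF.inv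 | with_reducible_and_instances apply IntF.add | with_reducible_and_instances apply IntF.sub | with_reducible_and_instances apply IntF.neg | with_reducible_and_instances apply IntF.smul | with_reducible apply Int.fin | with_reducible apply IntF.sep | with_reducible apply IntF.lam | with_reducible apply IntF.insert | with_reducible apply IntF.singleton | with_reducible apply IntF.union | with_reducible apply IntF.iimage | with_reducible apply IntF.ite | with_reducible apply IntF.the | with_reducible apply IntF.irec | with_reducible apply IntF.succ | with_reducible apply IntF.val | with_reducible apply IntF.mk | (with_reducible refine Int.comp ?_ ?_; assumption) | (with_reducible refine Int.comp₂ ?_ ?_ ?_; assumption) | (with_reducible refine Int.comp₃ ?_ ?_ ?_ ?_; assumption) | (with_reducible refine Int.comp₄ ?_ ?_ ?_ ?_ ?_; assumption) | (with_reducible refine IntF.comp ?_ ?_; assumption) | (with_reducible refine IntF.comp₂ ?_ ?_ ?_; assumption) | (with_reducible refine IntF.comp₃ ?_ ?_ ?_ ?_; assumption) | with_reducible apply IntF.pair)))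
      (fun x => hf x) fun x y y' h h' => huniq x y y' h h'
  have hff : ∀ x, f (f x) = x := by
    intro x
    refine huniq (f x) _ _ (hf (f x)) ?_
    rcases hf x with ⟨a, ha, h | h⟩ | ⟨h, h'⟩
    · exact Or.inl ⟨a, ha, Or.inr ⟨h.2, h.1⟩⟩
    · exact Or.inl ⟨a, ha, Or.inl ⟨h.2, h.1⟩⟩
    · rw [h']
      exact Or.inr ⟨h, rfl⟩
  refine ⟨IPerm.ofInv f hfI hff, fun a ha => ?_, fun a ha => ?_, fun x hx => ?_, fun x => rfl⟩
  · exact huniq (e₁ a) _ _ (hf _) (Or.inl ⟨a, ha, Or.inl ⟨rfl, rfl⟩⟩)
  · exact huniq (e₂ a) _ _ (hf _) (Or.inl ⟨a, ha, Or.inr ⟨rfl, rfl⟩⟩)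
  · exact huniq x _ _ (hf _) (Or.inr ⟨hx, rfl⟩)

end

end Pool.Agent.Helper672.ZFA.Q301SF
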