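import Pool.Agent.Q301.UF.Inf
import Pool.Agent.H310R3.PM3
import Pool.Agent.Q301.SF.C1

/-!
# Generic ultrafilters on a set of indiscernibles: the symmetric system
-/

set_option maxHeartbeats 1000000
set_option linter.all false
set_option synthInstance.maxSize 2000

namespace Pool.Agent.Helper672.ZFA.Q301SF

open FirstOrder FirstOrder.Language
open Pool.Agent.Helper672.ZFA.H635 (IPerm SymSys IG WFI FEq FMem tw Good feq_of_map feq_iff IsGen
  nd nd_eq mem_nd mem_nd_nd exists_mk mk_eq_nd EqFam NN nn_ext CollL nn_zf mem_NN extG SymQ
  good_extG mem_nd_inr feq_equivQ fmem_tw toL)
open Pool.Agent.Helper672.ZFA.H310M (PGr FS fsu fs1 mem_fs1 fsi mem_fsi Co Cel Gm rhoi sig sigi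
  rho_rhoi rhoi_rho sig_sigi sigi_sig sig_fst sig_snd sigi_fst sigi_snd rho_comp sig_comp sigi_comp
  rho_inv rhoi_inv sig_inv sigi_inv sig_one sigi_one rho_one int_rho int_rhoi int_sig int_sigi
  mem_smul' SS SS_U rho_of_U UU TS ts int_ts mem_ts mem_ts_sig ts_surj ts_of_U cell_eq cell_eq'
  exists_free exists_add exists_move)
open Pool.Agent.Helper672.Plain (LSet)

universe u

variable (M : Type u) [L.Structure M] [hM : IsModel M] (X : Type u) [ITy M X]

/-- The cells. -/
abbrev QC : Type u := INat M × X

variable {M X}

/-- The rows. -/
noncomputable def rwq (q : IPow M (QC M X)) (n : INat M) : IPow M X :=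
  sep M fun x => ((n, x) : QC M X) ∈ q

theorem mem_rwq {q : IPow M (QC M X)} {n : INat M} {x : X} :
    x ∈ rwq q n ↔ ((n, x) : QC M X) ∈ q := mem_sep (p := fun x => ((n, x) : QC M X) ∈ q) (by (repeat' (first | with_reducible exact IntF.id | with_reducible exact IntF.fst' | with_reducible exact IntF.snd' | with_reducible exact IntF.const _ | with_reducible exact Int.const _ | assumption | with_reducible apply Int.and | with_reducible apply Int.or | with_reducible apply Int.not | with_reducible apply Int.imp | with_reducible apply Int.iff | with_reducible apply Int.ne | with_reducible apply Int.eq | with_reducible apply Int.mem | with_reducible apply Int.subset | with_reducible apply Int.ltN | with_reducible apply Int.leN | with_reducible_and_instances apply Int.le | with_reducible_and_instances apply Int.lt | with_reducible apply Int.all | with_reducible apply Int.ex | with_reducible apply IntF.fst | with_reducible apply IntF.snd | with_reducible apply IntF.app | with_reducible apply IntF.inl | with_reducible apply IntF.inr | with_reducible_and_instances apply IntF.mul | with_reducible_and_instances apply IntF.inv | with_reducible_and_instances apply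 IntF.add | with_reducible_and_instances apply IntF.sub | with_reducible_and_instances apply IntF.neg | with_reducible_and_instances apply IntF.smul | with_reducible apply Int.fin | with_reducible apply IntF.sep | with_reducible apply IntF.lam | with_reducible apply IntF.insert | with_reducible apply IntF.singleton | with_reducible apply IntF.union | with_reducible apply IntF.iimage | with_reducible apply IntF.ite | with_reducible apply IntF.the | with_reducible apply IntF.irec | with_reducible apply IntF.succ | with_reducible apply IntF.val | with_reducible apply IntF.mk | (with_reducible refine Int.comp ?_ ?_; assumption) | (with_reducible refine Int.comp₂ ?_ ?_ ?_; assumption) | (with_reducible refine Int.comp₃ ?_ ?_ ?_ ?_; assumption) | (with_reducible refine Int.comp₄ ?_ ?_ ?_ ?_ ?_; assumption) | (with_reducible refine IntF.comp ?_ ?_; assumption) | (with_reducible refine IntF.comp₂ ?_ ?_ ?_; assumption) | (with_reducible refine IntF.comp₃ ?_ ?_ ?_ ?_; assumption) | with_reducible apply IntF.pair)))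

theorem int_rwq : IntF M (fun p : IPow M (QC M X) × INat M => rwq p.1 p.2) := by
  unfold rwq
  refine IntF.sep ?_
  (repeat' (first | with_reducible exact IntF.id | with_reducible exact IntF.fst' | with_reducible exact IntF.snd' | with_reducible exact IntF.const _ | with_reducible exact Int.const _ | assumption | with_reducible apply Int.and | with_reducible apply Int.or | with_reducible apply Int.not | with_reducible apply Int.imp | with_reducible apply Int.iff | with_reducible apply Int.ne | with_reducible apply Int.eq | with_reducible apply Int.mem | with_reducible apply Int.subset | with_reducible apply Int.ltN | with_reducible apply Int.leN | with_reducible_and_instances apply Int.le | with_reducible_and_instances apply Int.lt | with_reducible apply Int.all | with_reducible apply Int.ex | with_reducible apply IntF.fst | with_reducible apply IntF.snd | with_reducible apply IntF.app | with_reducible apply IntF.inl | with_reducible apply IntF.inr | with_reducible_and_instances apply IntF.mul | with_reducible_and_instances apply IntF.inv | with_reducible_and_instances apply IntF.add | with_reducible_and_instances apply IntF.sub | with_reducible_and_instances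 apply IntF.neg | with_reducible_and_instances apply IntF.smul | with_reducible apply Int.fin | with_reducible apply IntF.sep | with_reducible apply IntF.lam | with_reducible apply IntF.insert | with_reducible apply IntF.singleton | with_reducible apply IntF.union | with_reducible apply IntF.iimage | with_reducible apply IntF.ite | with_reducible apply IntF.the | with_reducible apply IntF.irec | with_reducible apply IntF.succ | with_reducible apply IntF.val | with_reducible apply IntF.mk | (with_reducible refine Int.comp ?_ ?_; assumption) | (with_reducible refine Int.comp₂ ?_ ?_ ?_; assumption) | (with_reducible refine Int.comp₃ ?_ ?_ ?_ ?_; assumption) | (with_reducible refine Int.comp₄ ?_ ?_ ?_ ?_ ?_; assumption) | (with_reducible refine IntF.comp ?_ ?_; assumption) | (with_reducible refine IntF.comp₂ ?_ ?_ ?_; assumption) | (with_reducible refine IntF.comp₃ ?_ ?_ ?_ ?_; assumption) | with_reducible apply IntF.pair))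

/-- The conditions. -/
def IsQ (q : IPow M (QC M X)) : Prop :=
  (∀ n, ¬ IFin (rwq q n)) ∧ ∃ m : INat M, ∀ n, m ≤ n → ∀ x, ((n, x) : QC M X) ∈ q

theorem int_isQ : Int M (IsQ (M := M) (X := X)) := by
  have h := int_rwq (M := M) (X := X)
  unfold IsQ
  (repeat' (first | with_reducible exact IntF.id | with_reducible exact IntF.fst' | with_reducible exact IntF.snd' | with_reducible exact IntF.const _ | with_reducible exact Int.const _ | assumption | with_reducible apply Int.and | with_reducible apply Int.or | with_reducible apply Int.not | with_reducible apply Int.imp | with_reducible apply Int.iff | with_reducible apply Int.ne | with_reducible apply Int.eq | with_reducible apply Int.mem | with_reducible apply Int.subset | with_reducible apply Int.ltN | with_reducible apply Int.leN | with_reducible_and_instances apply Int.le | with_reducible_and_instances apply Int.lt | with_reducible apply Int.all | with_reducible apply Int.ex | with_reducible apply IntF.fst | with_reducible apply IntF.snd | with_reducible apply IntF.app | with_reducible apply IntF.inl | with_reducible apply IntF.inr | with_reducible_and_instances apply IntF.mul | with_reducible_and_instances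 apply IntF.inv | with_reducible_and_instances apply IntF.add | with_reducible_and_instances apply IntF.sub | with_reducible_and_instances apply IntF.neg | with_reducible_and_instances apply IntF.smul | with_reducible apply Int.fin | with_reducible apply IntF.sep | with_reducible apply IntF.lam | with_reducible apply IntF.insert | with_reducible apply IntF.singleton | with_reducible apply IntF.union | with_reducible apply IntF.iimage | with_reducible apply IntF.ite | with_reducible apply IntF.the | with_reducible apply IntF.irec | with_reducible apply IntF.succ | with_reducible apply IntF.val | with_reducible apply IntF.mk | (with_reducible refine Int.comp ?_ ?_; assumption) | (with_reducible refine Int.comp₂ ?_ ?_ ?_; assumption) | (with_reducible refine Int.comp₃ ?_ ?_ ?_ ?_; assumption) | (with_reducible refine Int.comp₄ ?_ ?_ ?_ ?_ ?_; assumption) | (with_reducible refine IntF.comp ?_ ?_; assumption) | (with_reducible refine IntF.comp₂ ?_ ?_ ?_; assumption) | (with_reducible refine IntF.comp₃ ?_ ?_ ?_ ?_; assumption) | with_reducible apply IntF.pair))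

instance : Fact (Int M (IsQ (M := M) (X := X))) := ⟨int_isQ⟩

variable (M X) in
/-- The notion of forcing. -/
abbrev QQ : Type u := {q : IPow M (QC M X) // IsQ q}

instance : Preorder (QQ M X) where
  le p q := ∀ c, c ∈ p.1 → c ∈ q.1
  le_refl _ _ h := h
  le_trans _ _ _ h h' c hc := h' c (h c hc)

theorem le_qq {p q : QQ M X} : p ≤ q ↔ ∀ c, c ∈ p.1 → c ∈ q.1 := Iff.rfl

instance : ILE M (QQ M X) where
  out := by
    change Int M (fun q : QQ M X × QQ M X => ∀ c, c ∈ q.1.1 → c ∈ q.2.1)
    (repeat' (first | with_reducible exact IntF.id | with_reducible exact IntF.fst' | with_reducible exact IntF.snd' | with_reducible exact IntF.const _ | with_reducible exact Int.const _ | assumption | with_reducible apply Int.and | with_reducible apply Int.or | with_reducible apply Int.not | with_reducible apply Int.imp | with_reducible apply Int.iff | with_reducible apply Int.ne | with_reducible apply Int.eq | with_reducible apply Int.mem | with_reducible apply Int.subset | with_reducible apply Int.ltN | with_reducible apply Int.leN | with_reducible_and_instances apply Int.le | with_reducible_and_instances apply Int.lt | with_reducible apply Int.all | with_reducible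 apply Int.ex | with_reducible apply IntF.fst | with_reducible apply IntF.snd | with_reducible apply IntF.app | with_reducible apply IntF.inl | with_reducible apply IntF.inr | with_reducible_and_instances apply IntF.mul | with_reducible_and_instances apply IntF.inv | with_reducible_and_instances apply IntF.add | with_reducible_and_instances apply IntF.sub | with_reducible_and_instances apply IntF.neg | with_reducible_and_instances apply IntF.smul | with_reducible apply Int.fin | with_reducible apply IntF.sep | with_reducible apply IntF.lam | with_reducible apply IntF.insert | with_reducible apply IntF.singleton | with_reducible apply IntF.union | with_reducible apply IntF.iimage | with_reducible apply IntF.ite | with_reducible apply IntF.the | with_reducible apply IntF.irec | with_reducible apply IntF.succ | with_reducible apply IntF.val | with_reducible apply IntF.mk | (with_reducible refine Int.comp ?_ ?_; assumption) | (with_reducible refine Int.comp₂ ?_ ?_ ?_; assumption) | (with_reducible refine Int.comp₃ ?_ ?_ ?_ ?_; assumption) | (with_reducible refine Int.comp₄ ?_ ?_ ?_ ?_ ?_; assumption) | (with_reducible refine IntF.comp ?_ ?_; assumption) |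 (with_reducible refine IntF.comp₂ ?_ ?_ ?_; assumption) | (with_reducible refine IntF.comp₃ ?_ ?_ ?_ ?_; assumption) | with_reducible apply IntF.pair))

variable {Z : PGr M X}

theorem int_mq (π : Gm Z) (s : IPow M (QC M X)) :
    Int M (fun c : QC M X => ((c.1, rhoi π c.2) : QC M X) ∈ s) := by
  have h : IntF M (fun q : Gm Z × X => rhoi q.1 q.2) := int_rhoi
  (repeat' (first | with_reducible exact IntF.id | with_reducible exact IntF.fst' | with_reducible exact IntF.snd' | with_reducible exact IntF.const _ | with_reducible exact Int.const _ | assumption | with_reducible apply Int.and | with_reducible apply Int.or | with_reducible apply Int.not | with_reducible apply Int.imp | with_reducible apply Int.iff | with_reducible apply Int.ne | with_reducible apply Int.eq | with_reducible apply Int.mem | with_reducible apply Int.subset | with_reducible apply Int.ltN | with_reducible apply Int.leN | with_reducible_and_instances apply Int.le | with_reducible_and_instances apply Int.lt | with_reducible apply Int.all | with_reducible apply Int.ex | with_reducible apply IntF.fst | with_reducible apply IntF.snd | with_reducible apply IntF.app | with_reducible apply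 IntF.inl | with_reducible apply IntF.inr | with_reducible_and_instances apply IntF.mul | with_reducible_and_instances apply IntF.inv | with_reducible_and_instances apply IntF.add | with_reducible_and_instances apply IntF.sub | with_reducible_and_instances apply IntF.neg | with_reducible_and_instances apply IntF.smul | with_reducible apply Int.fin | with_reducible apply IntF.sep | with_reducible apply IntF.lam | with_reducible apply IntF.insert | with_reducible apply IntF.singleton | with_reducible apply IntF.union | with_reducible apply IntF.iimage | with_reducible apply IntF.ite | with_reducible apply IntF.the | with_reducible apply IntF.irec | with_reducible apply IntF.succ | with_reducible apply IntF.val | with_reducible apply IntF.mk | (with_reducible refine Int.comp ?_ ?_; assumption) | (with_reducible refine Int.comp₂ ?_ ?_ ?_; assumption) | (with_reducible refine Int.comp₃ ?_ ?_ ?_ ?_; assumption) | (with_reducible refine Int.comp₄ ?_ ?_ ?_ ?_ ?_; assumption) | (with_reducible refine IntF.comp ?_ ?_; assumption) | (with_reducible refine IntF.comp₂ ?_ ?_ ?_; assumption) | (with_reducible refine IntF.comp₃ ?_ ?_ ?_ ?_; assumption) | with_reducible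 apply IntF.pair))

/-- The image of a set of cells. -/
noncomputable def mq (π : Gm Z) (s : IPow M (QC M X)) : IPow M (QC M X) :=
  sep M fun c : QC M X => ((c.1, rhoi π c.2) : QC M X) ∈ s

theorem mem_mq {π : Gm Z} {s : IPow M (QC M X)} {c : QC M X} :
    c ∈ mq π s ↔ ((c.1, rhoi π c.2) : QC M X) ∈ s := mem_sep (int_mq π s)

theorem isQ_mq (π : Gm Z) {s : IPow M (QC M X)} (hs : IsQ s) : IsQ (mq π s) := by
  have hr : IntF M (fun x => (H310M.rho) π x) := by
    have h : IntF M (fun q : Gm Z × X => (H310M.rho) q.1 q.2) := int_rho
    (repeat' (first | with_reducible exact IntF.id | with_reducible exact IntF.fst' | with_reducible exact IntF.snd' | with_reducible exact IntF.const _ | with_reducible exact Int.const _ | assumption | with_reducible apply Int.and | with_reducible apply Int.or | with_reducible apply Int.not | with_reducible apply Int.imp | with_reducible apply Int.iff | with_reducible apply Int.ne | with_reducible apply Int.eq | with_reducible apply Int.mem | with_reducible apply Int.subset | with_reducible apply Int.ltN | with_reducible apply Int.leN | with_reducible_and_instances apply Int.le | with_reducible_and_instances apply Int.lt | with_reducible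 apply Int.all | with_reducible apply Int.ex | with_reducible apply IntF.fst | with_reducible apply IntF.snd | with_reducible apply IntF.app | with_reducible apply IntF.inl | with_reducible apply IntF.inr | with_reducible_and_instances apply IntF.mul | with_reducible_and_instances apply IntF.inv | with_reducible_and_instances apply IntF.add | with_reducible_and_instances apply IntF.sub | with_reducible_and_instances apply IntF.neg | with_reducible_and_instances apply IntF.smul | with_reducible apply Int.fin | with_reducible apply IntF.sep | with_reducible apply IntF.lam | with_reducible apply IntF.insert | with_reducible apply IntF.singleton | with_reducible apply IntF.union | with_reducible apply IntF.iimage | with_reducible apply IntF.ite | with_reducible apply IntF.the | with_reducible apply IntF.irec | with_reducible apply IntF.succ | with_reducible apply IntF.val | with_reducible apply IntF.mk | (with_reducible refine Int.comp ?_ ?_; assumption) | (with_reducible refine Int.comp₂ ?_ ?_ ?_; assumption) | (with_reducible refine Int.comp₃ ?_ ?_ ?_ ?_; assumption) | (with_reducible refine Int.comp₄ ?_ ?_ ?_ ?_ ?_; assumption) | (with_reducible refine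 IntF.comp ?_ ?_; assumption) | (with_reducible refine IntF.comp₂ ?_ ?_ ?_; assumption) | (with_reducible refine IntF.comp₃ ?_ ?_ ?_ ?_; assumption) | with_reducible apply IntF.pair))
  refine ⟨fun n => not_fin_of_inj (hs.1 n) hr (fun a b _ _ h => ?_) fun a ha => ?_, ?_⟩
  · rw [← rhoi_rho π a, ← rhoi_rho π b, h]
  · rw [mem_rwq, mem_mq]
    change ((n, rhoi π ((H310M.rho) π a)) : QC M X) ∈ s
    rw [rhoi_rho]
    exact mem_rwq.1 ha
  · obtain ⟨m, hm⟩ := hs.2
    exact ⟨m, fun n hn x => mem_mq.2 (hm n hn _)⟩

noncomputable instance : SMul (Gm Z) (QQ M X) := ⟨fun π p => ⟨mq π p.1, isQ_mq π p.2⟩⟩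

theorem mem_smulq {π : Gm Z} {p : QQ M X} {n : INat M} {x : X} :
    ((n, x) : QC M X) ∈ (π • p).1 ↔ ((n, rhoi π x) : QC M X) ∈ p.1 := mem_mq

theorem rhoi_comp (π σ : Gm Z) (i : X) : rhoi (π * σ) i = rhoi σ (rhoi π i) :=
  IPerm.mul_apply₂ _ _ _

theorem rhoi_one (i : X) : rhoi (1 : Gm Z) i = i := IPerm.one_apply₂ _

noncomputable instance : MulAction (Gm Z) (QQ M X) where
  one_smul p := Subtype.ext (IPow.ext' fun c => by
    obtain ⟨n, x⟩ := c
    rw [mem_smulq, rhoi_one])
  mul_smul π σ p := Subtype.ext (IPow.ext' fun c => by
    obtain ⟨n, x⟩ := c
    rw [mem_smulq, mem_smulq, mem_smulq, rhoi_comp])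

instance : ISMul M (Gm Z) (QQ M X) where
  out := by
    have h : IntF M (fun q : Gm Z × X => rhoi q.1 q.2) := int_rhoi
    refine IntF.of_rel (r := fun (q : Gm Z × QQ M X) (p : QQ M X) =>
      ∀ n x, ((n, x) : QC M X) ∈ p.1 ↔ ((n, rhoi q.1 x) : QC M X) ∈ q.2.1) (by (repeat' (first | with_reducible exact IntF.id | with_reducible exact IntF.fst' | with_reducible exact IntF.snd' | with_reducible exact IntF.const _ | with_reducible exact Int.const _ | assumption | with_reducible apply Int.and | with_reducible apply Int.or | with_reducible apply Int.not | with_reducible apply Int.imp | with_reducible apply Int.iff | with_reducible apply Int.ne | with_reducible apply Int.eq | with_reducible apply Int.mem | with_reducible apply Int.subset | with_reducible apply Int.ltN | with_reducible apply Int.leN | with_reducible_and_instances apply Int.le | with_reducible_and_instances apply Int.lt | with_reducible apply Int.all | with_reducible apply Int.ex | with_reducible apply IntF.fst | with_reducible apply IntF.snd | with_reducible apply IntF.app | with_reducible apply IntF.inl | with_reducible apply IntF.inr | with_reducible_and_instances apply IntF.mul | with_reducible_and_instances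 apply IntF.inv | with_reducible_and_instances apply IntF.add | with_reducible_and_instances apply IntF.sub | with_reducible_and_instances apply IntF.neg | with_reducible_and_instances apply IntF.smul | with_reducible apply Int.fin | with_reducible apply IntF.sep | with_reducible apply IntF.lam | with_reducible apply IntF.insert | with_reducible apply IntF.singleton | with_reducible apply IntF.union | with_reducible apply IntF.iimage | with_reducible apply IntF.ite | with_reducible apply IntF.the | with_reducible apply IntF.irec | with_reducible apply IntF.succ | with_reducible apply IntF.val | with_reducible apply IntF.mk | (with_reducible refine Int.comp ?_ ?_; assumption) | (with_reducible refine Int.comp₂ ?_ ?_ ?_; assumption) | (with_reducible refine Int.comp₃ ?_ ?_ ?_ ?_; assumption) | (with_reducible refine Int.comp₄ ?_ ?_ ?_ ?_ ?_; assumption) | (with_reducible refine IntF.comp ?_ ?_; assumption) | (with_reducible refine IntF.comp₂ ?_ ?_ ?_; assumption) | (with_reducible refine IntF.comp₃ ?_ ?_ ?_ ?_; assumption) | with_reducible apply IntF.pair))) fun q p => ?_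
    constructor
    · intro h1
      refine Subtype.ext (IPow.ext' fun c => ?_)
      obtain ⟨n, x⟩ := c
      exact mem_smulq.trans (h1 n x).symm
    · rintro rfl n x
      exact mem_smulq

/-! ### The product -/

variable (M X) in
/-- The notion of forcing. -/
abbrev PP : Type u := Co M X × QQ M X

instance : ILE M (PP M X) where
  out := by
    change Int M (fun q : PP M X × PP M X => q.1.1 ≤ q.2.1 ∧ q.1.2 ≤ q.2.2)
    refine Int.and ?_ ?_
    · exact Int.le (IntF.fst IntF.fst') (IntF.fst IntF.snd')
    · exact Int.le (IntF.snd IntF.fst') (IntF.snd IntF.snd')

instance : ISMul M (Gm Z) (PP M X) where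
  out := by
    have h1 := (inferInstance : ISMul M (Gm Z) (Co M X)).out
    have h2 := (inferInstance : ISMul M (Gm Z) (QQ M X)).out
    refine IntF.pair ?_ ?_
    · exact IntF.comp h1 (IntF.pair IntF.fst' (IntF.fst IntF.snd'))
    · exact IntF.comp h2 (IntF.pair IntF.fst' (IntF.snd IntF.snd'))

/-- The image of a set of indices. -/
noncomputable def mb (π : Gm Z) (b : IPow M X) : IPow M X := sep M fun x => rhoi π x ∈ b

theorem mem_mb {π : Gm Z} {b : IPow M X} {x : X} : x ∈ mb π b ↔ rhoi π x ∈ b :=
  mem_sep (p := fun x => rhoi π x ∈ b) (by
    have h : IntF M (fun q : Gm Z × X => rhoi q.1 q.2) := int_rhoi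
    (repeat' (first | with_reducible exact IntF.id | with_reducible exact IntF.fst' | with_reducible exact IntF.snd' | with_reducible exact IntF.const _ | with_reducible exact Int.const _ | assumption | with_reducible apply Int.and | with_reducible apply Int.or | with_reducible apply Int.not | with_reducible apply Int.imp | with_reducible apply Int.iff | with_reducible apply Int.ne | with_reducible apply Int.eq | with_reducible apply Int.mem | with_reducible apply Int.subset | with_reducible apply Int.ltN | with_reducible apply Int.leN | with_reducible_and_instances apply Int.le | with_reducible_and_instances apply Int.lt | with_reducible apply Int.all | with_reducible apply Int.ex | with_reducible apply IntF.fst | with_reducible apply IntF.snd | with_reducible apply IntF.app | with_reducible apply IntF.inl | with_reducible apply IntF.inr | with_reducible_and_instances apply IntF.mul | with_reducible_and_instances apply IntF.inv | with_reducible_and_instances apply IntF.add | with_reducible_and_instances apply IntF.sub | with_reducible_and_instances apply IntF.neg | with_reducible_and_instances apply IntF.smul | with_reducible apply Int.fin | with_reducible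 apply IntF.sep | with_reducible apply IntF.lam | with_reducible apply IntF.insert | with_reducible apply IntF.singleton | with_reducible apply IntF.union | with_reducible apply IntF.iimage | with_reducible apply IntF.ite | with_reducible apply IntF.the | with_reducible apply IntF.irec | with_reducible apply IntF.succ | with_reducible apply IntF.val | with_reducible apply IntF.mk | (with_reducible refine Int.comp ?_ ?_; assumption) | (with_reducible refine Int.comp₂ ?_ ?_ ?_; assumption) | (with_reducible refine Int.comp₃ ?_ ?_ ?_ ?_; assumption) | (with_reducible refine Int.comp₄ ?_ ?_ ?_ ?_ ?_; assumption) | (with_reducible refine IntF.comp ?_ ?_; assumption) | (with_reducible refine IntF.comp₂ ?_ ?_ ?_; assumption) | (with_reducible refine IntF.comp₃ ?_ ?_ ?_ ?_; assumption) | with_reducible apply IntF.pair)))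

theorem int_mb : IntF M (fun q : Gm Z × IPow M X => mb q.1 q.2) := by
  have h : IntF M (fun q : Gm Z × X => rhoi q.1 q.2) := int_rhoi
  unfold mb
  refine IntF.sep ?_
  (repeat' (first | with_reducible exact IntF.id | with_reducible exact IntF.fst' | with_reducible exact IntF.snd' | with_reducible exact IntF.const _ | with_reducible exact Int.const _ | assumption | with_reducible apply Int.and | with_reducible apply Int.or | with_reducible apply Int.not | with_reducible apply Int.imp | with_reducible apply Int.iff | with_reducible apply Int.ne | with_reducible apply Int.eq | with_reducible apply Int.mem | with_reducible apply Int.subset | with_reducible apply Int.ltN | with_reducible apply Int.leN | with_reducible_and_instances apply Int.le | with_reducible_and_instances apply Int.lt | with_reducible apply Int.all | with_reducible apply Int.ex | with_reducible apply IntF.fst | with_reducible apply IntF.snd | with_reducible apply IntF.app | with_reducible apply IntF.inl | with_reducible apply IntF.inr | with_reducible_and_instances apply IntF.mul | with_reducible_and_instances apply IntF.inv | with_reducible_and_instances apply IntF.add | with_reducible_and_instances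 apply IntF.sub | with_reducible_and_instances apply IntF.neg | with_reducible_and_instances apply IntF.smul | with_reducible apply Int.fin | with_reducible apply IntF.sep | with_reducible apply IntF.lam | with_reducible apply IntF.insert | with_reducible apply IntF.singleton | with_reducible apply IntF.union | with_reducible apply IntF.iimage | with_reducible apply IntF.ite | with_reducible apply IntF.the | with_reducible apply IntF.irec | with_reducible apply IntF.succ | with_reducible apply IntF.val | with_reducible apply IntF.mk | (with_reducible refine Int.comp ?_ ?_; assumption) | (with_reducible refine Int.comp₂ ?_ ?_ ?_; assumption) | (with_reducible refine Int.comp₃ ?_ ?_ ?_ ?_; assumption) | (with_reducible refine Int.comp₄ ?_ ?_ ?_ ?_ ?_; assumption) | (with_reducible refine IntF.comp ?_ ?_; assumption) | (with_reducible refine IntF.comp₂ ?_ ?_ ?_; assumption) | (with_reducible refine IntF.comp₃ ?_ ?_ ?_ ?_; assumption) | with_reducible apply IntF.pair))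

theorem mb_inv_mb (π : Gm Z) (b : IPow M X) : mb π⁻¹ (mb π b) = b := IPow.ext' fun x => by
  rw [mem_mb, mem_mb, rhoi_inv, rhoi_rho]

variable (M X) in
/-- The supports. -/
abbrev LQ : Type u := FS M X × FS M (IPow M X)

/-- The subgroups. -/
def UQ (l : LQ M X) (π : Gm Z) : Prop :=
  UU l.1 π ∧ ∀ b, b ∈ l.2.1 → ∀ x, x ∈ b ↔ (H310M.rho) π x ∈ b

theorem int_UQ : Int M (fun q : LQ M X × Gm Z => UQ q.1 q.2) := by
  have h : IntF M (fun q : Gm Z × Cel M X => sig q.1 q.2) := int_sig
  have h' : IntF M (fun q : Gm Z × X => (H310M.rho) q.1 q.2) := int_rho
  unfold UQ UU
  (repeat' (first | with_reducible exact IntF.id | with_reducible exact IntF.fst' | with_reducible exact IntF.snd' | with_reducible exact IntF.const _ | with_reducible exact Int.const _ | assumption | with_reducible apply Int.and | with_reducible apply Int.or | with_reducible apply Int.not | with_reducible apply Int.imp | with_reducible apply Int.iff | with_reducible apply Int.ne | with_reducible apply Int.eq | with_reducible apply Int.mem | with_reducible apply Int.subset | with_reducible apply Int.ltN | with_reducible apply Int.leN | with_reducible_and_instances apply Int.le | with_reducible_and_instances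 apply Int.lt | with_reducible apply Int.all | with_reducible apply Int.ex | with_reducible apply IntF.fst | with_reducible apply IntF.snd | with_reducible apply IntF.app | with_reducible apply IntF.inl | with_reducible apply IntF.inr | with_reducible_and_instances apply IntF.mul | with_reducible_and_instances apply IntF.inv | with_reducible_and_instances apply IntF.add | with_reducible_and_instances apply IntF.sub | with_reducible_and_instances apply IntF.neg | with_reducible_and_instances apply IntF.smul | with_reducible apply Int.fin | with_reducible apply IntF.sep | with_reducible apply IntF.lam | with_reducible apply IntF.insert | with_reducible apply IntF.singleton | with_reducible apply IntF.union | with_reducible apply IntF.iimage | with_reducible apply IntF.ite | with_reducible apply IntF.the | with_reducible apply IntF.irec | with_reducible apply IntF.succ | with_reducible apply IntF.val | with_reducible apply IntF.mk | (with_reducible refine Int.comp ?_ ?_; assumption) | (with_reducible refine Int.comp₂ ?_ ?_ ?_; assumption) | (with_reducible refine Int.comp₃ ?_ ?_ ?_ ?_; assumption) | (with_reducible refine Int.comp₄ ?_ ?_ ?_ ?_ ?_; assumption)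 | (with_reducible refine IntF.comp ?_ ?_; assumption) | (with_reducible refine IntF.comp₂ ?_ ?_ ?_; assumption) | (with_reducible refine IntF.comp₃ ?_ ?_ ?_ ?_; assumption) | with_reducible apply IntF.pair))

variable (Z) in
/-- The symmetric system. -/
noncomputable def SQ : SymSys M (PP M X) (Gm Z) (LQ M X) where
  smul_le π p q h := ⟨(SS Z).smul_le π h.1, fun c hc => by
    obtain ⟨n, x⟩ := c
    exact mem_smulq.2 (h.2 _ (mem_smulq.1 hc))⟩
  U := UQ
  int_U := int_UQ
  nonempty := ⟨(⟨∅, IFin.empty⟩, ⟨∅, IFin.empty⟩)⟩
  one l := ⟨(SS Z).one l.1, fun b _ x => by rw [rho_one]⟩
  mul l a b ha hb := ⟨(SS Z).mul l.1 a b ha.1 hb.1, fun c hc x => by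
    rw [rho_comp, ← ha.2 c hc, ← hb.2 c hc]⟩
  inv l a ha := ⟨(SS Z).inv l.1 a ha.1, fun c hc x => by
    have h := ha.2 c hc (rhoi a x)
    rw [rho_rhoi] at h
    rw [rho_inv]
    exact h.symm⟩
  dir l l' := by
    refine ⟨(fsu l.1 l'.1, ⟨l.2.1 ∪ l'.2.1, l.2.2.union l'.2.2⟩), fun a ha => ⟨⟨fun c hc => ?_,
      fun b hb => ?_⟩, fun c hc => ?_, fun b hb => ?_⟩⟩
    · exact ha.1 c (mem_union.2 (Or.inl hc))
    · exact ha.2 b (mem_union.2 (Or.inl hb))
    · exact ha.1 c (mem_union.2 (Or.inr hc))
    · exact ha.2 b (mem_union.2 (Or.inr hb))
  conj π l := by
    have hm : IntF M (fun b => mb π b) := by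
      have h := int_mb (Z := Z)
      (repeat' (first | with_reducible exact IntF.id | with_reducible exact IntF.fst' | with_reducible exact IntF.snd' | with_reducible exact IntF.const _ | with_reducible exact Int.const _ | assumption | with_reducible apply Int.and | with_reducible apply Int.or | with_reducible apply Int.not | with_reducible apply Int.imp | with_reducible apply Int.iff | with_reducible apply Int.ne | with_reducible apply Int.eq | with_reducible apply Int.mem | with_reducible apply Int.subset | with_reducible apply Int.ltN | with_reducible apply Int.leN | with_reducible_and_instances apply Int.le | with_reducible_and_instances apply Int.lt | with_reducible apply Int.all | with_reducible apply Int.ex | with_reducible apply IntF.fst | with_reducible apply IntF.snd | with_reducible apply IntF.app | with_reducible apply IntF.inl | with_reducible apply IntF.inr | with_reducible_and_instances apply IntF.mul | with_reducible_and_instances apply IntF.inv | with_reducible_and_instances apply IntF.add | with_reducible_and_instances apply IntF.sub | with_reducible_and_instances apply IntF.neg | with_reducible_and_instances apply IntF.smul | with_reducible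 apply Int.fin | with_reducible apply IntF.sep | with_reducible apply IntF.lam | with_reducible apply IntF.insert | with_reducible apply IntF.singleton | with_reducible apply IntF.union | with_reducible apply IntF.iimage | with_reducible apply IntF.ite | with_reducible apply IntF.the | with_reducible apply IntF.irec | with_reducible apply IntF.succ | with_reducible apply IntF.val | with_reducible apply IntF.mk | (with_reducible refine Int.comp ?_ ?_; assumption) | (with_reducible refine Int.comp₂ ?_ ?_ ?_; assumption) | (with_reducible refine Int.comp₃ ?_ ?_ ?_ ?_; assumption) | (with_reducible refine Int.comp₄ ?_ ?_ ?_ ?_ ?_; assumption) | (with_reducible refine IntF.comp ?_ ?_; assumption) | (with_reducible refine IntF.comp₂ ?_ ?_ ?_; assumption) | (with_reducible refine IntF.comp₃ ?_ ?_ ?_ ?_; assumption) | with_reducible apply IntF.pair))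
    obtain ⟨l', h'⟩ := (SS Z).conj π l.1
    refine ⟨(l', ⟨iimage (fun b => mb π b) l.2.1, l.2.2.image hm⟩), fun a ha =>
      ⟨h' a ha.1, fun b hb x => ?_⟩⟩
    have h1 := ha.2 (mb π b) ((mem_iimage hm).2 ⟨b, hb, rfl⟩) ((H310M.rho) π x)
    rw [mem_mb, mem_mb, rhoi_rho] at h1
    rw [rho_comp, rho_comp, rho_inv]
    exact h1

theorem SQ_U {l : LQ M X} {π : Gm Z} : (SQ Z).U l π ↔ UQ l π := Iff.rfl

theorem rho_of_UU {E : FS M X} {π : Gm Z} (h : UU E π) {i : X} (hi : i ∈ E.1) : (H310M.rho) π i = i :=
  rho_of_U (Z := Z) h hi

theorem ts_of_UU {E : FS M X} {π : Gm Z} (h : UU E π) {i : X} (hi : i ∈ E.1) (t : TS M) :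
    ts π i t = t := ts_of_U (Z := Z) h hi t

variable (M X) in
/-- The support of one element. -/
noncomputable def lq1 (i : X) : LQ M X := (fs1 i, ⟨∅, IFin.empty⟩)

variable (M X) in
/-- The support of one set. -/
noncomputable def lqb (b : IPow M X) : LQ M X := (⟨∅, IFin.empty⟩, ⟨{b}, IFin.singleton b⟩)

theorem mb_of_U {b : IPow M X} {π : Gm Z} {l : LQ M X} (h : UQ l π) (hb : b ∈ l.2.1) :
    mb π b = b := IPow.ext' fun x => by
  rw [mem_mb, h.2 b hb, rho_rhoi]

theorem ts_inv (π : Gm Z) (i : X) (t : TS M) : ts π⁻¹ ((H310M.rho) π i) (ts π i t) = t := by
  refine IPow.ext' ?_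
  rintro ⟨k, d⟩
  rw [mem_ts, rho_inv, rhoi_rho, sigi_inv]
  exact mem_ts_sig

/-! ### Families in the extension -/

section ext

variable {G : Set (PP M X)} (hG : IsGen M G)

theorem exists_aa : ∃ b : X × TS M → NN (SQ Z) hG,
    EqFam hG (fun (π : Gm Z) (q : X × TS M) => ((H310M.rho) π q.1, ts π q.1 q.2)) b ∧
    ∀ q w, Mem w (b q) ↔ ∃ (k : INat M) (r : PP M X), r ∈ G ∧
      (∃ d, (k, d) ∈ q.2 ∧ (q.1, (k, d)) ∈ r.1.1) ∧ w = nn (SQ Z) hG k := by
  refine EqFam.setG (ef_nn hG) (Y := fun r k (q : X × TS M) => ∃ d, (k, d) ∈ q.2 ∧ (q.1, (k, d)) ∈ r.1.1)
    (by (repeat' (first | with_reducible exact IntF.id | with_reducible exact IntF.fst' | with_reducible exact IntF.snd' | with_reducible exact IntF.const _ | with_reducible exact Int.const _ | assumption | with_reducible apply Int.and | with_reducible apply Int.or | with_reducible apply Int.not | with_reducible apply Int.imp | with_reducible apply Int.iff | with_reducible apply Int.ne | with_reducible apply Int.eq | with_reducible apply Int.mem | with_reducible apply Int.subset | with_reducible apply Int.ltN | with_reducible apply Int.leN | with_reducible_and_instances apply Int.le | with_reducible_and_instances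 apply Int.lt | with_reducible apply Int.all | with_reducible apply Int.ex | with_reducible apply IntF.fst | with_reducible apply IntF.snd | with_reducible apply IntF.app | with_reducible apply IntF.inl | with_reducible apply IntF.inr | with_reducible_and_instances apply IntF.mul | with_reducible_and_instances apply IntF.inv | with_reducible_and_instances apply IntF.add | with_reducible_and_instances apply IntF.sub | with_reducible_and_instances apply IntF.neg | with_reducible_and_instances apply IntF.smul | with_reducible apply Int.fin | with_reducible apply IntF.sep | with_reducible apply IntF.lam | with_reducible apply IntF.insert | with_reducible apply IntF.singleton | with_reducible apply IntF.union | with_reducible apply IntF.iimage | with_reducible apply IntF.ite | with_reducible apply IntF.the | with_reducible apply IntF.irec | with_reducible apply IntF.succ | with_reducible apply IntF.val | with_reducible apply IntF.mk | (with_reducible refine Int.comp ?_ ?_; assumption) | (with_reducible refine Int.comp₂ ?_ ?_ ?_; assumption) | (with_reducible refine Int.comp₃ ?_ ?_ ?_ ?_; assumption) | (with_reducible refine Int.comp₄ ?_ ?_ ?_ ?_ ?_; assumption)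 | (with_reducible refine IntF.comp ?_ ?_; assumption) | (with_reducible refine IntF.comp₂ ?_ ?_ ?_; assumption) | (with_reducible refine IntF.comp₃ ?_ ?_ ?_ ?_; assumption) | with_reducible apply IntF.pair))) (fun π r k q h => ?_) (fun π q => ?_) fun q => ?_
  · obtain ⟨d, h1, h2⟩ := h
    refine ⟨(sig π (q.1, (k, d))).2.2, mem_ts_sig.2 h1, ?_⟩
    change ((H310M.rho) π q.1, (k, (sig π (q.1, (k, d))).2.2)) ∈ (π • r.1).1
    rw [cell_eq, mem_smul', sigi_sig]
    exact h2
  · exact Prod.ext (rhoi_rho π q.1) (ts_inv π q.1 q.2)
  · refine ⟨lq1 M X q.1, fun π hπ => ?_⟩
    have h1 := hπ.1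
    refine Prod.ext (rho_of_UU h1 (mem_fs1.2 rfl)) (ts_of_UU h1 (mem_fs1.2 rfl) _)

variable (Z) in
/-- The elements of the atoms. -/
noncomputable def aa (i : X) (t : TS M) : NN (SQ Z) hG := (exists_aa (Z := Z) hG).choose (i, t)

theorem ef_aa : EqFam hG (fun (π : Gm Z) (q : X × TS M) => ((H310M.rho) π q.1, ts π q.1 q.2))
    (fun q => aa Z hG q.1 q.2) := (exists_aa (Z := Z) hG).choose_spec.1

theorem mem_aa {i : X} {t : TS M} {k : INat M} : Mem (nn (SQ Z) hG k) (aa Z hG i t) ↔
    ∃ r : PP M X, r ∈ G ∧ ∃ d, (k, d) ∈ t ∧ (i, (k, d)) ∈ r.1.1 := by
  refine ((exists_aa (Z := Z) hG).choose_spec.2 (i, t) _).trans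
    ⟨?_, fun ⟨r, h1, h2⟩ => ⟨k, r, h1, h2, rfl⟩⟩
  rintro ⟨k', r, h1, h2, h3⟩
  obtain rfl := (nn_inj hG).1 h3
  exact ⟨r, h1, h2⟩

theorem exists_cc : ∃ b : X → NN (SQ Z) hG, EqFam hG (fun (π : Gm Z) x => (H310M.rho) π x) b ∧
    ∀ x w, Mem w (b x) ↔ ∃ q : X × TS M, q.1 = x ∧ w = aa Z hG q.1 q.2 := by
  refine EqFam.sets (ef_aa hG) (R := fun x q => q.1 = x) (by (repeat' (first | with_reducible exact IntF.id | with_reducible exact IntF.fst' | with_reducible exact IntF.snd' | with_reducible exact IntF.const _ | with_reducible exact Int.const _ | assumption | with_reducible apply Int.and | with_reducible apply Int.or | with_reducible apply Int.not | with_reducible apply Int.imp | with_reducible apply Int.iff | with_reducible apply Int.ne | with_reducible apply Int.eq | with_reducible apply Int.mem | with_reducible apply Int.subset | with_reducible apply Int.ltN | with_reducible apply Int.leN | with_reducible_and_instances apply Int.le | with_reducible_and_instances apply Int.lt | with_reducible apply Int.all | with_reducible apply Int.ex | with_reducible apply IntF.fst | with_reducible apply IntF.snd | with_reducible apply IntF.app | with_reducible apply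 IntF.inl | with_reducible apply IntF.inr | with_reducible_and_instances apply IntF.mul | with_reducible_and_instances apply IntF.inv | with_reducible_and_instances apply IntF.add | with_reducible_and_instances apply IntF.sub | with_reducible_and_instances apply IntF.neg | with_reducible_and_instances apply IntF.smul | with_reducible apply Int.fin | with_reducible apply IntF.sep | with_reducible apply IntF.lam | with_reducible apply IntF.insert | with_reducible apply IntF.singleton | with_reducible apply IntF.union | with_reducible apply IntF.iimage | with_reducible apply IntF.ite | with_reducible apply IntF.the | with_reducible apply IntF.irec | with_reducible apply IntF.succ | with_reducible apply IntF.val | with_reducible apply IntF.mk | (with_reducible refine Int.comp ?_ ?_; assumption) | (with_reducible refine Int.comp₂ ?_ ?_ ?_; assumption) | (with_reducible refine Int.comp₃ ?_ ?_ ?_ ?_; assumption) | (with_reducible refine Int.comp₄ ?_ ?_ ?_ ?_ ?_; assumption) | (with_reducible refine IntF.comp ?_ ?_; assumption) | (with_reducible refine IntF.comp₂ ?_ ?_ ?_; assumption) | (with_reducible refine IntF.comp₃ ?_ ?_ ?_ ?_; assumption) | with_reducible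 apply IntF.pair))) (fun π q x h => ?_)
    (fun π x => rhoi_rho π x) fun x => ⟨lq1 M X x, fun π hπ => ?_⟩
  · change (H310M.rho) π q.1 = (H310M.rho) π x
    rw [h]
  · exact rho_of_UU hπ.1 (mem_fs1.2 rfl)

variable (Z) in
/-- The atoms. -/
noncomputable def ca (i : X) : NN (SQ Z) hG := (exists_cc (Z := Z) hG).choose i

theorem ef_ca : EqFam hG (fun (π : Gm Z) x => (H310M.rho) π x) (fun x => ca Z hG x) :=
  (exists_cc (Z := Z) hG).choose_spec.1

theorem mem_ca {i : X} {w : NN (SQ Z) hG} : Mem w (ca Z hG i) ↔ ∃ t, w = aa Z hG i t := by
  refine ((exists_cc (Z := Z) hG).choose_spec.2 i w).trans ?_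
  constructor
  · rintro ⟨q, rfl, h⟩
    exact ⟨q.2, h⟩
  · rintro ⟨t, h⟩
    exact ⟨(i, t), rfl, h⟩

theorem exists_db : ∃ b : IPow M X → NN (SQ Z) hG, EqFam hG (fun (π : Gm Z) s => mb π s) b ∧
    ∀ s w, Mem w (b s) ↔ ∃ x, x ∈ s ∧ w = ca Z hG x := by
  refine EqFam.sets (ef_ca hG) (R := fun s x => x ∈ s) (by (repeat' (first | with_reducible exact IntF.id | with_reducible exact IntF.fst' | with_reducible exact IntF.snd' | with_reducible exact IntF.const _ | with_reducible exact Int.const _ | assumption | with_reducible apply Int.and | with_reducible apply Int.or | with_reducible apply Int.not | with_reducible apply Int.imp | with_reducible apply Int.iff | with_reducible apply Int.ne | with_reducible apply Int.eq | with_reducible apply Int.mem | with_reducible apply Int.subset | with_reducible apply Int.ltN | with_reducible apply Int.leN | with_reducible_and_instances apply Int.le | with_reducible_and_instances apply Int.lt | with_reducible apply Int.all | with_reducible apply Int.ex | with_reducible apply IntF.fst | with_reducible apply IntF.snd | with_reducible apply IntF.app | with_reducible apply IntF.inl | with_reducible apply IntF.inr | with_reducible_and_instances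 apply IntF.mul | with_reducible_and_instances apply IntF.inv | with_reducible_and_instances apply IntF.add | with_reducible_and_instances apply IntF.sub | with_reducible_and_instances apply IntF.neg | with_reducible_and_instances apply IntF.smul | with_reducible apply Int.fin | with_reducible apply IntF.sep | with_reducible apply IntF.lam | with_reducible apply IntF.insert | with_reducible apply IntF.singleton | with_reducible apply IntF.union | with_reducible apply IntF.iimage | with_reducible apply IntF.ite | with_reducible apply IntF.the | with_reducible apply IntF.irec | with_reducible apply IntF.succ | with_reducible apply IntF.val | with_reducible apply IntF.mk | (with_reducible refine Int.comp ?_ ?_; assumption) | (with_reducible refine Int.comp₂ ?_ ?_ ?_; assumption) | (with_reducible refine Int.comp₃ ?_ ?_ ?_ ?_; assumption) | (with_reducible refine Int.comp₄ ?_ ?_ ?_ ?_ ?_; assumption) | (with_reducible refine IntF.comp ?_ ?_; assumption) | (with_reducible refine IntF.comp₂ ?_ ?_ ?_; assumption) | (with_reducible refine IntF.comp₃ ?_ ?_ ?_ ?_; assumption) | with_reducible apply IntF.pair))) (fun π x s h => ?_)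
    (fun π s => mb_inv_mb π s) fun s => ⟨lqb M X s, fun π hπ => mb_of_U hπ (by
      change s ∈ ({s} : IPow M (IPow M X))
      exact mem_singleton.2 rfl)⟩
  rw [mem_mb, rhoi_rho]
  exact h

variable (Z) in
/-- The sets of atoms. -/
noncomputable def db (s : IPow M X) : NN (SQ Z) hG := (exists_db (Z := Z) hG).choose s

theorem ef_db : EqFam hG (fun (π : Gm Z) s => mb π s) (fun s => db Z hG s) :=
  (exists_db (Z := Z) hG).choose_spec.1

theorem mem_db {s : IPow M X} {w : NN (SQ Z) hG} : Mem w (db Z hG s) ↔ ∃ x, x ∈ s ∧ w = ca Z hG x :=
  (exists_db (Z := Z) hG).choose_spec.2 s w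

theorem ca_inj {i j : X} : ca Z hG i = ca Z hG j ↔ i = j := by
  refine ⟨fun h => ?_, fun h => h ▸ rfl⟩
  by_contra hij
  have hI : Int M (fun q : INat M × INat M => q.2 = 0) := by (repeat' (first | with_reducible exact IntF.id | with_reducible exact IntF.fst' | with_reducible exact IntF.snd' | with_reducible exact IntF.const _ | with_reducible exact Int.const _ | assumption | with_reducible apply Int.and | with_reducible apply Int.or | with_reducible apply Int.not | with_reducible apply Int.imp | with_reducible apply Int.iff | with_reducible apply Int.ne | with_reducible apply Int.eq | with_reducible apply Int.mem | with_reducible apply Int.subset | with_reducible apply Int.ltN | with_reducible apply Int.leN | with_reducible_and_instances apply Int.le | with_reducible_and_instances apply Int.lt | with_reducible apply Int.all | with_reducible apply Int.ex | with_reducible apply IntF.fst | with_reducible apply IntF.snd | with_reducible apply IntF.app | with_reducible apply IntF.inl | with_reducible apply IntF.inr | with_reducible_and_instances apply IntF.mul | with_reducible_and_instances apply IntF.inv | with_reducible_and_instances apply IntF.add |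 with_reducible_and_instances apply IntF.sub | with_reducible_and_instances apply IntF.neg | with_reducible_and_instances apply IntF.smul | with_reducible apply Int.fin | with_reducible apply IntF.sep | with_reducible apply IntF.lam | with_reducible apply IntF.insert | with_reducible apply IntF.singleton | with_reducible apply IntF.union | with_reducible apply IntF.iimage | with_reducible apply IntF.ite | with_reducible apply IntF.the | with_reducible apply IntF.irec | with_reducible apply IntF.succ | with_reducible apply IntF.val | with_reducible apply IntF.mk | (with_reducible refine Int.comp ?_ ?_; assumption) | (with_reducible refine Int.comp₂ ?_ ?_ ?_; assumption) | (with_reducible refine Int.comp₃ ?_ ?_ ?_ ?_; assumption) | (with_reducible refine Int.comp₄ ?_ ?_ ?_ ?_ ?_; assumption) | (with_reducible refine IntF.comp ?_ ?_; assumption) | (with_reducible refine IntF.comp₂ ?_ ?_ ?_; assumption) | (with_reducible refine IntF.comp₃ ?_ ?_ ?_ ?_; assumption) | with_reducible apply IntF.pair))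
  have ht₀ : ∀ k d, (k, d) ∈ sep M (fun q : INat M × INat M => q.2 = 0) ↔ d = 0 :=
    fun k d => mem_sep hI
  obtain ⟨t, ht⟩ := (mem_ca hG (i := j)).1 (h ▸ (mem_ca hG).2
    ⟨sep M fun q : INat M × INat M => q.2 = 0, rfl⟩)
  have hne : ∀ (k : INat M) (d d' : INat M), ((i, (k, d)) : Cel M X) ≠ (j, (k, d')) := by
    intro k d d' h
    exact hij (congrArg Prod.fst h)
  have hval : ∀ (r r' : PP M X) (i' : X) (k d d' : INat M), r ∈ G → r' ∈ G →
      (i', (k, d)) ∈ r.1.1 → (i', (k, d')) ∈ r'.1.1 → d = d' := by
    intro r r' i' k d d' hr hr' h1 h2
    obtain ⟨q, -, h3, h4⟩ := hG.dir r r' hr hr'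
    exact q.1.2.1 _ _ _ _ (h3.1 _ h1) (h4.1 _ h2)
  obtain ⟨r, hr, k, h1 | h1⟩ := hG.dense (fun r : PP M X => ∃ k : INat M,
      ((i, (k, (0 : INat M).succ)) ∈ r.1.1 ∧ ∃ e, (k, e) ∈ t ∧ (j, (k, e)) ∈ r.1.1) ∨
      ((i, (k, (0 : INat M))) ∈ r.1.1 ∧ ¬ ∃ e, (k, e) ∈ t)) (by (repeat' (first | with_reducible exact IntF.id | with_reducible exact IntF.fst' | with_reducible exact IntF.snd' | with_reducible exact IntF.const _ | with_reducible exact Int.const _ | assumption | with_reducible apply Int.and | with_reducible apply Int.or | with_reducible apply Int.not | with_reducible apply Int.imp | with_reducible apply Int.iff | with_reducible apply Int.ne | with_reducible apply Int.eq | with_reducible apply Int.mem | with_reducible apply Int.subset | with_reducible apply Int.ltN | with_reducible apply Int.leN | with_reducible_and_instances apply Int.le | with_reducible_and_instances apply Int.lt | with_reducible apply Int.all | with_reducible apply Int.ex | with_reducible apply IntF.fst | with_reducible apply IntF.snd | with_reducible apply IntF.app | with_reducible apply IntF.inl | with_reducible apply IntF.inr | with_reducible_and_instances apply IntF.mul |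 with_reducible_and_instances apply IntF.inv | with_reducible_and_instances apply IntF.add | with_reducible_and_instances apply IntF.sub | with_reducible_and_instances apply IntF.neg | with_reducible_and_instances apply IntF.smul | with_reducible apply Int.fin | with_reducible apply IntF.sep | with_reducible apply IntF.lam | with_reducible apply IntF.insert | with_reducible apply IntF.singleton | with_reducible apply IntF.union | with_reducible apply IntF.iimage | with_reducible apply IntF.ite | with_reducible apply IntF.the | with_reducible apply IntF.irec | with_reducible apply IntF.succ | with_reducible apply IntF.val | with_reducible apply IntF.mk | (with_reducible refine Int.comp ?_ ?_; assumption) | (with_reducible refine Int.comp₂ ?_ ?_ ?_; assumption) | (with_reducible refine Int.comp₃ ?_ ?_ ?_ ?_; assumption) | (with_reducible refine Int.comp₄ ?_ ?_ ?_ ?_ ?_; assumption) | (with_reducible refine IntF.comp ?_ ?_; assumption) | (with_reducible refine IntF.comp₂ ?_ ?_ ?_; assumption) | (with_reducible refine IntF.comp₃ ?_ ?_ ?_ ?_; assumption) | with_reducible apply IntF.pair))) fun r => by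
    obtain ⟨k, hk⟩ := exists_free r.1
    by_cases he : ∃ e, (k, e) ∈ t
    · obtain ⟨e, he⟩ := he
      obtain ⟨q, hq, h4, h5⟩ := exists_add r.1 (hk i) (INat.succ (0 : INat M))
      obtain ⟨q', hq', h6, -⟩ := exists_add q (i := j) (k := k) (fun d hd => by
        rcases h5 _ hd with h7 | h7
        · exact hk _ _ h7
        · exact hne _ _ _ h7.symm) e
      exact ⟨(q', r.2), ⟨hq'.trans hq, le_rfl⟩, k, Or.inl ⟨hq' _ h4, e, he, h6⟩⟩
    · obtain ⟨q, hq, h4, -⟩ := exists_add r.1 (hk i) (0 : INat M)
      exact ⟨(q, r.2), ⟨hq, le_rfl⟩, k, Or.inr ⟨h4, he⟩⟩
  · obtain ⟨h1, e, h2, h3⟩ := h1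
    have h4 := (mem_aa (Z := Z) hG).2 ⟨r, hr, e, h2, h3⟩
    rw [← ht] at h4
    obtain ⟨r', hr', d, h5, h6⟩ := (mem_aa hG).1 h4
    rw [ht₀] at h5
    subst h5
    exact INat.succ_ne_zero _ (hval r r' i k _ _ hr hr' h1 h6)
  · have h4 := (mem_aa (Z := Z) hG).2 ⟨r, hr, 0, (ht₀ k 0).2 rfl, h1.1⟩
    rw [ht] at h4
    obtain ⟨r', hr', d, h5, h6⟩ := (mem_aa hG).1 h4
    exact h1.2 ⟨d, h5⟩

end ext

end Pool.Agent.Helper672.ZFA.Q301SF
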