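import Pool.Agent.Q301.UF.Id
import Pool.Agent.Q301.UF.Defs
import Pool.Agent.Q301.TM.TopG

/-!
# Generic ultrafilters: remainders of a discrete space
-/

set_option maxHeartbeats 1000000
set_option linter.all false
set_option synthInstance.maxSize 2000

namespace Pool.Agent.Q301.UF

open FirstOrder FirstOrder.Language
open Pool.Agent.Helper672.ZFA
open Pool.Agent.Helper672.Plain (LSet)
open Pool.Agent.Helper672.ZFA.H635 (toL plainN_ordPair plainN_graph plainN_opGraph)
open Pool.Agent.H310Cards (IsOmega IsFinite IsFun App IsInj IsNat IsPow)
open Pool.Agent.H310Top (IsTopology IsClosed IsCompact IsHausdorff)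
open Pool.Agent.H310 (FinP finP_iff finP_le finP_lt exists_BN mem_nat nat_iff appN finite_of_finP
  mem_cp extN exists_code instPEl)
open Pool.Agent.Q301.TM
open Pool.Agent.Helper672.ZFA.Q301SF (UD)

universe u u₁

attribute [local instance] toL instPEl

section

variable {N : Type u} [LSet.Structure N] [hM : IsModel N]

theorem exists_dom (α : Type u₁) [ITy N α] : ∃ (d : N) (e : α ≃ Helper672.Plain.El d), IntF N (fun a => e a) ∧
    IntF N (fun q => e.symm q) ∧ ∀ a, (e a).1 = code a := by
  have h1 : ∀ a : α, Helper672.Plain.Mem (code a) (dom N α) := fun a => (mem_dom (M := N)).2 ⟨a, rfl⟩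
  have h2 : ∀ q : Helper672.Plain.El (dom N α), ∃ a : α, code a = q.1 := fun q => (mem_dom (M := N)).1 q.2
  choose f hf using h2
  obtain ⟨g, hg⟩ : ∃ g : α → Helper672.Plain.El (dom N α), ∀ a, (g a).1 = code a := ⟨fun a => ⟨_, h1 a⟩, fun _ => rfl⟩
  have hI : IntF N g := by
    refine IntF.of_D (S := fun v => v 0 = v 1) (D.eqf (DF.var _) (DF.var _)) fun a b => ?_
    change code a = b.1 ↔ g a = b
    rw [← hg a]
    exact ⟨fun h => Subtype.ext h, fun h => h ▸ rfl⟩
  have hI' : IntF N f := by
    refine IntF.of_D (S := fun v => v 0 = v 1) (D.eqf (DF.var _) (DF.var _)) fun a b => ?_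
    change a.1 = code b ↔ f a = b
    rw [← hf a]
    exact ⟨fun h => ITy.inj (M := N) h, fun h => h ▸ rfl⟩
  exact ⟨dom N α, ⟨g, f, fun a => ITy.inj (M := N) ((hf _).trans (hg a)), fun q =>
    Subtype.ext ((hg _).trans (hf q))⟩, hI, hI', hg⟩

/-- Sets of pairs. -/
theorem exists_family {a : N} {p : IPow N (Helper672.Plain.El a) → Prop} (hp : Int N p) :
    ∃ s, ∀ u, Helper672.Plain.Mem u s ↔ ∃ U : IPow N (Helper672.Plain.El a), code (M := N) U = u ∧ p U := by
  refine ⟨code (sep N p), fun u => mem_cp.trans ⟨?_, ?_⟩⟩
  · rintro ⟨U, hU, rfl⟩
    exact ⟨U, rfl, (mem_sep hp).1 hU⟩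
  · rintro ⟨U, rfl, hU⟩
    exact ⟨U, (mem_sep hp).2 hU, rfl⟩

end

section

variable {N : Type u} [LSet.Structure N] [hM : IsModel N] {δ : Type u₁} [ITy N δ]
  {C : INat N × IPow N δ → Prop} (hC : UD N C)

include hC in
/-- A denumerable remainder. -/
theorem pos_rem {d : N} (e : δ ≃ Helper672.Plain.El d) (he : IntF N (fun x => e x)) (he' : IntF N (fun q => e.symm q))
    {t : N} (ht : IsPow t d) : ∃ y s, IsDenumerable y ∧ IsRemainder s y t d := by
  have hCI := hC.int
  obtain ⟨w, hw⟩ := exists_omega (N := N)
  obtain ⟨ν, hν, hν', -⟩ := omega_equiv hw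
  obtain ⟨k, θ, hθ, hθ', -⟩ := exists_dom (N := N) (δ ⊕ INat N)
  obtain ⟨l, hl, hle⟩ : ∃ l : δ → Helper672.Plain.El k, IntF N l ∧ ∀ x, l x = θ (Sum.inl x) :=
    ⟨fun x => θ (Sum.inl x), by (repeat' (first | with_reducible exact IntF.id | with_reducible exact IntF.fst' | with_reducible exact IntF.snd' | with_reducible exact IntF.const _ | with_reducible exact Int.const _ | assumption | with_reducible apply Int.and | with_reducible apply Int.or | with_reducible apply Int.not | with_reducible apply Int.imp | with_reducible apply Int.iff | with_reducible apply Int.ne | with_reducible apply Int.eq | with_reducible apply Int.mem | with_reducible apply Int.subset | with_reducible apply Int.ltN | with_reducible apply Int.leN | with_reducible_and_instances apply Int.le | with_reducible_and_instances apply Int.lt | with_reducible apply Int.all | with_reducible apply Int.ex | with_reducible apply IntF.fst | with_reducible apply IntF.snd | with_reducible apply IntF.app | with_reducible apply IntF.inl | with_reducible apply IntF.inr | with_reducible_and_instances apply IntF.mul | with_reducible_and_instances apply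 IntF.inv | with_reducible_and_instances apply IntF.add | with_reducible_and_instances apply IntF.sub | with_reducible_and_instances apply IntF.neg | with_reducible_and_instances apply IntF.smul | with_reducible apply Int.fin | with_reducible apply IntF.sep | with_reducible apply IntF.lam | with_reducible apply IntF.insert | with_reducible apply IntF.singleton | with_reducible apply IntF.union | with_reducible apply IntF.iimage | with_reducible apply IntF.ite | with_reducible apply IntF.the | with_reducible apply IntF.irec | with_reducible apply IntF.succ | with_reducible apply IntF.val | with_reducible apply IntF.mk | (with_reducible refine Int.comp ?_ ?_; assumption) | (with_reducible refine Int.comp₂ ?_ ?_ ?_; assumption) | (with_reducible refine Int.comp₃ ?_ ?_ ?_ ?_; assumption) | (with_reducible refine Int.comp₄ ?_ ?_ ?_ ?_ ?_; assumption) | (with_reducible refine IntF.comp ?_ ?_; assumption) | (with_reducible refine IntF.comp₂ ?_ ?_ ?_; assumption) | (with_reducible refine IntF.comp₃ ?_ ?_ ?_ ?_; assumption) | with_reducible apply IntF.pair)), fun _ => rfl⟩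
  obtain ⟨ρ, hρ, hρe⟩ : ∃ ρ : INat N → Helper672.Plain.El k, IntF N ρ ∧ ∀ x, ρ x = θ (Sum.inr x) :=
    ⟨fun x => θ (Sum.inr x), by (repeat' (first | with_reducible exact IntF.id | with_reducible exact IntF.fst' | with_reducible exact IntF.snd' | with_reducible exact IntF.const _ | with_reducible exact Int.const _ | assumption | with_reducible apply Int.and | with_reducible apply Int.or | with_reducible apply Int.not | with_reducible apply Int.imp | with_reducible apply Int.iff | with_reducible apply Int.ne | with_reducible apply Int.eq | with_reducible apply Int.mem | with_reducible apply Int.subset | with_reducible apply Int.ltN | with_reducible apply Int.leN | with_reducible_and_instances apply Int.le | with_reducible_and_instances apply Int.lt | with_reducible apply Int.all | with_reducible apply Int.ex | with_reducible apply IntF.fst | with_reducible apply IntF.snd | with_reducible apply IntF.app | with_reducible apply IntF.inl | with_reducible apply IntF.inr | with_reducible_and_instances apply IntF.mul | with_reducible_and_instances apply IntF.inv | with_reducible_and_instances apply IntF.add |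 with_reducible_and_instances apply IntF.sub | with_reducible_and_instances apply IntF.neg | with_reducible_and_instances apply IntF.smul | with_reducible apply Int.fin | with_reducible apply IntF.sep | with_reducible apply IntF.lam | with_reducible apply IntF.insert | with_reducible apply IntF.singleton | with_reducible apply IntF.union | with_reducible apply IntF.iimage | with_reducible apply IntF.ite | with_reducible apply IntF.the | with_reducible apply IntF.irec | with_reducible apply IntF.succ | with_reducible apply IntF.val | with_reducible apply IntF.mk | (with_reducible refine Int.comp ?_ ?_; assumption) | (with_reducible refine Int.comp₂ ?_ ?_ ?_; assumption) | (with_reducible refine Int.comp₃ ?_ ?_ ?_ ?_; assumption) | (with_reducible refine Int.comp₄ ?_ ?_ ?_ ?_ ?_; assumption) | (with_reducible refine IntF.comp ?_ ?_; assumption) | (with_reducible refine IntF.comp₂ ?_ ?_ ?_; assumption) | (with_reducible refine IntF.comp₃ ?_ ?_ ?_ ?_; assumption) | with_reducible apply IntF.pair)), fun _ => rfl⟩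
  have hcase : ∀ q : Helper672.Plain.El k, (∃ x, l x = q) ∨ ∃ n, ρ n = q := by
    intro q
    obtain ⟨c, rfl⟩ := θ.surjective q
    rcases c with x | n
    · exact Or.inl ⟨x, hle x⟩
    · exact Or.inr ⟨n, hρe n⟩
  have hli : ∀ x x', l x = l x' → x = x' := fun x x' h => by
    rw [hle, hle] at h
    exact Sum.inl.inj (θ.injective h)
  have hρi : ∀ x x', ρ x = ρ x' → x = x' := fun x x' h => by
    rw [hρe, hρe] at h
    exact Sum.inr.inj (θ.injective h)
  have hlρ : ∀ x n, l x ≠ ρ n := fun x n h => by
    rw [hle, hρe] at h
    cases θ.injective h
  -- the topology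
  have hTI : Int N (fun U : IPow N (Helper672.Plain.El k) => ∀ n, ρ n ∈ U → ∃ b : IPow N δ, C (n, b) ∧
      (∀ x, x ∈ b → l x ∈ U) ∧ ∀ m, C (m, b) → ρ m ∈ U) := by (repeat' (first | with_reducible exact IntF.id | with_reducible exact IntF.fst' | with_reducible exact IntF.snd' | with_reducible exact IntF.const _ | with_reducible exact Int.const _ | assumption | with_reducible apply Int.and | with_reducible apply Int.or | with_reducible apply Int.not | with_reducible apply Int.imp | with_reducible apply Int.iff | with_reducible apply Int.ne | with_reducible apply Int.eq | with_reducible apply Int.mem | with_reducible apply Int.subset | with_reducible apply Int.ltN | with_reducible apply Int.leN | with_reducible_and_instances apply Int.le | with_reducible_and_instances apply Int.lt | with_reducible apply Int.all | with_reducible apply Int.ex | with_reducible apply IntF.fst | with_reducible apply IntF.snd | with_reducible apply IntF.app | with_reducible apply IntF.inl | with_reducible apply IntF.inr | with_reducible_and_instances apply IntF.mul | with_reducible_and_instances apply IntF.inv | with_reducible_and_instances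 apply IntF.add | with_reducible_and_instances apply IntF.sub | with_reducible_and_instances apply IntF.neg | with_reducible_and_instances apply IntF.smul | with_reducible apply Int.fin | with_reducible apply IntF.sep | with_reducible apply IntF.lam | with_reducible apply IntF.insert | with_reducible apply IntF.singleton | with_reducible apply IntF.union | with_reducible apply IntF.iimage | with_reducible apply IntF.ite | with_reducible apply IntF.the | with_reducible apply IntF.irec | with_reducible apply IntF.succ | with_reducible apply IntF.val | with_reducible apply IntF.mk | (with_reducible refine Int.comp ?_ ?_; assumption) | (with_reducible refine Int.comp₂ ?_ ?_ ?_; assumption) | (with_reducible refine Int.comp₃ ?_ ?_ ?_ ?_; assumption) | (with_reducible refine Int.comp₄ ?_ ?_ ?_ ?_ ?_; assumption) | (with_reducible refine IntF.comp ?_ ?_; assumption) | (with_reducible refine IntF.comp₂ ?_ ?_ ?_; assumption) | (with_reducible refine IntF.comp₃ ?_ ?_ ?_ ?_; assumption) | with_reducible apply IntF.pair))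
  obtain ⟨τ, hτ⟩ := exists_family hTI
  have hop : ∀ u, Helper672.Plain.Mem u τ ↔ (∀ z, Helper672.Plain.Mem z u → Helper672.Plain.Mem z k) ∧ ∀ n, Helper672.Plain.Mem (ρ n).1 u → ∃ b : IPow N δ,
      C (n, b) ∧ (∀ x, x ∈ b → Helper672.Plain.Mem (l x).1 u) ∧ ∀ m, C (m, b) → Helper672.Plain.Mem (ρ m).1 u := by
    intro u
    rw [hτ]
    constructor
    · rintro ⟨U, rfl, hU⟩
      refine ⟨fun z hz => (mem_cpE.1 hz).1, fun n hn => ?_⟩
      obtain ⟨b, h1, h2, h3⟩ := hU n (mem_cpE'.1 hn)
      exact ⟨b, h1, fun x hx => mem_cpE'.2 (h2 x hx), fun m hm => mem_cpE'.2 (h3 m hm)⟩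
    · rintro ⟨h1, h2⟩
      obtain ⟨U, rfl, hU⟩ := exists_code h1
      refine ⟨U, rfl, fun n hn => ?_⟩
      obtain ⟨b, h3, h4, h5⟩ := h2 n ((hU _).1 hn)
      exact ⟨b, h3, fun x hx => (hU _).2 (h4 x hx), fun m hm => (hU _).2 (h5 m hm)⟩
  have htop : IsTopology τ k := by
    refine ⟨fun u hu z hz => ((hop u).1 hu).1 z hz, (hop k).2 ⟨fun _ h => h, fun n _ =>
      ⟨iuniv N δ, hC.univ n, fun x _ => (l x).2, fun m _ => (ρ m).2⟩⟩, fun u v w hu hv hw' => ?_,
      fun c w hc hw' => ?_⟩
    · rw [hop] at hu hv ⊢
      refine ⟨fun z hz => hu.1 z ((hw' z).1 hz).1, fun n hn => ?_⟩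
      obtain ⟨hn1, hn2⟩ := (hw' _).1 hn
      obtain ⟨b, h1, h2, h3⟩ := hu.2 n hn1
      obtain ⟨b', h4, h5, h6⟩ := hv.2 n hn2
      refine ⟨b ∩ b', hC.inter n b b' h1 h4, fun x hx => (hw' _).2 ?_, fun m hm => (hw' _).2 ?_⟩
      · exact ⟨h2 x (mem_inter.1 hx).1, h5 x (mem_inter.1 hx).2⟩
      · exact ⟨h3 m (hC.mono m _ _ hm fun x hx => (mem_inter.1 hx).1),
          h6 m (hC.mono m _ _ hm fun x hx => (mem_inter.1 hx).2)⟩
    · rw [hop]
      refine ⟨fun z hz => ?_, fun n hn => ?_⟩
      · obtain ⟨u, h1, h2⟩ := (hw' z).1 hz
        exact ((hop u).1 (hc u h1)).1 z h2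
      · obtain ⟨u, h1, h2⟩ := (hw' _).1 hn
        obtain ⟨b, h3, h4, h5⟩ := ((hop u).1 (hc u h1)).2 n h2
        exact ⟨b, h3, fun x hx => (hw' _).2 ⟨u, h1, h4 x hx⟩, fun m hm =>
          (hw' _).2 ⟨u, h1, h5 m hm⟩⟩
  -- the basic open sets
  have hO : ∀ A : IPow N δ, ∃ u, Helper672.Plain.Mem u τ ∧ (∀ x, Helper672.Plain.Mem (l x).1 u ↔ x ∈ A) ∧
      ∀ n, Helper672.Plain.Mem (ρ n).1 u ↔ C (n, A) := by
    intro A
    have hI : Int N (fun q : Helper672.Plain.El k => (∃ x, x ∈ A ∧ l x = q) ∨ ∃ n, C (n, A) ∧ ρ n = q) := by (repeat' (first | with_reducible exact IntF.id | with_reducible exact IntF.fst' | with_reducible exact IntF.snd' | with_reducible exact IntF.const _ | with_reducible exact Int.const _ | assumption | with_reducible apply Int.and | with_reducible apply Int.or | with_reducible apply Int.not | with_reducible apply Int.imp | with_reducible apply Int.iff | with_reducible apply Int.ne | with_reducible apply Int.eq | with_reducible apply Int.mem | with_reducible apply Int.subset | with_reducible apply Int.ltN | with_reducible apply Int.leN | with_reducible_and_instances apply Int.le | with_reducible_and_instances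 apply Int.lt | with_reducible apply Int.all | with_reducible apply Int.ex | with_reducible apply IntF.fst | with_reducible apply IntF.snd | with_reducible apply IntF.app | with_reducible apply IntF.inl | with_reducible apply IntF.inr | with_reducible_and_instances apply IntF.mul | with_reducible_and_instances apply IntF.inv | with_reducible_and_instances apply IntF.add | with_reducible_and_instances apply IntF.sub | with_reducible_and_instances apply IntF.neg | with_reducible_and_instances apply IntF.smul | with_reducible apply Int.fin | with_reducible apply IntF.sep | with_reducible apply IntF.lam | with_reducible apply IntF.insert | with_reducible apply IntF.singleton | with_reducible apply IntF.union | with_reducible apply IntF.iimage | with_reducible apply IntF.ite | with_reducible apply IntF.the | with_reducible apply IntF.irec | with_reducible apply IntF.succ | with_reducible apply IntF.val | with_reducible apply IntF.mk | (with_reducible refine Int.comp ?_ ?_; assumption) | (with_reducible refine Int.comp₂ ?_ ?_ ?_; assumption) | (with_reducible refine Int.comp₃ ?_ ?_ ?_ ?_; assumption) | (with_reducible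 refine Int.comp₄ ?_ ?_ ?_ ?_ ?_; assumption) | (with_reducible refine IntF.comp ?_ ?_; assumption) | (with_reducible refine IntF.comp₂ ?_ ?_ ?_; assumption) | (with_reducible refine IntF.comp₃ ?_ ?_ ?_ ?_; assumption) | with_reducible apply IntF.pair))
    obtain ⟨u, hu⟩ := exists_set hI
    have h1 : ∀ x, Helper672.Plain.Mem (l x).1 u ↔ x ∈ A := by
      intro x
      rw [hu]
      constructor
      · rintro ⟨_, ⟨x', h1, h2⟩ | ⟨n, -, h2⟩⟩
        · exact hli x' x h2 ▸ h1
        · exact absurd h2.symm (hlρ x n)
      · exact fun h => ⟨(l x).2, Or.inl ⟨x, h, rfl⟩⟩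
    have h2 : ∀ n, Helper672.Plain.Mem (ρ n).1 u ↔ C (n, A) := by
      intro n
      rw [hu]
      constructor
      · rintro ⟨_, ⟨x', h1, h2⟩ | ⟨n', h1, h2⟩⟩
        · exact absurd h2 (hlρ x' n)
        · exact hρi n' n h2 ▸ h1
      · exact fun h => ⟨(ρ n).2, Or.inr ⟨n, h, rfl⟩⟩
    refine ⟨u, (hop u).2 ⟨fun z hz => ((hu z).1 hz).1, fun n hn => ⟨A, (h2 n).1 hn, fun x hx =>
      (h1 x).2 hx, fun m hm => (h2 m).2 hm⟩⟩, h1, h2⟩
  have hnd : ∀ n A, C (n, A) → ¬ C (n, iuniv N δ \ A) := by
    intro n A h1 h2
    obtain ⟨x, h3, h4⟩ := hC.not_disj h1 h2
    exact (mem_sdiff.1 h4).2 h3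
  have hhaus : IsHausdorff τ k := by
    have key : ∀ q q' : Helper672.Plain.El k, q ≠ q' → ∃ A, ∀ u u', (∀ x, Helper672.Plain.Mem (l x).1 u ↔ x ∈ A) →
        (∀ n, Helper672.Plain.Mem (ρ n).1 u ↔ C (n, A)) → (∀ x, Helper672.Plain.Mem (l x).1 u' ↔ x ∈ iuniv N δ \ A) →
        (∀ n, Helper672.Plain.Mem (ρ n).1 u' ↔ C (n, iuniv N δ \ A)) → Helper672.Plain.Mem q.1 u ∧ Helper672.Plain.Mem q'.1 u' := by
      have hsg : ∀ n x, C (n, iuniv N δ \ {x}) := fun n x =>
        (hC.ultra n {x}).resolve_left fun h => hC.npr n _ h (IFin.singleton x)
      intro q q' hne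
      rcases hcase q with ⟨x, rfl⟩ | ⟨n, rfl⟩ <;> rcases hcase q' with ⟨x', rfl⟩ | ⟨n', rfl⟩
      · refine ⟨{x}, fun u u' h1 h2 h3 h4 => ⟨(h1 x).2 (mem_singleton.2 rfl), (h3 x').2
          (mem_sdiff.2 ⟨by simp, fun h => hne ?_⟩)⟩⟩
        rw [mem_singleton.1 h]
      · exact ⟨{x}, fun u u' h1 h2 h3 h4 => ⟨(h1 x).2 (mem_singleton.2 rfl), (h4 n').2 (hsg n' x)⟩⟩
      · refine ⟨iuniv N δ \ {x'}, fun u u' h1 h2 h3 h4 => ⟨(h2 n).2 (hsg n x'), (h3 x').2
          (mem_sdiff.2 ⟨by simp, fun h => (mem_sdiff.1 h).2 (mem_singleton.2 rfl)⟩)⟩⟩
      · obtain ⟨A, h5, h6⟩ := hC.sep n n' fun h => hne (by rw [h])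
        exact ⟨A, fun u u' h1 h2 h3 h4 => ⟨(h2 n).2 h5, (h4 n').2 ((hC.ultra n' A).resolve_left h6)⟩⟩
    intro q q' hq hq' hne
    obtain ⟨A, hA⟩ := key ⟨q, hq⟩ ⟨q', hq'⟩ fun h => hne (congrArg Subtype.val h)
    obtain ⟨u, h1, h2, h3⟩ := hO A
    obtain ⟨u', h4, h5, h6⟩ := hO (iuniv N δ \ A)
    obtain ⟨h7, h8⟩ := hA u u' h2 h3 h5 h6
    refine ⟨u, u', h1, h4, h7, h8, fun z hz hz' => ?_⟩
    obtain ⟨z, rfl⟩ : ∃ z' : Helper672.Plain.El k, z'.1 = z := ⟨⟨z, htop.sub u h1 z hz⟩, rfl⟩
    rcases hcase z with ⟨x, rfl⟩ | ⟨n, rfl⟩
    · exact (mem_sdiff.1 ((h5 x).1 hz')).2 ((h2 x).1 hz)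
    · exact hnd n A ((h3 n).1 hz) ((h6 n).1 hz')
  have hcomp : IsCompact τ k := by
    intro c hc hcov
    have hI : Int N (fun b : IPow N δ => ∃ F : IPow N (Helper672.Plain.El c), IFin F ∧
        (∀ x, x ∈ b → ∃ u : Helper672.Plain.El c, u ∈ F ∧ Helper672.Plain.Mem (l x).1 u.1) ∧
        ∀ m, C (m, b) → ∃ u : Helper672.Plain.El c, u ∈ F ∧ Helper672.Plain.Mem (ρ m).1 u.1) := by (repeat' (first | with_reducible apply memPE | with_reducible apply memPE' | with_reducible apply memPE'' | with_reducible apply memCode | with_reducible apply memCodeP | with_reducible apply memCode₂ | with_reducible apply eqPE | with_reducible apply eqPE' | with_reducible exact IntF.id | with_reducible exact IntF.fst' | with_reducible exact IntF.snd' | with_reducible exact IntF.const _ | with_reducible exact Int.const _ | assumption | with_reducible apply Int.and | with_reducible apply Int.or | with_reducible apply Int.not | with_reducible apply Int.imp | with_reducible apply Int.iff | with_reducible apply Int.ne | with_reducible apply Int.eq | with_reducible apply Int.mem | with_reducible apply Int.subset | with_reducible apply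 Int.ltN | with_reducible apply Int.leN | with_reducible_and_instances apply Int.le | with_reducible_and_instances apply Int.lt | with_reducible apply Int.all | with_reducible apply Int.ex | with_reducible apply IntF.fst | with_reducible apply IntF.snd | with_reducible apply IntF.app | with_reducible apply IntF.inl | with_reducible apply IntF.inr | with_reducible_and_instances apply IntF.mul | with_reducible_and_instances apply IntF.inv | with_reducible_and_instances apply IntF.add | with_reducible_and_instances apply IntF.sub | with_reducible_and_instances apply IntF.neg | with_reducible_and_instances apply IntF.smul | with_reducible apply Int.fin | with_reducible apply IntF.sep | with_reducible apply IntF.lam | with_reducible apply IntF.insert | with_reducible apply IntF.singleton | with_reducible apply IntF.union | with_reducible apply IntF.iimage | with_reducible apply IntF.ite | with_reducible apply IntF.the | with_reducible apply IntF.irec | with_reducible apply IntF.succ | with_reducible apply IntF.val | with_reducible apply IntF.mk | (with_reducible refine Int.comp ?_ ?_; assumption) | (with_reducible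 refine Int.comp₂ ?_ ?_ ?_; assumption) | (with_reducible refine Int.comp₃ ?_ ?_ ?_ ?_; assumption) | (with_reducible refine Int.comp₄ ?_ ?_ ?_ ?_ ?_; assumption) | (with_reducible refine IntF.comp ?_ ?_; assumption) | (with_reducible refine IntF.comp₂ ?_ ?_ ?_; assumption) | (with_reducible refine IntF.comp₃ ?_ ?_ ?_ ?_; assumption) | with_reducible apply IntF.pair))
    have hun : ∀ A B : IPow N δ, (∃ F : IPow N (Helper672.Plain.El c), IFin F ∧
        (∀ x, x ∈ A → ∃ u : Helper672.Plain.El c, u ∈ F ∧ Helper672.Plain.Mem (l x).1 u.1) ∧
        ∀ m, C (m, A) → ∃ u : Helper672.Plain.El c, u ∈ F ∧ Helper672.Plain.Mem (ρ m).1 u.1) → (∃ F : IPow N (Helper672.Plain.El c), IFin F ∧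
        (∀ x, x ∈ B → ∃ u : Helper672.Plain.El c, u ∈ F ∧ Helper672.Plain.Mem (l x).1 u.1) ∧
        ∀ m, C (m, B) → ∃ u : Helper672.Plain.El c, u ∈ F ∧ Helper672.Plain.Mem (ρ m).1 u.1) → (∃ F : IPow N (Helper672.Plain.El c), IFin F ∧
        (∀ x, x ∈ A ∪ B → ∃ u : Helper672.Plain.El c, u ∈ F ∧ Helper672.Plain.Mem (l x).1 u.1) ∧
        ∀ m, C (m, A ∪ B) → ∃ u : Helper672.Plain.El c, u ∈ F ∧ Helper672.Plain.Mem (ρ m).1 u.1) := by
      rintro A B ⟨F, h1, h2, h3⟩ ⟨F', h4, h5, h6⟩
      refine ⟨F ∪ F', h1.union h4, fun x hx => ?_, fun m hm => ?_⟩
      · rcases mem_union.1 hx with hx | hx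
        · obtain ⟨u, h7, h8⟩ := h2 x hx
          exact ⟨u, mem_union.2 (Or.inl h7), h8⟩
        · obtain ⟨u, h7, h8⟩ := h5 x hx
          exact ⟨u, mem_union.2 (Or.inr h7), h8⟩
      · rcases hC.prime hm with hm | hm
        · obtain ⟨u, h7, h8⟩ := h3 m hm
          exact ⟨u, mem_union.2 (Or.inl h7), h8⟩
        · obtain ⟨u, h7, h8⟩ := h6 m hm
          exact ⟨u, mem_union.2 (Or.inr h7), h8⟩
    have key := hC.ideal hI ?_ hun ?_ ?_
    · obtain ⟨F, h1, h2, h3⟩ := key
      refine ⟨code F, finite_code h1, fun u hu => (mem_cpE.1 hu).1, fun z hz => ?_⟩
      rcases hcase ⟨z, hz⟩ with ⟨x, hx⟩ | ⟨n, hn⟩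
      · obtain ⟨u, h4, h5⟩ := h2 x (by simp)
        rw [hx] at h5
        exact ⟨u.1, mem_cpE'.2 h4, h5⟩
      · obtain ⟨u, h4, h5⟩ := h3 n (hC.univ n)
        rw [hn] at h5
        exact ⟨u.1, mem_cpE'.2 h4, h5⟩
    · rintro A B ⟨F, h1, h2, h3⟩ hAB
      exact ⟨F, h1, fun x hx => h2 x (hAB x hx), fun m hm => h3 m (hC.mono m _ _ hm hAB)⟩
    · intro A hA
      refine IFin.ind (p := fun A : IPow N δ => ∃ F : IPow N (Helper672.Plain.El c), IFin F ∧
        (∀ x, x ∈ A → ∃ u : Helper672.Plain.El c, u ∈ F ∧ Helper672.Plain.Mem (l x).1 u.1) ∧
        ∀ m, C (m, A) → ∃ u : Helper672.Plain.El c, u ∈ F ∧ Helper672.Plain.Mem (ρ m).1 u.1) hI ?_ ?_ A hA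
      · exact ⟨∅, IFin.empty, fun x hx => absurd hx (by simp), fun m hm =>
          absurd IFin.empty (hC.npr m _ hm)⟩
      · intro A x hA' _ ih
        obtain ⟨u, h1, h2⟩ := hcov _ (l x).2
        obtain ⟨F, h3, h4, h5⟩ := ih
        refine ⟨insert ⟨u, h1⟩ F, h3.insert _, fun x' hx' => ?_, fun m hm =>
          absurd (hA'.insert x) (hC.npr m _ hm)⟩
        rcases mem_insert.1 hx' with rfl | hx'
        · exact ⟨⟨u, h1⟩, mem_insert.2 (Or.inl rfl), h2⟩
        · obtain ⟨u', h6, h7⟩ := h4 x' hx'
          exact ⟨u', mem_insert.2 (Or.inr h6), h7⟩
    · intro n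
      obtain ⟨u, h1, h2⟩ := hcov _ (ρ n).2
      obtain ⟨b, h3, h4, h5⟩ := ((hop u).1 (hc u h1)).2 n h2
      exact ⟨b, h3, {⟨u, h1⟩}, IFin.singleton _, fun x hx => ⟨⟨u, h1⟩, mem_singleton.2 rfl, h4 x hx⟩,
        fun m hm => ⟨⟨u, h1⟩, mem_singleton.2 rfl, h5 m hm⟩⟩
  -- the embeddings
  have hgI : IntF N (fun p : Helper672.Plain.El w => ρ (ν p)) := by (repeat' (first | with_reducible exact IntF.id | with_reducible exact IntF.fst' | with_reducible exact IntF.snd' | with_reducible exact IntF.const _ | with_reducible exact Int.const _ | assumption | with_reducible apply Int.and | with_reducible apply Int.or | with_reducible apply Int.not | with_reducible apply Int.imp | with_reducible apply Int.iff | with_reducible apply Int.ne | with_reducible apply Int.eq | with_reducible apply Int.mem | with_reducible apply Int.subset | with_reducible apply Int.ltN | with_reducible apply Int.leN | with_reducible_and_instances apply Int.le | with_reducible_and_instances apply Int.lt | with_reducible apply Int.all | with_reducible apply Int.ex | with_reducible apply IntF.fst | with_reducible apply IntF.snd | with_reducible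 apply IntF.app | with_reducible apply IntF.inl | with_reducible apply IntF.inr | with_reducible_and_instances apply IntF.mul | with_reducible_and_instances apply IntF.inv | with_reducible_and_instances apply IntF.add | with_reducible_and_instances apply IntF.sub | with_reducible_and_instances apply IntF.neg | with_reducible_and_instances apply IntF.smul | with_reducible apply Int.fin | with_reducible apply IntF.sep | with_reducible apply IntF.lam | with_reducible apply IntF.insert | with_reducible apply IntF.singleton | with_reducible apply IntF.union | with_reducible apply IntF.iimage | with_reducible apply IntF.ite | with_reducible apply IntF.the | with_reducible apply IntF.irec | with_reducible apply IntF.succ | with_reducible apply IntF.val | with_reducible apply IntF.mk | (with_reducible refine Int.comp ?_ ?_; assumption) | (with_reducible refine Int.comp₂ ?_ ?_ ?_; assumption) | (with_reducible refine Int.comp₃ ?_ ?_ ?_ ?_; assumption) | (with_reducible refine Int.comp₄ ?_ ?_ ?_ ?_ ?_; assumption) | (with_reducible refine IntF.comp ?_ ?_; assumption) | (with_reducible refine IntF.comp₂ ?_ ?_ ?_;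 assumption) | (with_reducible refine IntF.comp₃ ?_ ?_ ?_ ?_; assumption) | with_reducible apply IntF.pair))
  have hsI : Int N (fun U : IPow N (Helper672.Plain.El w) => ∃ v : Helper672.Plain.El τ, ∀ p : Helper672.Plain.El w, p ∈ U ↔ Helper672.Plain.Mem (ρ (ν p)).1 v.1) := by
    (repeat' (first | with_reducible apply memPE | with_reducible apply memPE' | with_reducible apply memPE'' | with_reducible apply memCode | with_reducible apply memCodeP | with_reducible apply memCode₂ | with_reducible apply eqPE | with_reducible apply eqPE' | with_reducible exact IntF.id | with_reducible exact IntF.fst' | with_reducible exact IntF.snd' | with_reducible exact IntF.const _ | with_reducible exact Int.const _ | assumption | with_reducible apply Int.and | with_reducible apply Int.or | with_reducible apply Int.not | with_reducible apply Int.imp | with_reducible apply Int.iff | with_reducible apply Int.ne | with_reducible apply Int.eq | with_reducible apply Int.mem | with_reducible apply Int.subset | with_reducible apply Int.ltN | with_reducible apply Int.leN | with_reducible_and_instances apply Int.le | with_reducible_and_instances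 apply Int.lt | with_reducible apply Int.all | with_reducible apply Int.ex | with_reducible apply IntF.fst | with_reducible apply IntF.snd | with_reducible apply IntF.app | with_reducible apply IntF.inl | with_reducible apply IntF.inr | with_reducible_and_instances apply IntF.mul | with_reducible_and_instances apply IntF.inv | with_reducible_and_instances apply IntF.add | with_reducible_and_instances apply IntF.sub | with_reducible_and_instances apply IntF.neg | with_reducible_and_instances apply IntF.smul | with_reducible apply Int.fin | with_reducible apply IntF.sep | with_reducible apply IntF.lam | with_reducible apply IntF.insert | with_reducible apply IntF.singleton | with_reducible apply IntF.union | with_reducible apply IntF.iimage | with_reducible apply IntF.ite | with_reducible apply IntF.the | with_reducible apply IntF.irec | with_reducible apply IntF.succ | with_reducible apply IntF.val | with_reducible apply IntF.mk | (with_reducible refine Int.comp ?_ ?_; assumption) | (with_reducible refine Int.comp₂ ?_ ?_ ?_; assumption) | (with_reducible refine Int.comp₃ ?_ ?_ ?_ ?_; assumption) | (with_reducible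 refine Int.comp₄ ?_ ?_ ?_ ?_ ?_; assumption) | (with_reducible refine IntF.comp ?_ ?_; assumption) | (with_reducible refine IntF.comp₂ ?_ ?_ ?_; assumption) | (with_reducible refine IntF.comp₃ ?_ ?_ ?_ ?_; assumption) | with_reducible apply IntF.pair))
  obtain ⟨s, hs⟩ := exists_family hsI
  refine ⟨w, s, ⟨w, id, hw, isMap_iff.2 IntF.id, Function.bijective_id⟩, τ, k, fun p => l (e.symm p),
    fun p => ρ (ν p), htop, hcomp, hhaus, ⟨isMap_iff.2 (by (repeat' (first | with_reducible exact IntF.id | with_reducible exact IntF.fst' | with_reducible exact IntF.snd' | with_reducible exact IntF.const _ | with_reducible exact Int.const _ | assumption | with_reducible apply Int.and | with_reducible apply Int.or | with_reducible apply Int.not | with_reducible apply Int.imp | with_reducible apply Int.iff | with_reducible apply Int.ne | with_reducible apply Int.eq | with_reducible apply Int.mem | with_reducible apply Int.subset | with_reducible apply Int.ltN | with_reducible apply Int.leN | with_reducible_and_instances apply Int.le | with_reducible_and_instances apply Int.lt | with_reducible apply Int.all | with_reducible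 apply Int.ex | with_reducible apply IntF.fst | with_reducible apply IntF.snd | with_reducible apply IntF.app | with_reducible apply IntF.inl | with_reducible apply IntF.inr | with_reducible_and_instances apply IntF.mul | with_reducible_and_instances apply IntF.inv | with_reducible_and_instances apply IntF.add | with_reducible_and_instances apply IntF.sub | with_reducible_and_instances apply IntF.neg | with_reducible_and_instances apply IntF.smul | with_reducible apply Int.fin | with_reducible apply IntF.sep | with_reducible apply IntF.lam | with_reducible apply IntF.insert | with_reducible apply IntF.singleton | with_reducible apply IntF.union | with_reducible apply IntF.iimage | with_reducible apply IntF.ite | with_reducible apply IntF.the | with_reducible apply IntF.irec | with_reducible apply IntF.succ | with_reducible apply IntF.val | with_reducible apply IntF.mk | (with_reducible refine Int.comp ?_ ?_; assumption) | (with_reducible refine Int.comp₂ ?_ ?_ ?_; assumption) | (with_reducible refine Int.comp₃ ?_ ?_ ?_ ?_; assumption) | (with_reducible refine Int.comp₄ ?_ ?_ ?_ ?_ ?_; assumption) | (with_reducible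 refine IntF.comp ?_ ?_; assumption) | (with_reducible refine IntF.comp₂ ?_ ?_ ?_; assumption) | (with_reducible refine IntF.comp₃ ?_ ?_ ?_ ?_; assumption) | with_reducible apply IntF.pair))), fun p p' h =>
      e.symm.injective (hli _ _ h), fun u => ?_⟩, fun v hv hz => ?_, ⟨isMap_iff.2 hgI, fun p p' h =>
      ν.injective (hρi _ _ h), fun u => ?_⟩, fun q => ?_⟩
  · rw [ht u]
    refine ⟨fun h => ⟨h, ?_⟩, fun h => h.1⟩
    have hvI : Int N (fun q : Helper672.Plain.El k => ∃ x, Helper672.Plain.Mem (e x).1 u ∧ l x = q) := by (repeat' (first | with_reducible apply memPE | with_reducible apply memPE' | with_reducible apply memPE'' | with_reducible apply memCode | with_reducible apply memCodeP | with_reducible apply memCode₂ | with_reducible apply eqPE | with_reducible apply eqPE' | with_reducible exact IntF.id | with_reducible exact IntF.fst' | with_reducible exact IntF.snd' | with_reducible exact IntF.const _ | with_reducible exact Int.const _ | assumption | with_reducible apply Int.and | with_reducible apply Int.or | with_reducible apply Int.not | with_reducible apply Int.imp | with_reducible apply Int.iff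 | with_reducible apply Int.ne | with_reducible apply Int.eq | with_reducible apply Int.mem | with_reducible apply Int.subset | with_reducible apply Int.ltN | with_reducible apply Int.leN | with_reducible_and_instances apply Int.le | with_reducible_and_instances apply Int.lt | with_reducible apply Int.all | with_reducible apply Int.ex | with_reducible apply IntF.fst | with_reducible apply IntF.snd | with_reducible apply IntF.app | with_reducible apply IntF.inl | with_reducible apply IntF.inr | with_reducible_and_instances apply IntF.mul | with_reducible_and_instances apply IntF.inv | with_reducible_and_instances apply IntF.add | with_reducible_and_instances apply IntF.sub | with_reducible_and_instances apply IntF.neg | with_reducible_and_instances apply IntF.smul | with_reducible apply Int.fin | with_reducible apply IntF.sep | with_reducible apply IntF.lam | with_reducible apply IntF.insert | with_reducible apply IntF.singleton | with_reducible apply IntF.union | with_reducible apply IntF.iimage | with_reducible apply IntF.ite | with_reducible apply IntF.the | with_reducible apply IntF.irec | with_reducible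 apply IntF.succ | with_reducible apply IntF.val | with_reducible apply IntF.mk | (with_reducible refine Int.comp ?_ ?_; assumption) | (with_reducible refine Int.comp₂ ?_ ?_ ?_; assumption) | (with_reducible refine Int.comp₃ ?_ ?_ ?_ ?_; assumption) | (with_reducible refine Int.comp₄ ?_ ?_ ?_ ?_ ?_; assumption) | (with_reducible refine IntF.comp ?_ ?_; assumption) | (with_reducible refine IntF.comp₂ ?_ ?_ ?_; assumption) | (with_reducible refine IntF.comp₃ ?_ ?_ ?_ ?_; assumption) | with_reducible apply IntF.pair))
    obtain ⟨v, hv⟩ := exists_set hvI
    refine ⟨v, (hop v).2 ⟨fun z hz => ((hv z).1 hz).1, fun n hn => ?_⟩, fun p => ?_⟩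
    · obtain ⟨_, x, -, h2⟩ := (hv _).1 hn
      exact absurd h2 (hlρ x n)
    · rw [hv]
      constructor
      · intro hp
        refine ⟨(l (e.symm p)).2, e.symm p, ?_, rfl⟩
        rwa [Equiv.apply_symm_apply]
      · rintro ⟨_, x, h1, h2⟩
        rwa [hli x _ h2, Equiv.apply_symm_apply] at h1
  · obtain ⟨z, hz⟩ := hz
    obtain ⟨z, rfl⟩ : ∃ z' : Helper672.Plain.El k, z'.1 = z := ⟨⟨z, htop.sub v hv z hz⟩, rfl⟩
    rcases hcase z with ⟨x, rfl⟩ | ⟨n, rfl⟩
    · refine ⟨e x, ?_⟩
      change Helper672.Plain.Mem (l (e.symm (e x))).1 v
      rwa [Equiv.symm_apply_apply]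
    · obtain ⟨b, h1, h2, -⟩ := ((hop v).1 hv).2 n hz
      obtain ⟨x, hx, -⟩ := hC.not_disj h1 h1
      refine ⟨e x, ?_⟩
      change Helper672.Plain.Mem (l (e.symm (e x))).1 v
      rw [Equiv.symm_apply_apply]
      exact h2 x hx
  · rw [hs u]
    constructor
    · rintro ⟨U, rfl, v, hv⟩
      exact ⟨fun z hz => (mem_cpE.1 hz).1, v.1, v.2, fun p => mem_cpE'.trans (hv p)⟩
    · rintro ⟨h1, v, hv, h2⟩
      obtain ⟨U, rfl, hU⟩ := exists_code h1
      exact ⟨U, rfl, ⟨v, hv⟩, fun p => (hU p).trans (h2 p)⟩
  · constructor
    · rintro ⟨i, rfl⟩ ⟨p, hp⟩
      exact hlρ _ _ hp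
    · intro h
      rcases hcase q with ⟨x, rfl⟩ | ⟨n, rfl⟩
      · exact absurd ⟨e x, congrArg l (e.symm_apply_apply x)⟩ h
      · exact ⟨ν.symm n, congrArg ρ (ν.apply_symm_apply n)⟩

end

section

variable {N : Type u} [LSet.Structure N] [hM : IsModel N] {τ k : N}

/-- The points of an open set. -/
noncomputable def su (k u : N) : IPow N (Helper672.Plain.El k) := sep N fun z : Helper672.Plain.El k => Helper672.Plain.Mem z.1 u

theorem mem_su {u : N} {z : Helper672.Plain.El k} : z ∈ su k u ↔ Helper672.Plain.Mem z.1 u := mem_sep (memI' _ _)

theorem int_su (k τ : N) : IntF N (fun u : Helper672.Plain.El τ => su k u.1) := by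
  unfold su
  (repeat' (first | with_reducible apply memPE | with_reducible apply memPE' | with_reducible apply memPE'' | with_reducible apply memCode | with_reducible apply memCodeP | with_reducible apply memCode₂ | with_reducible apply eqPE | with_reducible apply eqPE' | with_reducible exact IntF.id | with_reducible exact IntF.fst' | with_reducible exact IntF.snd' | with_reducible exact IntF.const _ | with_reducible exact Int.const _ | assumption | with_reducible apply Int.and | with_reducible apply Int.or | with_reducible apply Int.not | with_reducible apply Int.imp | with_reducible apply Int.iff | with_reducible apply Int.ne | with_reducible apply Int.eq | with_reducible apply Int.mem | with_reducible apply Int.subset | with_reducible apply Int.ltN | with_reducible apply Int.leN | with_reducible_and_instances apply Int.le | with_reducible_and_instances apply Int.lt | with_reducible apply Int.all | with_reducible apply Int.ex | with_reducible apply IntF.fst | with_reducible apply IntF.snd | with_reducible apply IntF.app | with_reducible apply IntF.inl | with_reducible apply IntF.inr | with_reducible_and_instances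 apply IntF.mul | with_reducible_and_instances apply IntF.inv | with_reducible_and_instances apply IntF.add | with_reducible_and_instances apply IntF.sub | with_reducible_and_instances apply IntF.neg | with_reducible_and_instances apply IntF.smul | with_reducible apply Int.fin | with_reducible apply IntF.sep | with_reducible apply IntF.lam | with_reducible apply IntF.insert | with_reducible apply IntF.singleton | with_reducible apply IntF.union | with_reducible apply IntF.iimage | with_reducible apply IntF.ite | with_reducible apply IntF.the | with_reducible apply IntF.irec | with_reducible apply IntF.succ | with_reducible apply IntF.val | with_reducible apply IntF.mk | (with_reducible refine Int.comp ?_ ?_; assumption) | (with_reducible refine Int.comp₂ ?_ ?_ ?_; assumption) | (with_reducible refine Int.comp₃ ?_ ?_ ?_ ?_; assumption) | (with_reducible refine Int.comp₄ ?_ ?_ ?_ ?_ ?_; assumption) | (with_reducible refine IntF.comp ?_ ?_; assumption) | (with_reducible refine IntF.comp₂ ?_ ?_ ?_; assumption) | (with_reducible refine IntF.comp₃ ?_ ?_ ?_ ?_; assumption) | with_reducible apply IntF.pair))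

theorem empty_open (ht : IsTopology τ k) : ∃ u, Helper672.Plain.Mem u τ ∧ ∀ z, ¬ Helper672.Plain.Mem z u := by
  obtain ⟨u, hu⟩ := exists_set (N := N) (a := k) (p := fun _ => False) (Int.const _)
  have h1 : ∀ z, ¬ Helper672.Plain.Mem z u := fun z hz => ((hu z).1 hz).2
  exact ⟨u, open_of_local ht fun z hz => absurd hz (h1 z), h1⟩

theorem inter_open (ht : IsTopology τ k) {u v : N} (hu : Helper672.Plain.Mem u τ) (hv : Helper672.Plain.Mem v τ) :
    ∃ w, Helper672.Plain.Mem w τ ∧ ∀ z, Helper672.Plain.Mem z w ↔ Helper672.Plain.Mem z u ∧ Helper672.Plain.Mem z v := by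
  obtain ⟨w, hw⟩ := exists_trace u v
  exact ⟨w, ht.inter u v w hu hv hw, hw⟩

theorem union_open (ht : IsTopology τ k) {u v : N} (hu : Helper672.Plain.Mem u τ) (hv : Helper672.Plain.Mem v τ) :
    ∃ w, Helper672.Plain.Mem w τ ∧ ∀ z, Helper672.Plain.Mem z w ↔ Helper672.Plain.Mem z u ∨ Helper672.Plain.Mem z v := by
  obtain ⟨w, hw⟩ := exists_set (N := N) (a := k) (p := fun z => Helper672.Plain.Mem z.1 u ∨ Helper672.Plain.Mem z.1 v) (by (repeat' (first | with_reducible apply memPE | with_reducible apply memPE' | with_reducible apply memPE'' | with_reducible apply memCode | with_reducible apply memCodeP | with_reducible apply memCode₂ | with_reducible apply eqPE | with_reducible apply eqPE' | with_reducible exact IntF.id | with_reducible exact IntF.fst' | with_reducible exact IntF.snd' | with_reducible exact IntF.const _ | with_reducible exact Int.const _ | assumption | with_reducible apply Int.and | with_reducible apply Int.or | with_reducible apply Int.not | with_reducible apply Int.imp | with_reducible apply Int.iff | with_reducible apply Int.ne | with_reducible apply Int.eq | with_reducible apply Int.mem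 | with_reducible apply Int.subset | with_reducible apply Int.ltN | with_reducible apply Int.leN | with_reducible_and_instances apply Int.le | with_reducible_and_instances apply Int.lt | with_reducible apply Int.all | with_reducible apply Int.ex | with_reducible apply IntF.fst | with_reducible apply IntF.snd | with_reducible apply IntF.app | with_reducible apply IntF.inl | with_reducible apply IntF.inr | with_reducible_and_instances apply IntF.mul | with_reducible_and_instances apply IntF.inv | with_reducible_and_instances apply IntF.add | with_reducible_and_instances apply IntF.sub | with_reducible_and_instances apply IntF.neg | with_reducible_and_instances apply IntF.smul | with_reducible apply Int.fin | with_reducible apply IntF.sep | with_reducible apply IntF.lam | with_reducible apply IntF.insert | with_reducible apply IntF.singleton | with_reducible apply IntF.union | with_reducible apply IntF.iimage | with_reducible apply IntF.ite | with_reducible apply IntF.the | with_reducible apply IntF.irec | with_reducible apply IntF.succ | with_reducible apply IntF.val | with_reducible apply IntF.mk | (with_reducible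 refine Int.comp ?_ ?_; assumption) | (with_reducible refine Int.comp₂ ?_ ?_ ?_; assumption) | (with_reducible refine Int.comp₃ ?_ ?_ ?_ ?_; assumption) | (with_reducible refine Int.comp₄ ?_ ?_ ?_ ?_ ?_; assumption) | (with_reducible refine IntF.comp ?_ ?_; assumption) | (with_reducible refine IntF.comp₂ ?_ ?_ ?_; assumption) | (with_reducible refine IntF.comp₃ ?_ ?_ ?_ ?_; assumption) | with_reducible apply IntF.pair)))
  have h1 : ∀ z, Helper672.Plain.Mem z w ↔ Helper672.Plain.Mem z u ∨ Helper672.Plain.Mem z v := fun z => by
    rw [hw z]
    exact ⟨fun h => h.2, fun h => ⟨h.elim (ht.sub u hu z) (ht.sub v hv z), h⟩⟩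
  refine ⟨w, open_of_local ht fun z hz => ?_, h1⟩
  rcases (h1 z).1 hz with h | h
  · exact ⟨u, hu, h, fun z' h' => (h1 z').2 (Or.inl h')⟩
  · exact ⟨v, hv, h, fun z' h' => (h1 z').2 (Or.inr h')⟩

/-- Compactness: an ideal of sets that contains a neighbourhood of every point is proper only if
the space is empty. -/
theorem compact_ideal (hc : IsCompact τ k) {J : IPow N (Helper672.Plain.El k) → Prop} (hJ : Int N J)
    (h0 : J ∅) (hmono : ∀ A B, J B → (∀ x, x ∈ A → x ∈ B) → J A)
    (hun : ∀ A B, J A → J B → J (A ∪ B))
    (hn : ∀ q : Helper672.Plain.El k, ∃ u, Helper672.Plain.Mem u τ ∧ Helper672.Plain.Mem q.1 u ∧ J (su k u)) : J (iuniv N (Helper672.Plain.El k)) := by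
  obtain ⟨S, hS, hSm⟩ : ∃ S : Helper672.Plain.El τ → IPow N (Helper672.Plain.El k), IntF N S ∧ ∀ u, S u = su k u.1 :=
    ⟨fun u => su k u.1, int_su k τ, fun _ => rfl⟩
  obtain ⟨c, hcc⟩ := exists_set (N := N) (a := τ) (p := fun u => J (S u)) (by (repeat' (first | with_reducible exact IntF.id | with_reducible exact IntF.fst' | with_reducible exact IntF.snd' | with_reducible exact IntF.const _ | with_reducible exact Int.const _ | assumption | with_reducible apply Int.and | with_reducible apply Int.or | with_reducible apply Int.not | with_reducible apply Int.imp | with_reducible apply Int.iff | with_reducible apply Int.ne | with_reducible apply Int.eq | with_reducible apply Int.mem | with_reducible apply Int.subset | with_reducible apply Int.ltN | with_reducible apply Int.leN | with_reducible_and_instances apply Int.le | with_reducible_and_instances apply Int.lt | with_reducible apply Int.all | with_reducible apply Int.ex | with_reducible apply IntF.fst | with_reducible apply IntF.snd | with_reducible apply IntF.app | with_reducible apply IntF.inl | with_reducible apply IntF.inr | with_reducible_and_instances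 apply IntF.mul | with_reducible_and_instances apply IntF.inv | with_reducible_and_instances apply IntF.add | with_reducible_and_instances apply IntF.sub | with_reducible_and_instances apply IntF.neg | with_reducible_and_instances apply IntF.smul | with_reducible apply Int.fin | with_reducible apply IntF.sep | with_reducible apply IntF.lam | with_reducible apply IntF.insert | with_reducible apply IntF.singleton | with_reducible apply IntF.union | with_reducible apply IntF.iimage | with_reducible apply IntF.ite | with_reducible apply IntF.the | with_reducible apply IntF.irec | with_reducible apply IntF.succ | with_reducible apply IntF.val | with_reducible apply IntF.mk | (with_reducible refine Int.comp ?_ ?_; assumption) | (with_reducible refine Int.comp₂ ?_ ?_ ?_; assumption) | (with_reducible refine Int.comp₃ ?_ ?_ ?_ ?_; assumption) | (with_reducible refine Int.comp₄ ?_ ?_ ?_ ?_ ?_; assumption) | (with_reducible refine IntF.comp ?_ ?_; assumption) | (with_reducible refine IntF.comp₂ ?_ ?_ ?_; assumption) | (with_reducible refine IntF.comp₃ ?_ ?_ ?_ ?_; assumption) | with_reducible apply IntF.pair)))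
  obtain ⟨c', h1, h2, h3⟩ := hc c (fun u hu => ((hcc u).1 hu).1) fun z hz => by
    obtain ⟨u, h4, h5, h6⟩ := hn ⟨z, hz⟩
    refine ⟨u, (hcc u).2 ⟨h4, ?_⟩, h5⟩
    rw [hSm]
    exact h6
  have hm : ∀ (F : IPow N (Helper672.Plain.El τ)) (z : Helper672.Plain.El k),
      z ∈ sep N (fun z : Helper672.Plain.El k => ∃ u, u ∈ F ∧ z ∈ S u) ↔ ∃ u, u ∈ F ∧ z ∈ S u :=
    fun F z => mem_sep (by (repeat' (first | with_reducible exact IntF.id | with_reducible exact IntF.fst' | with_reducible exact IntF.snd' | with_reducible exact IntF.const _ | with_reducible exact Int.const _ | assumption | with_reducible apply Int.and | with_reducible apply Int.or | with_reducible apply Int.not | with_reducible apply Int.imp | with_reducible apply Int.iff | with_reducible apply Int.ne | with_reducible apply Int.eq | with_reducible apply Int.mem | with_reducible apply Int.subset | with_reducible apply Int.ltN | with_reducible apply Int.leN | with_reducible_and_instances apply Int.le | with_reducible_and_instances apply Int.lt | with_reducible apply Int.all | with_reducible apply Int.ex | with_reducible apply IntF.fst | with_reducible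 apply IntF.snd | with_reducible apply IntF.app | with_reducible apply IntF.inl | with_reducible apply IntF.inr | with_reducible_and_instances apply IntF.mul | with_reducible_and_instances apply IntF.inv | with_reducible_and_instances apply IntF.add | with_reducible_and_instances apply IntF.sub | with_reducible_and_instances apply IntF.neg | with_reducible_and_instances apply IntF.smul | with_reducible apply Int.fin | with_reducible apply IntF.sep | with_reducible apply IntF.lam | with_reducible apply IntF.insert | with_reducible apply IntF.singleton | with_reducible apply IntF.union | with_reducible apply IntF.iimage | with_reducible apply IntF.ite | with_reducible apply IntF.the | with_reducible apply IntF.irec | with_reducible apply IntF.succ | with_reducible apply IntF.val | with_reducible apply IntF.mk | (with_reducible refine Int.comp ?_ ?_; assumption) | (with_reducible refine Int.comp₂ ?_ ?_ ?_; assumption) | (with_reducible refine Int.comp₃ ?_ ?_ ?_ ?_; assumption) | (with_reducible refine Int.comp₄ ?_ ?_ ?_ ?_ ?_; assumption) | (with_reducible refine IntF.comp ?_ ?_; assumption) | (with_reducible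 refine IntF.comp₂ ?_ ?_ ?_; assumption) | (with_reducible refine IntF.comp₃ ?_ ?_ ?_ ?_; assumption) | with_reducible apply IntF.pair)))
  have key : ∀ F : IPow N (Helper672.Plain.El τ), IFin F → (∀ u, u ∈ F → J (S u)) →
      J (sep N fun z : Helper672.Plain.El k => ∃ u, u ∈ F ∧ z ∈ S u) := by
    intro F hF
    refine IFin.ind (p := fun F : IPow N (Helper672.Plain.El τ) => (∀ u, u ∈ F → J (S u)) →
      J (sep N fun z : Helper672.Plain.El k => ∃ u, u ∈ F ∧ z ∈ S u)) (by (repeat' (first | with_reducible exact IntF.id | with_reducible exact IntF.fst' | with_reducible exact IntF.snd' | with_reducible exact IntF.const _ | with_reducible exact Int.const _ | assumption | with_reducible apply Int.and | with_reducible apply Int.or | with_reducible apply Int.not | with_reducible apply Int.imp | with_reducible apply Int.iff | with_reducible apply Int.ne | with_reducible apply Int.eq | with_reducible apply Int.mem | with_reducible apply Int.subset | with_reducible apply Int.ltN | with_reducible apply Int.leN | with_reducible_and_instances apply Int.le | with_reducible_and_instances apply Int.lt | with_reducible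 apply Int.all | with_reducible apply Int.ex | with_reducible apply IntF.fst | with_reducible apply IntF.snd | with_reducible apply IntF.app | with_reducible apply IntF.inl | with_reducible apply IntF.inr | with_reducible_and_instances apply IntF.mul | with_reducible_and_instances apply IntF.inv | with_reducible_and_instances apply IntF.add | with_reducible_and_instances apply IntF.sub | with_reducible_and_instances apply IntF.neg | with_reducible_and_instances apply IntF.smul | with_reducible apply Int.fin | with_reducible apply IntF.sep | with_reducible apply IntF.lam | with_reducible apply IntF.insert | with_reducible apply IntF.singleton | with_reducible apply IntF.union | with_reducible apply IntF.iimage | with_reducible apply IntF.ite | with_reducible apply IntF.the | with_reducible apply IntF.irec | with_reducible apply IntF.succ | with_reducible apply IntF.val | with_reducible apply IntF.mk | (with_reducible refine Int.comp ?_ ?_; assumption) | (with_reducible refine Int.comp₂ ?_ ?_ ?_; assumption) | (with_reducible refine Int.comp₃ ?_ ?_ ?_ ?_; assumption) | (with_reducible refine Int.comp₄ ?_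 ?_ ?_ ?_ ?_; assumption) | (with_reducible refine IntF.comp ?_ ?_; assumption) | (with_reducible refine IntF.comp₂ ?_ ?_ ?_; assumption) | (with_reducible refine IntF.comp₃ ?_ ?_ ?_ ?_; assumption) | with_reducible apply IntF.pair))) ?_ ?_ F hF
    · intro _
      refine hmono _ _ h0 fun z hz => ?_
      obtain ⟨u, hu, -⟩ := (hm _ _).1 hz
      exact absurd hu (by simp)
    · intro F u _ _ ih h
      refine hmono _ _ (hun _ _ (h u (mem_insert.2 (Or.inl rfl)))
        (ih fun u' hu' => h u' (mem_insert.2 (Or.inr hu')))) fun z hz => ?_
      obtain ⟨u', hu', hz'⟩ := (hm _ _).1 hz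
      rcases mem_insert.1 hu' with rfl | hu'
      · exact mem_union.2 (Or.inl hz')
      · exact mem_union.2 (Or.inr ((hm _ _).2 ⟨u', hu', hz'⟩))
  refine hmono _ _ (key _ (ifin_of_finite h1 τ) fun u hu => ?_) fun z _ => ?_
  · exact ((hcc _).1 (h2 _ ((mem_sep (memI' _ _)).1 hu))).2
  · obtain ⟨u, h4, h5⟩ := h3 z.1 z.2
    refine (hm _ _).2 ⟨mkE u ((hcc u).1 (h2 u h4)).1, (mem_sep (memI' _ _)).2 h4, ?_⟩
    rw [hSm]
    exact mem_su.2 h5

end

section

variable {N : Type u} [LSet.Structure N] [hM : IsModel N] {δ : Type u₁} [ITy N δ]
  {C : INat N × IPow N δ → Prop} (hC : UD N C)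

include hC in
/-- The space `ℕ(∞)` is not a remainder. -/
theorem neg_rem {d : N} (e : δ ≃ Helper672.Plain.El d) (he : IntF N (fun x => e x)) (he' : IntF N (fun q => e.symm q))
    {t : N} (ht : IsPow t d) {y s : N} (hy : IsNInf s y) : ¬ IsRemainder s y t d := by
  have hCI := hC.int
  rintro ⟨τ, k, h, g, htop, hcomp, hhaus, ⟨hhI, hhi, hht⟩, hdense, ⟨hgI, hgi, hgs⟩, hrange⟩
  obtain ⟨w, a, hw, haw, hya, hs⟩ := hy
  obtain ⟨ν, hν, hν', -⟩ := omega_equiv hw
  have hhI := isMap_iff.1 hhI
  have hgI := isMap_iff.1 hgI
  obtain ⟨l, hl, hle⟩ : ∃ l : δ → Helper672.Plain.El k, IntF N l ∧ ∀ x, l x = h (e x) :=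
    ⟨fun x => h (e x), by (repeat' (first | with_reducible exact IntF.id | with_reducible exact IntF.fst' | with_reducible exact IntF.snd' | with_reducible exact IntF.const _ | with_reducible exact Int.const _ | assumption | with_reducible apply Int.and | with_reducible apply Int.or | with_reducible apply Int.not | with_reducible apply Int.imp | with_reducible apply Int.iff | with_reducible apply Int.ne | with_reducible apply Int.eq | with_reducible apply Int.mem | with_reducible apply Int.subset | with_reducible apply Int.ltN | with_reducible apply Int.leN | with_reducible_and_instances apply Int.le | with_reducible_and_instances apply Int.lt | with_reducible apply Int.all | with_reducible apply Int.ex | with_reducible apply IntF.fst | with_reducible apply IntF.snd | with_reducible apply IntF.app | with_reducible apply IntF.inl | with_reducible apply IntF.inr | with_reducible_and_instances apply IntF.mul | with_reducible_and_instances apply IntF.inv | with_reducible_and_instances apply IntF.add | with_reducible_and_instances apply IntF.sub | with_reducible_and_instances apply IntF.neg | with_reducible_and_instances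 apply IntF.smul | with_reducible apply Int.fin | with_reducible apply IntF.sep | with_reducible apply IntF.lam | with_reducible apply IntF.insert | with_reducible apply IntF.singleton | with_reducible apply IntF.union | with_reducible apply IntF.iimage | with_reducible apply IntF.ite | with_reducible apply IntF.the | with_reducible apply IntF.irec | with_reducible apply IntF.succ | with_reducible apply IntF.val | with_reducible apply IntF.mk | (with_reducible refine Int.comp ?_ ?_; assumption) | (with_reducible refine Int.comp₂ ?_ ?_ ?_; assumption) | (with_reducible refine Int.comp₃ ?_ ?_ ?_ ?_; assumption) | (with_reducible refine Int.comp₄ ?_ ?_ ?_ ?_ ?_; assumption) | (with_reducible refine IntF.comp ?_ ?_; assumption) | (with_reducible refine IntF.comp₂ ?_ ?_ ?_; assumption) | (with_reducible refine IntF.comp₃ ?_ ?_ ?_ ?_; assumption) | with_reducible apply IntF.pair)), fun _ => rfl⟩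
  obtain ⟨j, hj, hje⟩ : ∃ j : Helper672.Plain.El w → Helper672.Plain.El y, IntF N j ∧ ∀ p, (j p).1 = p.1 := by
    have h1 : ∀ p : Helper672.Plain.El w, Helper672.Plain.Mem p.1 y := fun p => (hya p.1).2 (Or.inl p.2)
    refine ⟨fun p => ⟨p.1, h1 p⟩, IntF.of_rel (r := fun (p : Helper672.Plain.El w) (z : Helper672.Plain.El y) => p.1 = z.1)
      (eqI _ _) fun p z => ?_, fun p => rfl⟩
    exact ⟨fun h => Subtype.ext h, fun h => h ▸ rfl⟩
  obtain ⟨ρ, hρ, hρe⟩ : ∃ ρ : INat N → Helper672.Plain.El k, IntF N ρ ∧ ∀ n, ρ n = g (j (ν.symm n)) :=
    ⟨fun n => g (j (ν.symm n)), by (repeat' (first | with_reducible exact IntF.id | with_reducible exact IntF.fst' | with_reducible exact IntF.snd' | with_reducible exact IntF.const _ | with_reducible exact Int.const _ | assumption | with_reducible apply Int.and | with_reducible apply Int.or | with_reducible apply Int.not | with_reducible apply Int.imp | with_reducible apply Int.iff | with_reducible apply Int.ne | with_reducible apply Int.eq | with_reducible apply Int.mem | with_reducible apply Int.subset | with_reducible apply Int.ltN | with_reducible apply Int.leN | with_reducible_and_instances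 apply Int.le | with_reducible_and_instances apply Int.lt | with_reducible apply Int.all | with_reducible apply Int.ex | with_reducible apply IntF.fst | with_reducible apply IntF.snd | with_reducible apply IntF.app | with_reducible apply IntF.inl | with_reducible apply IntF.inr | with_reducible_and_instances apply IntF.mul | with_reducible_and_instances apply IntF.inv | with_reducible_and_instances apply IntF.add | with_reducible_and_instances apply IntF.sub | with_reducible_and_instances apply IntF.neg | with_reducible_and_instances apply IntF.smul | with_reducible apply Int.fin | with_reducible apply IntF.sep | with_reducible apply IntF.lam | with_reducible apply IntF.insert | with_reducible apply IntF.singleton | with_reducible apply IntF.union | with_reducible apply IntF.iimage | with_reducible apply IntF.ite | with_reducible apply IntF.the | with_reducible apply IntF.irec | with_reducible apply IntF.succ | with_reducible apply IntF.val | with_reducible apply IntF.mk | (with_reducible refine Int.comp ?_ ?_; assumption) | (with_reducible refine Int.comp₂ ?_ ?_ ?_; assumption) | (with_reducible refine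 Int.comp₃ ?_ ?_ ?_ ?_; assumption) | (with_reducible refine Int.comp₄ ?_ ?_ ?_ ?_ ?_; assumption) | (with_reducible refine IntF.comp ?_ ?_; assumption) | (with_reducible refine IntF.comp₂ ?_ ?_ ?_; assumption) | (with_reducible refine IntF.comp₃ ?_ ?_ ?_ ?_; assumption) | with_reducible apply IntF.pair)), fun _ => rfl⟩
  have hρi : ∀ n n', ρ n = ρ n' → n = n' := by
    intro n n' h1
    rw [hρe, hρe] at h1
    have h2 := congrArg Subtype.val (hgi h1)
    rw [hje, hje] at h2
    exact ν.symm.injective (Subtype.ext h2)
  have hli : ∀ x x', l x = l x' → x = x' := fun x x' h1 => by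
    rw [hle, hle] at h1
    exact e.injective (hhi h1)
  have hlg : ∀ x i, l x ≠ g i := by
    intro x i h1
    exact (hrange _).1 ⟨i, rfl⟩ ⟨e x, (hle x).symm.trans h1⟩
  have hcase : ∀ q : Helper672.Plain.El k, (∃ x, l x = q) ∨ ∃ i, g i = q := by
    intro q
    by_cases h1 : ∃ i, g i = q
    · exact Or.inr h1
    · obtain ⟨p, hp⟩ := not_not.1 fun h2 => h1 ((hrange q).2 h2)
      exact Or.inl ⟨e.symm p, by rw [hle, Equiv.apply_symm_apply, hp]⟩
  have hsep : ∀ q q' : Helper672.Plain.El k, q ≠ q' → ∃ u v, Helper672.Plain.Mem u τ ∧ Helper672.Plain.Mem v τ ∧ Helper672.Plain.Mem q.1 u ∧ Helper672.Plain.Mem q'.1 v ∧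
      ∀ z, Helper672.Plain.Mem z u → ¬ Helper672.Plain.Mem z v := fun q q' hne =>
    hhaus q.1 q'.1 q.2 q'.2 fun h => hne (Subtype.ext h)
  -- singletons are open
  have hsing : ∀ x, ∃ v, Helper672.Plain.Mem v τ ∧ ∀ z, Helper672.Plain.Mem z v ↔ z = (l x).1 := by
    intro x
    obtain ⟨c, hc⟩ := exists_set (N := N) (a := d) (p := fun z => z.1 = (e x).1) (eqI' _ _)
    obtain ⟨-, v, hv, h1⟩ := (hht c).1 ((ht c).2 fun z hz => ((hc z).1 hz).1)
    have h2 : Helper672.Plain.Mem (l x).1 v := by
      rw [hle]
      exact (h1 _).1 ((hc _).2 ⟨(e x).2, rfl⟩)
    have h3 : ∀ p : Helper672.Plain.El d, Helper672.Plain.Mem (h p).1 v → p = e x := fun p hp =>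
      Subtype.ext ((hc _).1 ((h1 p).2 hp)).2
    refine ⟨v, hv, fun z => ⟨fun hz => ?_, fun hz => hz ▸ h2⟩⟩
    by_contra hne
    have hzk := htop.sub v hv z hz
    obtain ⟨u, u', hu, hu', h4, h5, h6⟩ := hsep ⟨z, hzk⟩ (l x) fun h => hne (congrArg Subtype.val h)
    obtain ⟨w', hw', h7⟩ := inter_open htop hv hu
    obtain ⟨p, hp⟩ := hdense w' hw' ⟨z, (h7 z).2 ⟨hz, h4⟩⟩
    obtain ⟨h8, h9⟩ := (h7 _).1 hp
    rw [h3 p h8, ← hle] at h9
    exact h6 _ h9 h5
  -- isolated points of the remainder
  have hiso : ∀ n, ∃ v, Helper672.Plain.Mem v τ ∧ Helper672.Plain.Mem (ρ n).1 v ∧ ∀ i, Helper672.Plain.Mem (g i).1 v → g i = ρ n := by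
    intro n
    obtain ⟨c, hc⟩ := exists_set (N := N) (a := w) (p := fun z => z.1 = (ν.symm n).1) (eqI' _ _)
    obtain ⟨-, v, hv, h1⟩ := (hgs c).1 ((hs c).2 ⟨fun z hz => (hya z).2 (Or.inl ((hc z).1 hz).1),
      fun h => absurd ((hc a).1 h).1 haw⟩)
    refine ⟨v, hv, ?_, fun i hi => ?_⟩
    · rw [hρe]
      refine (h1 _).1 ((hc _).2 ?_)
      rw [hje]
      exact ⟨(ν.symm n).2, rfl⟩
    · obtain ⟨_, h2⟩ := (hc _).1 ((h1 i).2 hi)
      rw [hρe]
      exact congrArg g (Subtype.ext (h2.trans (hje _).symm))
  -- separation
  have hreg : ∀ n, ∃ v v', Helper672.Plain.Mem v τ ∧ Helper672.Plain.Mem v' τ ∧ (∀ z, Helper672.Plain.Mem z v → ¬ Helper672.Plain.Mem z v') ∧ Helper672.Plain.Mem (ρ n).1 v ∧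
      ∀ i, g i ≠ ρ n → Helper672.Plain.Mem (g i).1 v' := by
    intro n
    obtain ⟨o, ho, ho'⟩ := empty_open htop
    have key := compact_ideal hcomp (J := fun S : IPow N (Helper672.Plain.El k) => ∃ v v' : Helper672.Plain.El τ,
      (∀ z : Helper672.Plain.El k, Helper672.Plain.Mem z.1 v.1 → ¬ Helper672.Plain.Mem z.1 v'.1) ∧ Helper672.Plain.Mem (ρ n).1 v.1 ∧
      ∀ i, g i ∈ S → g i ≠ ρ n → Helper672.Plain.Mem (g i).1 v'.1) (by (repeat' (first | with_reducible apply memPE | with_reducible apply memPE' | with_reducible apply memPE'' | with_reducible apply memCode | with_reducible apply memCodeP | with_reducible apply memCode₂ | with_reducible apply eqPE | with_reducible apply eqPE' | with_reducible exact IntF.id | with_reducible exact IntF.fst' | with_reducible exact IntF.snd' | with_reducible exact IntF.const _ | with_reducible exact Int.const _ | assumption | with_reducible apply Int.and | with_reducible apply Int.or | with_reducible apply Int.not | with_reducible apply Int.imp | with_reducible apply Int.iff | with_reducible apply Int.ne | with_reducible apply Int.eq | with_reducible apply Int.mem |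 with_reducible apply Int.subset | with_reducible apply Int.ltN | with_reducible apply Int.leN | with_reducible_and_instances apply Int.le | with_reducible_and_instances apply Int.lt | with_reducible apply Int.all | with_reducible apply Int.ex | with_reducible apply IntF.fst | with_reducible apply IntF.snd | with_reducible apply IntF.app | with_reducible apply IntF.inl | with_reducible apply IntF.inr | with_reducible_and_instances apply IntF.mul | with_reducible_and_instances apply IntF.inv | with_reducible_and_instances apply IntF.add | with_reducible_and_instances apply IntF.sub | with_reducible_and_instances apply IntF.neg | with_reducible_and_instances apply IntF.smul | with_reducible apply Int.fin | with_reducible apply IntF.sep | with_reducible apply IntF.lam | with_reducible apply IntF.insert | with_reducible apply IntF.singleton | with_reducible apply IntF.union | with_reducible apply IntF.iimage | with_reducible apply IntF.ite | with_reducible apply IntF.the | with_reducible apply IntF.irec | with_reducible apply IntF.succ | with_reducible apply IntF.val | with_reducible apply IntF.mk | (with_reducible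 refine Int.comp ?_ ?_; assumption) | (with_reducible refine Int.comp₂ ?_ ?_ ?_; assumption) | (with_reducible refine Int.comp₃ ?_ ?_ ?_ ?_; assumption) | (with_reducible refine Int.comp₄ ?_ ?_ ?_ ?_ ?_; assumption) | (with_reducible refine IntF.comp ?_ ?_; assumption) | (with_reducible refine IntF.comp₂ ?_ ?_ ?_; assumption) | (with_reducible refine IntF.comp₃ ?_ ?_ ?_ ?_; assumption) | with_reducible apply IntF.pair))) ?_ ?_ ?_ ?_
    · obtain ⟨v, v', h1, h2, h3⟩ := key
      exact ⟨v.1, v'.1, v.2, v'.2, fun z hz => h1 ⟨z, htop.sub v.1 v.2 z hz⟩ hz, h2,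
        fun i hi => h3 i (by simp) hi⟩
    · exact ⟨⟨k, htop.univ⟩, ⟨o, ho⟩, fun z _ => ho' z.1, (ρ n).2, fun i hi => absurd hi (by simp)⟩
    · rintro A B ⟨v, v', h1, h2, h3⟩ hAB
      exact ⟨v, v', h1, h2, fun i hi => h3 i (hAB _ hi)⟩
    · rintro A B ⟨v, v', h1, h2, h3⟩ ⟨u, u', h4, h5, h6⟩
      obtain ⟨w₁, hw₁, h7⟩ := inter_open htop v.2 u.2
      obtain ⟨w₂, hw₂, h8⟩ := union_open htop v'.2 u'.2
      refine ⟨⟨w₁, hw₁⟩, ⟨w₂, hw₂⟩, fun z hz hz' => ?_, (h7 _).2 ⟨h2, h5⟩, fun i hi hne => (h8 _).2 ?_⟩
      · obtain ⟨h9, h10⟩ := (h7 _).1 hz
        rcases (h8 _).1 hz' with h11 | h11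
        · exact h1 z h9 h11
        · exact h4 z h10 h11
      · rcases mem_union.1 hi with hi | hi
        · exact Or.inl (h3 i hi hne)
        · exact Or.inr (h6 i hi hne)
    · intro q
      by_cases hq : ∃ i, g i = q ∧ q ≠ ρ n
      · obtain ⟨i, rfl, hne⟩ := hq
        obtain ⟨u, v, hu, hv, h1, h2, h3⟩ := hsep _ _ hne
        exact ⟨u, hu, h1, ⟨v, hv⟩, ⟨u, hu⟩, fun z hz hz' => h3 _ hz' hz, h2, fun i' hi' _ =>
          mem_su.1 hi'⟩
      · have h4 : ∃ v, Helper672.Plain.Mem v τ ∧ Helper672.Plain.Mem q.1 v ∧ ∀ i, Helper672.Plain.Mem (g i).1 v → g i = ρ n := by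
          rcases hcase q with ⟨x, rfl⟩ | ⟨i, rfl⟩
          · obtain ⟨v, hv, h1⟩ := hsing x
            exact ⟨v, hv, (h1 _).2 rfl, fun i hi => absurd (Subtype.ext ((h1 _).1 hi)).symm
              (hlg x i)⟩
          · rw [not_not.1 fun h => hq ⟨i, rfl, h⟩]
            exact hiso n
        obtain ⟨v, hv, h1, h2⟩ := h4
        exact ⟨v, hv, h1, ⟨k, htop.univ⟩, ⟨o, ho⟩, fun z _ => ho' z.1, (ρ n).2, fun i hi hne =>
          absurd (h2 i (mem_su.1 hi)) hne⟩
  -- complements of neighbourhoods of the remainder
  have hcof : ∀ v, Helper672.Plain.Mem v τ → (∀ i, Helper672.Plain.Mem (g i).1 v) → ∀ A : IPow N δ, (∀ x, x ∈ A → ¬ Helper672.Plain.Mem (l x).1 v) →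
      IFin A := by
    intro v hv hgv A hA
    have hm : ∀ (S : IPow N (Helper672.Plain.El k)) (x : δ), x ∈ sep N (fun x : δ => x ∈ A ∧ l x ∈ S) ↔
        x ∈ A ∧ l x ∈ S := fun S x => mem_sep (by (repeat' (first | with_reducible exact IntF.id | with_reducible exact IntF.fst' | with_reducible exact IntF.snd' | with_reducible exact IntF.const _ | with_reducible exact Int.const _ | assumption | with_reducible apply Int.and | with_reducible apply Int.or | with_reducible apply Int.not | with_reducible apply Int.imp | with_reducible apply Int.iff | with_reducible apply Int.ne | with_reducible apply Int.eq | with_reducible apply Int.mem | with_reducible apply Int.subset | with_reducible apply Int.ltN | with_reducible apply Int.leN | with_reducible_and_instances apply Int.le | with_reducible_and_instances apply Int.lt | with_reducible apply Int.all | with_reducible apply Int.ex | with_reducible apply IntF.fst | with_reducible apply IntF.snd | with_reducible apply IntF.app | with_reducible apply IntF.inl | with_reducible apply IntF.inr | with_reducible_and_instances apply IntF.mul | with_reducible_and_instances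 apply IntF.inv | with_reducible_and_instances apply IntF.add | with_reducible_and_instances apply IntF.sub | with_reducible_and_instances apply IntF.neg | with_reducible_and_instances apply IntF.smul | with_reducible apply Int.fin | with_reducible apply IntF.sep | with_reducible apply IntF.lam | with_reducible apply IntF.insert | with_reducible apply IntF.singleton | with_reducible apply IntF.union | with_reducible apply IntF.iimage | with_reducible apply IntF.ite | with_reducible apply IntF.the | with_reducible apply IntF.irec | with_reducible apply IntF.succ | with_reducible apply IntF.val | with_reducible apply IntF.mk | (with_reducible refine Int.comp ?_ ?_; assumption) | (with_reducible refine Int.comp₂ ?_ ?_ ?_; assumption) | (with_reducible refine Int.comp₃ ?_ ?_ ?_ ?_; assumption) | (with_reducible refine Int.comp₄ ?_ ?_ ?_ ?_ ?_; assumption) | (with_reducible refine IntF.comp ?_ ?_; assumption) | (with_reducible refine IntF.comp₂ ?_ ?_ ?_; assumption) | (with_reducible refine IntF.comp₃ ?_ ?_ ?_ ?_; assumption) | with_reducible apply IntF.pair)))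
    have key := compact_ideal hcomp (J := fun S : IPow N (Helper672.Plain.El k) =>
      IFin (sep N fun x : δ => x ∈ A ∧ l x ∈ S)) (by (repeat' (first | with_reducible exact IntF.id | with_reducible exact IntF.fst' | with_reducible exact IntF.snd' | with_reducible exact IntF.const _ | with_reducible exact Int.const _ | assumption | with_reducible apply Int.and | with_reducible apply Int.or | with_reducible apply Int.not | with_reducible apply Int.imp | with_reducible apply Int.iff | with_reducible apply Int.ne | with_reducible apply Int.eq | with_reducible apply Int.mem | with_reducible apply Int.subset | with_reducible apply Int.ltN | with_reducible apply Int.leN | with_reducible_and_instances apply Int.le | with_reducible_and_instances apply Int.lt | with_reducible apply Int.all | with_reducible apply Int.ex | with_reducible apply IntF.fst | with_reducible apply IntF.snd | with_reducible apply IntF.app | with_reducible apply IntF.inl | with_reducible apply IntF.inr | with_reducible_and_instances apply IntF.mul | with_reducible_and_instances apply IntF.inv | with_reducible_and_instances apply IntF.add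 | with_reducible_and_instances apply IntF.sub | with_reducible_and_instances apply IntF.neg | with_reducible_and_instances apply IntF.smul | with_reducible apply Int.fin | with_reducible apply IntF.sep | with_reducible apply IntF.lam | with_reducible apply IntF.insert | with_reducible apply IntF.singleton | with_reducible apply IntF.union | with_reducible apply IntF.iimage | with_reducible apply IntF.ite | with_reducible apply IntF.the | with_reducible apply IntF.irec | with_reducible apply IntF.succ | with_reducible apply IntF.val | with_reducible apply IntF.mk | (with_reducible refine Int.comp ?_ ?_; assumption) | (with_reducible refine Int.comp₂ ?_ ?_ ?_; assumption) | (with_reducible refine Int.comp₃ ?_ ?_ ?_ ?_; assumption) | (with_reducible refine Int.comp₄ ?_ ?_ ?_ ?_ ?_; assumption) | (with_reducible refine IntF.comp ?_ ?_; assumption) | (with_reducible refine IntF.comp₂ ?_ ?_ ?_; assumption) | (with_reducible refine IntF.comp₃ ?_ ?_ ?_ ?_; assumption) | with_reducible apply IntF.pair))) ?_ ?_ ?_ ?_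
    · exact key.subset fun x hx => (hm _ _).2 ⟨hx, by simp⟩
    · refine IFin.empty.subset fun x hx => ?_
      exact absurd ((hm _ _).1 hx).2 (by simp)
    · intro B B' h1 h2
      exact h1.subset fun x hx => (hm _ _).2 ⟨((hm _ _).1 hx).1, h2 _ ((hm _ _).1 hx).2⟩
    · intro B B' h1 h2
      refine (h1.union h2).subset fun x hx => ?_
      obtain ⟨h3, h4⟩ := (hm _ _).1 hx
      rcases mem_union.1 h4 with h4 | h4
      · exact mem_union.2 (Or.inl ((hm _ _).2 ⟨h3, h4⟩))
      · exact mem_union.2 (Or.inr ((hm _ _).2 ⟨h3, h4⟩))
    · intro q
      rcases hcase q with ⟨x, rfl⟩ | ⟨i, rfl⟩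
      · obtain ⟨u, hu, h1⟩ := hsing x
        refine ⟨u, hu, (h1 _).2 rfl, (IFin.singleton x).subset fun x' hx' => mem_singleton.2 ?_⟩
        exact hli _ _ (Subtype.ext ((h1 _).1 (mem_su.1 ((hm _ _).1 hx').2)))
      · refine ⟨v, hv, hgv i, IFin.empty.subset fun x hx => ?_⟩
        obtain ⟨h1, h2⟩ := (hm _ _).1 hx
        exact absurd (mem_su.1 h2) (hA x h1)
  -- neighbourhoods of the points of the remainder
  have hinf : ∀ v n, Helper672.Plain.Mem v τ → Helper672.Plain.Mem (ρ n).1 v → ∀ A : IPow N δ, (∀ x, Helper672.Plain.Mem (l x).1 v → x ∈ A) →
      ¬ IFin A := by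
    intro v n hv hnv A hA hAf
    have key : ∃ u : Helper672.Plain.El τ, Helper672.Plain.Mem (ρ n).1 u.1 ∧ (∀ z : Helper672.Plain.El k, Helper672.Plain.Mem z.1 u.1 → Helper672.Plain.Mem z.1 v) ∧
        ∀ x, x ∈ A → ¬ Helper672.Plain.Mem (l x).1 u.1 := by
      refine IFin.ind (p := fun A : IPow N δ => ∃ u : Helper672.Plain.El τ, Helper672.Plain.Mem (ρ n).1 u.1 ∧
        (∀ z : Helper672.Plain.El k, Helper672.Plain.Mem z.1 u.1 → Helper672.Plain.Mem z.1 v) ∧ ∀ x, x ∈ A → ¬ Helper672.Plain.Mem (l x).1 u.1) (by (repeat' (first | with_reducible apply memPE | with_reducible apply memPE' | with_reducible apply memPE'' | with_reducible apply memCode | with_reducible apply memCodeP | with_reducible apply memCode₂ | with_reducible apply eqPE | with_reducible apply eqPE' | with_reducible exact IntF.id | with_reducible exact IntF.fst' | with_reducible exact IntF.snd' | with_reducible exact IntF.const _ | with_reducible exact Int.const _ | assumption | with_reducible apply Int.and | with_reducible apply Int.or | with_reducible apply Int.not | with_reducible apply Int.imp | with_reducible apply Int.iff | with_reducible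 apply Int.ne | with_reducible apply Int.eq | with_reducible apply Int.mem | with_reducible apply Int.subset | with_reducible apply Int.ltN | with_reducible apply Int.leN | with_reducible_and_instances apply Int.le | with_reducible_and_instances apply Int.lt | with_reducible apply Int.all | with_reducible apply Int.ex | with_reducible apply IntF.fst | with_reducible apply IntF.snd | with_reducible apply IntF.app | with_reducible apply IntF.inl | with_reducible apply IntF.inr | with_reducible_and_instances apply IntF.mul | with_reducible_and_instances apply IntF.inv | with_reducible_and_instances apply IntF.add | with_reducible_and_instances apply IntF.sub | with_reducible_and_instances apply IntF.neg | with_reducible_and_instances apply IntF.smul | with_reducible apply Int.fin | with_reducible apply IntF.sep | with_reducible apply IntF.lam | with_reducible apply IntF.insert | with_reducible apply IntF.singleton | with_reducible apply IntF.union | with_reducible apply IntF.iimage | with_reducible apply IntF.ite | with_reducible apply IntF.the | with_reducible apply IntF.irec | with_reducible apply IntF.succ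 | with_reducible apply IntF.val | with_reducible apply IntF.mk | (with_reducible refine Int.comp ?_ ?_; assumption) | (with_reducible refine Int.comp₂ ?_ ?_ ?_; assumption) | (with_reducible refine Int.comp₃ ?_ ?_ ?_ ?_; assumption) | (with_reducible refine Int.comp₄ ?_ ?_ ?_ ?_ ?_; assumption) | (with_reducible refine IntF.comp ?_ ?_; assumption) | (with_reducible refine IntF.comp₂ ?_ ?_ ?_; assumption) | (with_reducible refine IntF.comp₃ ?_ ?_ ?_ ?_; assumption) | with_reducible apply IntF.pair))) ?_ ?_ A hAf
      · exact ⟨⟨v, hv⟩, hnv, fun _ h => h, fun x hx => absurd hx (by simp)⟩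
      · rintro B x _ _ ⟨u, h1, h2, h3⟩
        obtain ⟨u₁, u₂, h4, h5, h6, h7, h8⟩ := hsep (ρ n) (l x) fun h => hlg x _
          (h.symm.trans (hρe n))
        obtain ⟨w', hw', h9⟩ := inter_open htop u.2 h4
        refine ⟨⟨w', hw'⟩, (h9 _).2 ⟨h1, h6⟩, fun z hz => h2 z ((h9 _).1 hz).1, fun x' hx' hx'' => ?_⟩
        obtain ⟨h10, h11⟩ := (h9 _).1 hx''
        rcases mem_insert.1 hx' with rfl | hx'
        · exact h8 _ h11 h7
        · exact h3 x' hx' h10
    obtain ⟨u, h1, h2, h3⟩ := key
    obtain ⟨p, hp⟩ := hdense u.1 u.2 ⟨_, h1⟩
    have h4 : l (e.symm p) = h p := by rw [hle, Equiv.apply_symm_apply]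
    rw [← h4] at hp
    exact h3 _ (hA _ (h2 _ hp)) hp
  -- the sequence
  have hWI : Int N (fun q : IPow N δ × INat N => ∃ v v' : Helper672.Plain.El τ, (∀ z : Helper672.Plain.El k, Helper672.Plain.Mem z.1 v.1 →
      ¬ Helper672.Plain.Mem z.1 v'.1) ∧ Helper672.Plain.Mem (ρ q.2).1 v.1 ∧ (∀ i, g i ≠ ρ q.2 → Helper672.Plain.Mem (g i).1 v'.1) ∧
      ∀ x, x ∈ q.1 ↔ Helper672.Plain.Mem (l x).1 v.1) := by (repeat' (first | with_reducible apply memPE | with_reducible apply memPE' | with_reducible apply memPE'' | with_reducible apply memCode | with_reducible apply memCodeP | with_reducible apply memCode₂ | with_reducible apply eqPE | with_reducible apply eqPE' | with_reducible exact IntF.id | with_reducible exact IntF.fst' | with_reducible exact IntF.snd' | with_reducible exact IntF.const _ | with_reducible exact Int.const _ | assumption | with_reducible apply Int.and | with_reducible apply Int.or | with_reducible apply Int.not | with_reducible apply Int.imp | with_reducible apply Int.iff | with_reducible apply Int.ne | with_reducible apply Int.eq | with_reducible apply Int.mem | with_reducible apply Int.subset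 | with_reducible apply Int.ltN | with_reducible apply Int.leN | with_reducible_and_instances apply Int.le | with_reducible_and_instances apply Int.lt | with_reducible apply Int.all | with_reducible apply Int.ex | with_reducible apply IntF.fst | with_reducible apply IntF.snd | with_reducible apply IntF.app | with_reducible apply IntF.inl | with_reducible apply IntF.inr | with_reducible_and_instances apply IntF.mul | with_reducible_and_instances apply IntF.inv | with_reducible_and_instances apply IntF.add | with_reducible_and_instances apply IntF.sub | with_reducible_and_instances apply IntF.neg | with_reducible_and_instances apply IntF.smul | with_reducible apply Int.fin | with_reducible apply IntF.sep | with_reducible apply IntF.lam | with_reducible apply IntF.insert | with_reducible apply IntF.singleton | with_reducible apply IntF.union | with_reducible apply IntF.iimage | with_reducible apply IntF.ite | with_reducible apply IntF.the | with_reducible apply IntF.irec | with_reducible apply IntF.succ | with_reducible apply IntF.val | with_reducible apply IntF.mk | (with_reducible refine Int.comp ?_ ?_;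 assumption) | (with_reducible refine Int.comp₂ ?_ ?_ ?_; assumption) | (with_reducible refine Int.comp₃ ?_ ?_ ?_ ?_; assumption) | (with_reducible refine Int.comp₄ ?_ ?_ ?_ ?_ ?_; assumption) | (with_reducible refine IntF.comp ?_ ?_; assumption) | (with_reducible refine IntF.comp₂ ?_ ?_ ?_; assumption) | (with_reducible refine IntF.comp₃ ?_ ?_ ?_ ?_; assumption) | with_reducible apply IntF.pair))
  have key := hC.pigeon hWI ?_ ?_
  · obtain ⟨n, n', A, B, hne, ⟨v, v', h1, h2, h3, h4⟩, ⟨u, u', h5, h6, h7, h8⟩, hAB⟩ := key
    obtain ⟨w', hw', h9⟩ := union_open htop v'.2 u'.2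
    have h10 : IFin (A ∩ B) := by
      refine hcof w' hw' (fun i => (h9 _).2 ?_) _ fun x hx hx' => ?_
      · by_cases hi : g i = ρ n
        · refine Or.inr (h7 i fun h => hne (hρi _ _ (hi.symm.trans h)))
        · exact Or.inl (h3 i hi)
      · obtain ⟨h11, h12⟩ := mem_inter.1 hx
        rcases (h9 _).1 hx' with h13 | h13
        · exact h1 _ ((h4 x).1 h11) h13
        · exact h5 _ ((h8 x).1 h12) h13
    refine hinf v.1 n v.2 h2 A (fun x hx => (h4 x).2 hx) ((h10.union hAB).subset fun x hx => ?_)
    by_cases hxB : x ∈ B
    · exact mem_union.2 (Or.inl (mem_inter.2 ⟨hx, hxB⟩))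
    · exact mem_union.2 (Or.inr (mem_sdiff.2 ⟨hx, hxB⟩))
  · intro n
    obtain ⟨v, v', hv, hv', h1, h2, h3⟩ := hreg n
    have hI : Int N (fun x : δ => Helper672.Plain.Mem (l x).1 v) := by (repeat' (first | with_reducible apply memPE | with_reducible apply memPE' | with_reducible apply memPE'' | with_reducible apply memCode | with_reducible apply memCodeP | with_reducible apply memCode₂ | with_reducible apply eqPE | with_reducible apply eqPE' | with_reducible exact IntF.id | with_reducible exact IntF.fst' | with_reducible exact IntF.snd' | with_reducible exact IntF.const _ | with_reducible exact Int.const _ | assumption | with_reducible apply Int.and | with_reducible apply Int.or | with_reducible apply Int.not | with_reducible apply Int.imp | with_reducible apply Int.iff | with_reducible apply Int.ne | with_reducible apply Int.eq | with_reducible apply Int.mem | with_reducible apply Int.subset | with_reducible apply Int.ltN | with_reducible apply Int.leN | with_reducible_and_instances apply Int.le | with_reducible_and_instances apply Int.lt | with_reducible apply Int.all | with_reducible apply Int.ex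 | with_reducible apply IntF.fst | with_reducible apply IntF.snd | with_reducible apply IntF.app | with_reducible apply IntF.inl | with_reducible apply IntF.inr | with_reducible_and_instances apply IntF.mul | with_reducible_and_instances apply IntF.inv | with_reducible_and_instances apply IntF.add | with_reducible_and_instances apply IntF.sub | with_reducible_and_instances apply IntF.neg | with_reducible_and_instances apply IntF.smul | with_reducible apply Int.fin | with_reducible apply IntF.sep | with_reducible apply IntF.lam | with_reducible apply IntF.insert | with_reducible apply IntF.singleton | with_reducible apply IntF.union | with_reducible apply IntF.iimage | with_reducible apply IntF.ite | with_reducible apply IntF.the | with_reducible apply IntF.irec | with_reducible apply IntF.succ | with_reducible apply IntF.val | with_reducible apply IntF.mk | (with_reducible refine Int.comp ?_ ?_; assumption) | (with_reducible refine Int.comp₂ ?_ ?_ ?_; assumption) | (with_reducible refine Int.comp₃ ?_ ?_ ?_ ?_; assumption) | (with_reducible refine Int.comp₄ ?_ ?_ ?_ ?_ ?_; assumption) | (with_reducible refine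 IntF.comp ?_ ?_; assumption) | (with_reducible refine IntF.comp₂ ?_ ?_ ?_; assumption) | (with_reducible refine IntF.comp₃ ?_ ?_ ?_ ?_; assumption) | with_reducible apply IntF.pair))
    exact ⟨sep N fun x : δ => Helper672.Plain.Mem (l x).1 v, ⟨v, hv⟩, ⟨v', hv'⟩, fun z hz => h1 _ hz, h2, h3,
      fun x => mem_sep hI⟩
  · rintro n A B ⟨v, v', h1, h2, h3, h4⟩ ⟨u, u', h5, h6, h7, h8⟩
    obtain ⟨w', hw', h9⟩ := union_open htop v'.2 u.2
    refine hcof w' hw' (fun i => (h9 _).2 ?_) _ fun x hx hx' => ?_
    · by_cases hi : g i = ρ n
      · exact Or.inr (hi ▸ h6)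
      · exact Or.inl (h3 i hi)
    · obtain ⟨h10, h11⟩ := mem_sdiff.1 hx
      rcases (h9 _).1 hx' with h12 | h12
      · exact h1 _ ((h4 x).1 h10) h12
      · exact h11 ((h8 x).2 h12)

include hC in
theorem not_finite {d : N} (e : δ ≃ Helper672.Plain.El d) (he' : IntF N (fun q => e.symm q)) : ¬ IsFinite d := by
  intro h
  refine hC.npr 0 _ (hC.univ 0) (((ifin_of_finite h d).image he').subset fun x _ => ?_)
  exact (mem_iimage he').2 ⟨e x, (mem_sep (memI' _ _)).2 (e x).2, e.symm_apply_apply x⟩

end

section

variable {N : Type u} [LSet.Structure N] [hM : IsModel N] {t d : N}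

theorem discrete_top (ht : IsPow t d) : IsTopology t d :=
  ⟨fun u hu => (ht u).1 hu, (ht d).2 fun _ h => h,
    fun u v w hu _ hw => (ht w).2 fun z hz => (ht u).1 hu z ((hw z).1 hz).1,
    fun c w hc hw => (ht w).2 fun z hz => by
      obtain ⟨u, h1, h2⟩ := (hw z).1 hz
      exact (ht u).1 (hc u h1) z h2⟩

theorem discrete_sgl (ht : IsPow t d) {p : N} (hp : Helper672.Plain.Mem p d) : ∃ u, Helper672.Plain.Mem u t ∧ ∀ z, Helper672.Plain.Mem z u ↔ z = p := by
  obtain ⟨u, hu⟩ := exists_set (N := N) (a := d) (p := fun z => z.1 = p) (eqI' _ _)
  refine ⟨u, (ht u).2 fun z hz => ((hu z).1 hz).1, fun z => ⟨fun hz => ((hu z).1 hz).2, ?_⟩⟩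
  rintro rfl
  exact (hu _).2 ⟨hp, rfl⟩

theorem discrete_haus (ht : IsPow t d) : IsHausdorff t d := by
  intro p q hp hq hne
  obtain ⟨u, hu, h1⟩ := discrete_sgl ht hp
  obtain ⟨v, hv, h2⟩ := discrete_sgl ht hq
  exact ⟨u, v, hu, hv, (h1 p).2 rfl, (h2 q).2 rfl, fun z hz hz' =>
    hne (((h1 z).1 hz).symm.trans ((h2 z).1 hz'))⟩

theorem discrete_lc (ht : IsPow t d) : IsLocallyCompact t d := by
  intro p hp
  obtain ⟨u, hu, h1⟩ := discrete_sgl ht hp
  obtain ⟨s, hs⟩ := exists_subspace u t
  refine ⟨u, u, s, hu, (h1 p).2 rfl, fun _ h => h, (ht u).1 hu, hs, fun c _ hc => ?_⟩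
  obtain ⟨v, h2, h3⟩ := hc p ((h1 p).2 rfl)
  refine ⟨code ({⟨v, h2⟩} : IPow N (Helper672.Plain.El c)), finite_code (IFin.singleton _), fun z hz =>
    (mem_cpE.1 hz).1, fun z hz => ⟨v, ?_, ?_⟩⟩
  · exact mem_cpE.2 ⟨h2, mem_singleton.2 rfl⟩
  · rw [(h1 z).1 hz]
    exact h3

end

end Pool.Agent.Q301.UF
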