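import Pool.Agent.Q301.UF.Gen

/-!
# Generic ultrafilters on a set of indiscernibles: the sequence in the extension
-/

set_option maxHeartbeats 1000000
set_option linter.all false
set_option synthInstance.maxSize 2000

namespace Pool.Agent.Helper672.ZFA.Q301SF

open FirstOrder FirstOrder.Language
open Pool.Agent.Helper672.ZFA.H635 (IPerm SymSys IG WFI FEq FMem tw Good feq_of_map feq_iff IsGen
  nd nd_eq mem_nd mem_nd_nd exists_mk mk_eq_nd EqFam NN nn_ext CollL nn_zf mem_NN extG SymQ
  good_extG mem_nd_inr feq_equivQ fmem_tw toL)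
open Pool.Agent.Helper672.ZFA.H310M (PGr FS fsu fs1 mem_fs1 fsi mem_fsi Co Cel Gm rhoi sig sigi
  rho_rhoi rhoi_rho sig_sigi sigi_sig sig_fst sig_snd sigi_fst sigi_snd rho_comp sig_comp sigi_comp
  rho_inv rhoi_inv sig_inv sigi_inv sig_one sigi_one rho_one int_rho int_rhoi int_sig int_sigi
  mem_smul' SS SS_U rho_of_U UU TS ts int_ts mem_ts mem_ts_sig ts_surj ts_of_U cell_eq cell_eq'
  exists_free exists_add exists_move)
open Pool.Agent.Helper672.Plain (LSet)

universe u u₁

/-- A sequence of ultrafilters `C (n, ·)` on a set of indiscernibles. -/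
structure UD (N : Type u) [L.Structure N] [IsModel N] {δ : Type u₁} [ITy N δ]
    (C : INat N × IPow N δ → Prop) : Prop where
  int : Int N C
  mono : ∀ n A B, C (n, A) → (∀ x, x ∈ A → x ∈ B) → C (n, B)
  inter : ∀ n A B, C (n, A) → C (n, B) → C (n, A ∩ B)
  npr : ∀ n A, C (n, A) → ¬ IFin A
  ultra : ∀ n A, C (n, A) ∨ C (n, iuniv N δ \ A)
  sep : ∀ m n, m ≠ n → ∃ A, C (m, A) ∧ ¬ C (n, A)
  dense : ∀ A, ¬ IFin A → ∃ n, C (n, A)
  half : ∀ A : IPow N δ, ¬ IFin A → ∃ B : IPow N δ, (∀ x, x ∈ B → x ∈ A) ∧ ¬ IFin B ∧
    ¬ IFin (A \ B)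
  hom : ∀ J : IPow N δ × INat N → Prop, Int N J → ∃ F : IPow N (IPow N δ), IFin F ∧
    ∀ A n, J (A, n) → ∃ m : INat N, ∀ H₁ H₂ : IPow N δ, (∀ x, x ∈ H₁ → x ∈ A) →
      (∀ x, x ∈ H₂ → ¬ x ∈ A) →
      (∀ D, D ∈ F → ∀ x y, x ∈ H₁ ∨ x ∈ H₂ → y ∈ H₁ ∨ y ∈ H₂ → x ∈ D → y ∈ D) →
      ¬ IFin H₁ → (∀ k, k < m → ¬ C (k, H₁)) → (∀ k, k < m → ¬ C (k, H₂)) →
      ∃ H : IPow N δ, (∀ x, x ∈ H → x ∈ H₁) ∧ J ((A \ H) ∪ H₂, n)

/-- Induction along a finite family of sets. -/
theorem atom_ind {N : Type u} [L.Structure N] [IsModel N] {δ : Type u₁} [ITy N δ]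
    {K S : IPow N δ → Prop} (hK : Int N K) (hS : Int N S) (hKi : ∀ A D, K A → K D → K (A ∩ D))
    (hKd : ∀ A D, K A → K D → K (A \ D))
    (hSu : ∀ A D, K A → K D → S (A ∩ D) → S (A \ D) → S A)
    {F : IPow N (IPow N δ)} (hF : IFin F) : (∀ D, D ∈ F → K D) → ∀ A, K A →
      (∀ A', (∀ x, x ∈ A' → x ∈ A) → K A' →
        (∀ D, D ∈ F → ∀ x y, x ∈ A' → y ∈ A' → x ∈ D → y ∈ D) → S A') → S A := by
  refine IFin.ind (p := fun F : IPow N (IPow N δ) => (∀ D, D ∈ F → K D) → ∀ A, K A →
      (∀ A', (∀ x, x ∈ A' → x ∈ A) → K A' →
        (∀ D, D ∈ F → ∀ x y, x ∈ A' → y ∈ A' → x ∈ D → y ∈ D) → S A') → S A) (by (repeat' (first | with_reducible exact IntF.id | with_reducible exact IntF.fst' | with_reducible exact IntF.snd' | with_reducible exact IntF.const _ | with_reducible exact Int.const _ | assumption | with_reducible apply Int.and | with_reducible apply Int.or | with_reducible apply Int.not | with_reducible apply Int.imp | with_reducible apply Int.iff | with_reducible apply Int.ne | with_reducible apply Int.eq | with_reducible apply Int.mem | with_reducible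 apply Int.subset | with_reducible apply Int.ltN | with_reducible apply Int.leN | with_reducible_and_instances apply Int.le | with_reducible_and_instances apply Int.lt | with_reducible apply Int.all | with_reducible apply Int.ex | with_reducible apply IntF.fst | with_reducible apply IntF.snd | with_reducible apply IntF.app | with_reducible apply IntF.inl | with_reducible apply IntF.inr | with_reducible_and_instances apply IntF.mul | with_reducible_and_instances apply IntF.inv | with_reducible_and_instances apply IntF.add | with_reducible_and_instances apply IntF.sub | with_reducible_and_instances apply IntF.neg | with_reducible_and_instances apply IntF.smul | with_reducible apply Int.fin | with_reducible apply IntF.sep | with_reducible apply IntF.lam | with_reducible apply IntF.insert | with_reducible apply IntF.singleton | with_reducible apply IntF.union | with_reducible apply IntF.iimage | with_reducible apply IntF.ite | with_reducible apply IntF.the | with_reducible apply IntF.irec | with_reducible apply IntF.succ | with_reducible apply IntF.val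 | with_reducible apply IntF.mk | (with_reducible refine Int.comp ?_ ?_; assumption) | (with_reducible refine Int.comp₂ ?_ ?_ ?_; assumption) | (with_reducible refine Int.comp₃ ?_ ?_ ?_ ?_; assumption) | (with_reducible refine Int.comp₄ ?_ ?_ ?_ ?_ ?_; assumption) | (with_reducible refine IntF.comp ?_ ?_; assumption) | (with_reducible refine IntF.comp₂ ?_ ?_ ?_; assumption) | (with_reducible refine IntF.comp₃ ?_ ?_ ?_ ?_; assumption) | with_reducible apply IntF.pair))) ?_ ?_ F hF
  · intro _ A hA h
    exact h A (fun _ h => h) hA fun D hD => absurd hD (by simp)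
  · intro F D _ _ ih hKF A hA h
    have hD : K D := hKF D (mem_insert.2 (Or.inl rfl))
    have hKF' : ∀ D, D ∈ F → K D := fun D hD => hKF D (mem_insert.2 (Or.inr hD))
    refine hSu A D hA hD ?_ ?_
    · refine ih hKF' (A ∩ D) (hKi A D hA hD) fun A' h1 h2 h3 => h A' (fun x hx =>
        (mem_inter.1 (h1 x hx)).1) h2 fun D' hD' x y hx hy hxD => ?_
      rcases mem_insert.1 hD' with rfl | hD'
      · exact (mem_inter.1 (h1 y hy)).2
      · exact h3 D' hD' x y hx hy hxD
    · refine ih hKF' (A \ D) (hKd A D hA hD) fun A' h1 h2 h3 => h A' (fun x hx =>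
        (mem_sdiff.1 (h1 x hx)).1) h2 fun D' hD' x y hx hy hxD => ?_
      rcases mem_insert.1 hD' with rfl | hD'
      · exact absurd hxD (mem_sdiff.1 (h1 x hx)).2
      · exact h3 D' hD' x y hx hy hxD

section

variable {M : Type u} [L.Structure M] [hM : IsModel M]

/-- The finite family of a support. -/
noncomputable def lf (l : LQ M (INat M)) : IPow M (IPow M (INat M)) :=
  l.2.1 ∪ iimage (fun x => ({x} : IPow M (INat M))) l.1.1

theorem int_sgl : IntF M (fun x : INat M => ({x} : IPow M (INat M))) := by (repeat' (first | with_reducible exact IntF.id | with_reducible exact IntF.fst' | with_reducible exact IntF.snd' | with_reducible exact IntF.const _ | with_reducible exact Int.const _ | assumption | with_reducible apply Int.and | with_reducible apply Int.or | with_reducible apply Int.not | with_reducible apply Int.imp | with_reducible apply Int.iff | with_reducible apply Int.ne | with_reducible apply Int.eq | with_reducible apply Int.mem | with_reducible apply Int.subset | with_reducible apply Int.ltN | with_reducible apply Int.leN | with_reducible_and_instances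 apply Int.le | with_reducible_and_instances apply Int.lt | with_reducible apply Int.all | with_reducible apply Int.ex | with_reducible apply IntF.fst | with_reducible apply IntF.snd | with_reducible apply IntF.app | with_reducible apply IntF.inl | with_reducible apply IntF.inr | with_reducible_and_instances apply IntF.mul | with_reducible_and_instances apply IntF.inv | with_reducible_and_instances apply IntF.add | with_reducible_and_instances apply IntF.sub | with_reducible_and_instances apply IntF.neg | with_reducible_and_instances apply IntF.smul | with_reducible apply Int.fin | with_reducible apply IntF.sep | with_reducible apply IntF.lam | with_reducible apply IntF.insert | with_reducible apply IntF.singleton | with_reducible apply IntF.union | with_reducible apply IntF.iimage | with_reducible apply IntF.ite | with_reducible apply IntF.the | with_reducible apply IntF.irec | with_reducible apply IntF.succ | with_reducible apply IntF.val | with_reducible apply IntF.mk | (with_reducible refine Int.comp ?_ ?_; assumption) | (with_reducible refine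 Int.comp₂ ?_ ?_ ?_; assumption) | (with_reducible refine Int.comp₃ ?_ ?_ ?_ ?_; assumption) | (with_reducible refine Int.comp₄ ?_ ?_ ?_ ?_ ?_; assumption) | (with_reducible refine IntF.comp ?_ ?_; assumption) | (with_reducible refine IntF.comp₂ ?_ ?_ ?_; assumption) | (with_reducible refine IntF.comp₃ ?_ ?_ ?_ ?_; assumption) | with_reducible apply IntF.pair))

theorem fin_lf (l : LQ M (INat M)) : IFin (lf l) := l.2.2.union (l.1.2.image int_sgl)

theorem mem_lf₁ {l : LQ M (INat M)} {b : IPow M (INat M)} (h : b ∈ l.2.1) : b ∈ lf l :=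
  mem_union.2 (Or.inl h)

theorem mem_lf₂ {l : LQ M (INat M)} {x : INat M} (h : x ∈ l.1.1) :
    ({x} : IPow M (INat M)) ∈ lf l := mem_union.2 (Or.inr ((mem_iimage int_sgl).2 ⟨x, h, rfl⟩))

variable {G : Set (PP M (INat M))} (hG : IsGen M G) (hC : CollL M)

theorem db_inj {a b : IPow M (INat M)} (h : db (ZT M (INat M)) hG a = db (ZT M (INat M)) hG b) :
    a = b := by
  have key : ∀ a b : IPow M (INat M), db (ZT M (INat M)) hG a = db (ZT M (INat M)) hG b →
      ∀ x, x ∈ a → x ∈ b := by
    intro a b h x hx
    obtain ⟨y, hy, h1⟩ := (mem_db hG).1 (h ▸ (mem_db (Z := ZT M (INat M)) hG).2 ⟨x, hx, rfl⟩)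
    rw [ca_inj] at h1
    exact h1 ▸ hy
  exact IPow.ext' fun x => ⟨key a b h x, key b a h.symm x⟩

include hC in
theorem exists_ud : ∃ (z : NN (SQ (ZT M (INat M))) hG)
    (C : INat (NN (SQ (ZT M (INat M))) hG) × IPow (NN (SQ (ZT M (INat M))) hG) (El z) → Prop),
    UD _ C := by
  obtain ⟨l₀⟩ := (SQ (ZT M (INat M))).nonempty
  obtain ⟨z, hz⟩ := EqFam.set (ef_ca (Z := ZT M (INat M)) hG) (Z := fun _ => True) (Int.const _)
    ⟨l₀, fun _ _ _ _ => trivial⟩
  have hA : ∀ x, Mem (ca (ZT M (INat M)) hG x) z := fun x => (hz _).2 ⟨x, trivial, rfl⟩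
  obtain ⟨eB, heB⟩ : ∃ eB : INat M → El z, ∀ x, (eB x).1 = ca (ZT M (INat M)) hG x :=
    ⟨fun x => ⟨_, hA x⟩, fun _ => rfl⟩
  have hsurj : ∀ a : El z, ∃ x, eB x = a := fun a => by
    obtain ⟨x, -, hx⟩ := (hz _).1 a.2
    exact ⟨x, Subtype.ext ((heB x).trans hx.symm)⟩
  have heI : ∀ x y, eB x = eB y → x = y := fun x y h => by
    have h1 := congrArg Subtype.val h
    rw [heB, heB] at h1
    exact (ca_inj hG).1 h1
  have hcode : ∀ (A : IPow (NN (SQ (ZT M (INat M))) hG) (El z)) (x : INat M),
      Mem (ca (ZT M (INat M)) hG x) (code (M := NN (SQ (ZT M (INat M))) hG) A) ↔ eB x ∈ A := by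
    intro A x
    rw [← heB x]
    exact mem_code_iff (M := NN (SQ (ZT M (INat M))) hG) (a := eB x) (s := A)
  -- the sets of the ground model
  obtain ⟨dB, hdB, hdc⟩ : ∃ dB : IPow M (INat M) → IPow (NN (SQ (ZT M (INat M))) hG) (El z),
      (∀ b x, eB x ∈ dB b ↔ x ∈ b) ∧ ∀ b, code (M := NN (SQ (ZT M (INat M))) hG) (dB b) =
        db (ZT M (INat M)) hG b := by
    have hI : ∀ b, Int (NN (SQ (ZT M (INat M))) hG) (fun a : El z =>
        Mem a.1 (db (ZT M (INat M)) hG b)) := fun b => ⟨db (ZT M (INat M)) hG b, fun _ => Iff.rfl⟩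
    have h1 : ∀ b x, eB x ∈ sep (NN (SQ (ZT M (INat M))) hG) (fun a : El z => Mem a.1 (db (ZT M (INat M)) hG b)) ↔ x ∈ b := by
      intro b x
      rw [mem_sep (hI b), heB]
      refine (mem_db hG).trans ⟨?_, fun h => ⟨x, h, rfl⟩⟩
      rintro ⟨y, hy, h⟩
      rwa [(ca_inj hG).1 h]
    refine ⟨fun b => sep (NN (SQ (ZT M (INat M))) hG) (fun a : El z => Mem a.1 (db (ZT M (INat M)) hG b)), h1, fun b => ?_⟩
    refine ext' hG fun w => ?_
    constructor
    · intro hw
      obtain ⟨a, ha, rfl⟩ := mem_code_pow.1 hw
      obtain ⟨x, rfl⟩ := hsurj a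
      exact (mem_db hG).2 ⟨x, (h1 b x).1 ha, heB x⟩
    · intro hw
      obtain ⟨x, hx, rfl⟩ := (mem_db hG).1 hw
      exact (hcode _ x).2 ((h1 b x).2 hx)
  have hdI : ∀ a b, dB a = dB b → a = b := fun a b h => IPow.ext' fun x => by
    rw [← hdB, h, hdB]
  obtain ⟨DD, hDD⟩ := EqFam.set (ef_db (Z := ZT M (INat M)) hG) (Z := fun _ => True) (Int.const _)
    ⟨l₀, fun _ _ _ _ => trivial⟩
  have hDDm : ∀ b, Mem (db (ZT M (INat M)) hG b) DD := fun b => (hDD _).2 ⟨b, trivial, rfl⟩
  have hKiff : ∀ A : IPow (NN (SQ (ZT M (INat M))) hG) (El z),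
      Mem (code (M := NN (SQ (ZT M (INat M))) hG) A) DD ↔ ∃ b, dB b = A := by
    intro A
    refine (hDD _).trans ⟨?_, ?_⟩
    · rintro ⟨b, -, h⟩
      exact ⟨b, ITy.inj ((hdc b).trans h.symm)⟩
    · rintro ⟨b, rfl⟩
      exact ⟨b, trivial, hdc b⟩
  have hKI : Int (NN (SQ (ZT M (INat M))) hG) (fun A : IPow (NN (SQ (ZT M (INat M))) hG) (El z) =>
      Mem (code (M := NN (SQ (ZT M (INat M))) hG) A) DD) := ⟨DD, fun _ => Iff.rfl⟩
  have hint : ∀ a b, dB (a ∩ b) = dB a ∩ dB b := fun a b => IPow.ext' fun y => by
    obtain ⟨x, rfl⟩ := hsurj y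
    rw [hdB, mem_inter, mem_inter, hdB, hdB]
  have hdif : ∀ a b, dB (a \ b) = dB a \ dB b := fun a b => IPow.ext' fun y => by
    obtain ⟨x, rfl⟩ := hsurj y
    rw [hdB, mem_sdiff, mem_sdiff, hdB, hdB]
  have huni : ∀ a b, dB (a ∪ b) = dB a ∪ dB b := fun a b => IPow.ext' fun y => by
    obtain ⟨x, rfl⟩ := hsurj y
    rw [hdB, mem_union, mem_union, hdB, hdB]
  have htop : dB (iuniv M (INat M)) = iuniv _ (El z) := IPow.ext' fun y => by
    obtain ⟨x, rfl⟩ := hsurj y
    rw [hdB]
    simp
  have hsing : ∀ x, dB {x} = {eB x} := fun x => IPow.ext' fun y => by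
    obtain ⟨y, rfl⟩ := hsurj y
    rw [hdB, mem_singleton, mem_singleton]
    exact ⟨fun h => h ▸ rfl, fun h => heI _ _ h⟩
  -- finite families
  have hfinF : ∀ F : IPow M (IPow M (INat M)), IFin F →
      ∃ F' : IPow (NN (SQ (ZT M (INat M))) hG) (IPow (NN (SQ (ZT M (INat M))) hG) (El z)),
        IFin F' ∧ (∀ b, b ∈ F → dB b ∈ F') ∧ ∀ A, A ∈ F' → ∃ b, b ∈ F ∧ dB b = A := by
    intro F hF
    obtain ⟨s, h1, h2, h3⟩ := exists_fin (S := SQ (ZT M (INat M))) hG hC (ef_db hG)
      (fun π b => mb_inv_mb π b) (fun a b h => db_inj hG h) hDDm hF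
      ⟨(⟨∅, IFin.empty⟩, ⟨F, hF⟩), fun π hπ c hc => mb_of_U hπ hc⟩
    have hI0 : Int (NN (SQ (ZT M (INat M))) hG) (fun q : El DD × El z => Mem q.2.1 q.1.1) :=
      Int.of_D₂ (S := fun v => Mem (v 1) (v 0)) (D.memf (DF.var _) (DF.var _)) fun _ _ => Iff.rfl
    have hI : IntF (NN (SQ (ZT M (INat M))) hG)
        (fun w : El DD => sep (NN (SQ (ZT M (INat M))) hG) fun a : El z => Mem a.1 w.1) := by
      refine IntF.sep ?_
      exact hI0
    have hI1 : ∀ w : El DD, Int (NN (SQ (ZT M (INat M))) hG) (fun a : El z => Mem a.1 w.1) :=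
      fun w => ⟨w.1, fun _ => Iff.rfl⟩
    have hval : ∀ (w : El DD) (b : IPow M (INat M)), w.1 = db (ZT M (INat M)) hG b →
        (sep (NN (SQ (ZT M (INat M))) hG) fun a : El z => Mem a.1 w.1) = dB b := by
      intro w b hwb
      refine IPow.ext' fun y => ?_
      obtain ⟨x, rfl⟩ := hsurj y
      rw [mem_sep (hI1 w), hdB, hwb, heB]
      refine (mem_db hG).trans ⟨?_, fun h => ⟨x, h, rfl⟩⟩
      rintro ⟨y, hy, h⟩
      rwa [(ca_inj hG).1 h]
    refine ⟨iimage (fun w : El DD => sep (NN (SQ (ZT M (INat M))) hG) fun a : El z =>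
      Mem a.1 w.1) s, h1.image hI, fun b hb => ?_, fun A hA' => ?_⟩
    · exact (mem_iimage hI).2 ⟨⟨_, hDDm b⟩, (h2 b).2 hb, hval _ b rfl⟩
    · obtain ⟨w, hw, rfl⟩ := (mem_iimage hI).1 hA'
      obtain ⟨b, hb, h4⟩ := h3 w hw
      exact ⟨b, hb, (hval w b h4).symm⟩
  -- all sets of atoms are sets of the ground model
  have hall : ∀ A : IPow (NN (SQ (ZT M (INat M))) hG) (El z), ∃ b, dB b = A := by
    intro A
    obtain ⟨l, hl⟩ := hom1 hG (code (M := NN (SQ (ZT M (INat M))) hG) A)
    obtain ⟨F, hF, hF1, hF2⟩ := hfinF (lf l) (fin_lf l)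
    have hSI : Int (NN (SQ (ZT M (INat M))) hG)
        (fun A' : IPow (NN (SQ (ZT M (INat M))) hG) (El z) =>
          Mem (code (M := NN (SQ (ZT M (INat M))) hG) (A ∩ A')) DD) := by
      have h1 : IntF (NN (SQ (ZT M (INat M))) hG)
        (fun A' : IPow (NN (SQ (ZT M (INat M))) hG) (El z) => A ∩ A') :=
        IntF.inter (IntF.const A) IntF.id
      exact Int.comp (p := fun A : IPow (NN (SQ (ZT M (INat M))) hG) (El z) =>
        Mem (code (M := NN (SQ (ZT M (INat M))) hG) A) DD) hKI h1
    have key := atom_ind (N := NN (SQ (ZT M (INat M))) hG) (δ := El z)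
      (K := fun A => Mem (code (M := NN (SQ (ZT M (INat M))) hG) A) DD)
      (S := fun A' => Mem (code (M := NN (SQ (ZT M (INat M))) hG) (A ∩ A')) DD) hKI hSI
      (fun A D hA hD => by
        rw [hKiff] at hA hD ⊢
        obtain ⟨a, rfl⟩ := hA
        obtain ⟨b, rfl⟩ := hD
        exact ⟨_, hint a b⟩)
      (fun A D hA hD => by
        rw [hKiff] at hA hD ⊢
        obtain ⟨a, rfl⟩ := hA
        obtain ⟨b, rfl⟩ := hD
        exact ⟨_, hdif a b⟩)
      (fun A' D _ _ h1 h2 => by
        rw [hKiff] at h1 h2 ⊢
        obtain ⟨a, ha⟩ := h1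
        obtain ⟨b, hb⟩ := h2
        refine ⟨a ∪ b, ?_⟩
        rw [huni, ha, hb]
        refine IPow.ext' fun y => ?_
        simp only [mem_union, mem_inter, mem_sdiff]
        tauto)
      hF (fun D hD => by
        rw [hKiff]
        obtain ⟨b, -, h⟩ := hF2 D hD
        exact ⟨b, h⟩) (iuniv _ (El z)) ((hKiff _).2 ⟨_, htop⟩) (fun A' _ h1 h2 => ?_)
    · rw [hKiff] at key
      obtain ⟨b, hb⟩ := key
      refine ⟨b, hb.trans (IPow.ext' fun y => ?_)⟩
      rw [mem_inter]
      simp
    · rw [hKiff] at h1 ⊢
      obtain ⟨v, rfl⟩ := h1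
      by_cases h3 : ∃ x, x ∈ v ∧ eB x ∈ A
      · obtain ⟨x, hx, hxA⟩ := h3
        refine ⟨v, IPow.ext' fun y => ?_⟩
        obtain ⟨y, rfl⟩ := hsurj y
        rw [mem_inter, hdB]
        refine ⟨fun hy => ⟨?_, hy⟩, fun hy => hy.2⟩
        by_cases hxy : x = y
        · rw [← hxy]
          exact hxA
        have hat : ∀ b, b ∈ lf l → (x ∈ b ↔ y ∈ b) := by
          intro b hb
          have h4 := h2 (dB b) (hF1 b hb)
          have h5 := h4 (eB x) (eB y) ((hdB _ _).2 hx) ((hdB _ _).2 hy)
          have h6 := h4 (eB y) (eB x) ((hdB _ _).2 hy) ((hdB _ _).2 hx)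
          rw [hdB, hdB] at h5 h6
          exact ⟨h5, h6⟩
        refine (hcode A y).1 (hl x y (fun h => ?_) (fun h => ?_) (fun b hb => hat b (mem_lf₁ hb))
          ((hcode A x).2 hxA))
        · exact hxy (mem_singleton.1 ((hat _ (mem_lf₂ h)).1 (mem_singleton.2 rfl))).symm
        · exact hxy (mem_singleton.1 ((hat _ (mem_lf₂ h)).2 (mem_singleton.2 rfl)))
      · refine ⟨∅, IPow.ext' fun y => ?_⟩
        obtain ⟨y, rfl⟩ := hsurj y
        rw [mem_inter, hdB, hdB]
        refine ⟨fun h => absurd h (by simp), fun h => absurd ⟨y, h.2, h.1⟩ h3⟩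
  -- finite sets
  have hFinI : Int M (fun b : IPow M (INat M) => IFin b) := by (repeat' (first | with_reducible exact IntF.id | with_reducible exact IntF.fst' | with_reducible exact IntF.snd' | with_reducible exact IntF.const _ | with_reducible exact Int.const _ | assumption | with_reducible apply Int.and | with_reducible apply Int.or | with_reducible apply Int.not | with_reducible apply Int.imp | with_reducible apply Int.iff | with_reducible apply Int.ne | with_reducible apply Int.eq | with_reducible apply Int.mem | with_reducible apply Int.subset | with_reducible apply Int.ltN | with_reducible apply Int.leN | with_reducible_and_instances apply Int.le | with_reducible_and_instances apply Int.lt | with_reducible apply Int.all | with_reducible apply Int.ex | with_reducible apply IntF.fst | with_reducible apply IntF.snd | with_reducible apply IntF.app | with_reducible apply IntF.inl | with_reducible apply IntF.inr | with_reducible_and_instances apply IntF.mul | with_reducible_and_instances apply IntF.inv | with_reducible_and_instances apply IntF.add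 | with_reducible_and_instances apply IntF.sub | with_reducible_and_instances apply IntF.neg | with_reducible_and_instances apply IntF.smul | with_reducible apply Int.fin | with_reducible apply IntF.sep | with_reducible apply IntF.lam | with_reducible apply IntF.insert | with_reducible apply IntF.singleton | with_reducible apply IntF.union | with_reducible apply IntF.iimage | with_reducible apply IntF.ite | with_reducible apply IntF.the | with_reducible apply IntF.irec | with_reducible apply IntF.succ | with_reducible apply IntF.val | with_reducible apply IntF.mk | (with_reducible refine Int.comp ?_ ?_; assumption) | (with_reducible refine Int.comp₂ ?_ ?_ ?_; assumption) | (with_reducible refine Int.comp₃ ?_ ?_ ?_ ?_; assumption) | (with_reducible refine Int.comp₄ ?_ ?_ ?_ ?_ ?_; assumption) | (with_reducible refine IntF.comp ?_ ?_; assumption) | (with_reducible refine IntF.comp₂ ?_ ?_ ?_; assumption) | (with_reducible refine IntF.comp₃ ?_ ?_ ?_ ?_; assumption) | with_reducible apply IntF.pair))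
  obtain ⟨FF, hFF⟩ := EqFam.set (ef_db (Z := ZT M (INat M)) hG) (Z := fun b => IFin b) hFinI
    ⟨l₀, fun π _ b hb => (hb.image (f := fun x => (H310M.rho) π x) (by
      have h : IntF M (fun q : Gm (ZT M (INat M)) × INat M => (H310M.rho) q.1 q.2) := int_rho
      (repeat' (first | with_reducible exact IntF.id | with_reducible exact IntF.fst' | with_reducible exact IntF.snd' | with_reducible exact IntF.const _ | with_reducible exact Int.const _ | assumption | with_reducible apply Int.and | with_reducible apply Int.or | with_reducible apply Int.not | with_reducible apply Int.imp | with_reducible apply Int.iff | with_reducible apply Int.ne | with_reducible apply Int.eq | with_reducible apply Int.mem | with_reducible apply Int.subset | with_reducible apply Int.ltN | with_reducible apply Int.leN | with_reducible_and_instances apply Int.le | with_reducible_and_instances apply Int.lt | with_reducible apply Int.all | with_reducible apply Int.ex | with_reducible apply IntF.fst | with_reducible apply IntF.snd | with_reducible apply IntF.app | with_reducible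 apply IntF.inl | with_reducible apply IntF.inr | with_reducible_and_instances apply IntF.mul | with_reducible_and_instances apply IntF.inv | with_reducible_and_instances apply IntF.add | with_reducible_and_instances apply IntF.sub | with_reducible_and_instances apply IntF.neg | with_reducible_and_instances apply IntF.smul | with_reducible apply Int.fin | with_reducible apply IntF.sep | with_reducible apply IntF.lam | with_reducible apply IntF.insert | with_reducible apply IntF.singleton | with_reducible apply IntF.union | with_reducible apply IntF.iimage | with_reducible apply IntF.ite | with_reducible apply IntF.the | with_reducible apply IntF.irec | with_reducible apply IntF.succ | with_reducible apply IntF.val | with_reducible apply IntF.mk | (with_reducible refine Int.comp ?_ ?_; assumption) | (with_reducible refine Int.comp₂ ?_ ?_ ?_; assumption) | (with_reducible refine Int.comp₃ ?_ ?_ ?_ ?_; assumption) | (with_reducible refine Int.comp₄ ?_ ?_ ?_ ?_ ?_; assumption) | (with_reducible refine IntF.comp ?_ ?_; assumption) | (with_reducible refine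 IntF.comp₂ ?_ ?_ ?_; assumption) | (with_reducible refine IntF.comp₃ ?_ ?_ ?_ ?_; assumption) | with_reducible apply IntF.pair)))).subset fun x hx => (mem_iimage (by
        have h : IntF M (fun q : Gm (ZT M (INat M)) × INat M => (H310M.rho) q.1 q.2) := int_rho
        (repeat' (first | with_reducible exact IntF.id | with_reducible exact IntF.fst' | with_reducible exact IntF.snd' | with_reducible exact IntF.const _ | with_reducible exact Int.const _ | assumption | with_reducible apply Int.and | with_reducible apply Int.or | with_reducible apply Int.not | with_reducible apply Int.imp | with_reducible apply Int.iff | with_reducible apply Int.ne | with_reducible apply Int.eq | with_reducible apply Int.mem | with_reducible apply Int.subset | with_reducible apply Int.ltN | with_reducible apply Int.leN | with_reducible_and_instances apply Int.le | with_reducible_and_instances apply Int.lt | with_reducible apply Int.all | with_reducible apply Int.ex | with_reducible apply IntF.fst | with_reducible apply IntF.snd | with_reducible apply IntF.app | with_reducible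 apply IntF.inl | with_reducible apply IntF.inr | with_reducible_and_instances apply IntF.mul | with_reducible_and_instances apply IntF.inv | with_reducible_and_instances apply IntF.add | with_reducible_and_instances apply IntF.sub | with_reducible_and_instances apply IntF.neg | with_reducible_and_instances apply IntF.smul | with_reducible apply Int.fin | with_reducible apply IntF.sep | with_reducible apply IntF.lam | with_reducible apply IntF.insert | with_reducible apply IntF.singleton | with_reducible apply IntF.union | with_reducible apply IntF.iimage | with_reducible apply IntF.ite | with_reducible apply IntF.the | with_reducible apply IntF.irec | with_reducible apply IntF.succ | with_reducible apply IntF.val | with_reducible apply IntF.mk | (with_reducible refine Int.comp ?_ ?_; assumption) | (with_reducible refine Int.comp₂ ?_ ?_ ?_; assumption) | (with_reducible refine Int.comp₃ ?_ ?_ ?_ ?_; assumption) | (with_reducible refine Int.comp₄ ?_ ?_ ?_ ?_ ?_; assumption) | (with_reducible refine IntF.comp ?_ ?_; assumption) | (with_reducible refine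 IntF.comp₂ ?_ ?_ ?_; assumption) | (with_reducible refine IntF.comp₃ ?_ ?_ ?_ ?_; assumption) | with_reducible apply IntF.pair)))).2 ⟨rhoi π x, mem_mb.1 hx, rho_rhoi π x⟩⟩
  have hFFiff : ∀ b, Mem (db (ZT M (INat M)) hG b) FF ↔ IFin b := by
    intro b
    refine (hFF _).trans ⟨?_, fun h => ⟨b, h, rfl⟩⟩
    rintro ⟨b', h1, h2⟩
    rwa [db_inj hG h2]
  have hfin1 : ∀ b, IFin (dB b) → IFin b := by
    have h1 : ∀ A : IPow (NN (SQ (ZT M (INat M))) hG) (El z), IFin A →
        Mem (code (M := NN (SQ (ZT M (INat M))) hG) A) FF := by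
      intro A hA
      refine IFin.ind (p := fun A : IPow (NN (SQ (ZT M (INat M))) hG) (El z) =>
        Mem (code (M := NN (SQ (ZT M (INat M))) hG) A) FF) ⟨FF, fun _ => Iff.rfl⟩ ?_ ?_ A hA
      · have : (∅ : IPow (NN (SQ (ZT M (INat M))) hG) (El z)) = dB ∅ := IPow.ext' fun y => by
          obtain ⟨y, rfl⟩ := hsurj y
          rw [hdB]
          simp
        rw [this, hdc, hFFiff]
        exact IFin.empty
      · intro s a _ _ ih
        obtain ⟨b, rfl⟩ := hall s
        obtain ⟨x, rfl⟩ := hsurj a
        have : insert (eB x) (dB b) = dB (insert x b) := IPow.ext' fun y => by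
          obtain ⟨y, rfl⟩ := hsurj y
          rw [mem_insert, hdB, hdB, mem_insert]
          exact or_congr ⟨fun h => heI _ _ h, fun h => h ▸ rfl⟩ Iff.rfl
        rw [this, hdc, hFFiff]
        rw [hdc, hFFiff] at ih
        exact ih.insert x
    intro b hb
    have h2 := h1 _ hb
    rwa [hdc, hFFiff] at h2
  have hfin2 : ∀ b, IFin b → IFin (dB b) := by
    intro b hb
    obtain ⟨s, h1, h2, -⟩ := exists_fin (S := SQ (ZT M (INat M))) hG hC (ef_ca hG)
      (fun π b => rhoi_rho π b) (fun a b h => (ca_inj hG).1 h) hA hb
      ⟨(⟨b, hb⟩, ⟨∅, IFin.empty⟩), fun π hπ c hc => rho_of_UU hπ.1 hc⟩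
    refine h1.subset fun y hy => ?_
    obtain ⟨y, rfl⟩ := hsurj y
    have h3 : eB y = ⟨ca (ZT M (INat M)) hG y, hA y⟩ := Subtype.ext (heB y)
    rw [h3]
    exact (h2 y).2 ((hdB b y).1 hy)
  have hfin : ∀ b, IFin (dB b) ↔ IFin b := fun b => ⟨hfin1 b, hfin2 b⟩
  -- the ultrafilters
  have hfU : EqFam hG (fun (π : Gm (ZT M (INat M))) (q : INat M × IPow M (INat M)) =>
      (q.1, mb π q.2)) (fun q => op (nn _ hG q.1) (db (ZT M (INat M)) hG q.2)) := by
    refine EqFam.op (fun π b => Prod.ext rfl (mb_inv_mb π _)) ?_ ?_
    · exact EqFam.comp (ef_nn hG) (φ := fun q : INat M × IPow M (INat M) => q.1) (by (repeat' (first | with_reducible exact IntF.id | with_reducible exact IntF.fst' | with_reducible exact IntF.snd' | with_reducible exact IntF.const _ | with_reducible exact Int.const _ | assumption | with_reducible apply Int.and | with_reducible apply Int.or | with_reducible apply Int.not | with_reducible apply Int.imp | with_reducible apply Int.iff | with_reducible apply Int.ne | with_reducible apply Int.eq | with_reducible apply Int.mem | with_reducible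 apply Int.subset | with_reducible apply Int.ltN | with_reducible apply Int.leN | with_reducible_and_instances apply Int.le | with_reducible_and_instances apply Int.lt | with_reducible apply Int.all | with_reducible apply Int.ex | with_reducible apply IntF.fst | with_reducible apply IntF.snd | with_reducible apply IntF.app | with_reducible apply IntF.inl | with_reducible apply IntF.inr | with_reducible_and_instances apply IntF.mul | with_reducible_and_instances apply IntF.inv | with_reducible_and_instances apply IntF.add | with_reducible_and_instances apply IntF.sub | with_reducible_and_instances apply IntF.neg | with_reducible_and_instances apply IntF.smul | with_reducible apply Int.fin | with_reducible apply IntF.sep | with_reducible apply IntF.lam | with_reducible apply IntF.insert | with_reducible apply IntF.singleton | with_reducible apply IntF.union | with_reducible apply IntF.iimage | with_reducible apply IntF.ite | with_reducible apply IntF.the | with_reducible apply IntF.irec | with_reducible apply IntF.succ | with_reducible apply IntF.val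 | with_reducible apply IntF.mk | (with_reducible refine Int.comp ?_ ?_; assumption) | (with_reducible refine Int.comp₂ ?_ ?_ ?_; assumption) | (with_reducible refine Int.comp₃ ?_ ?_ ?_ ?_; assumption) | (with_reducible refine Int.comp₄ ?_ ?_ ?_ ?_ ?_; assumption) | (with_reducible refine IntF.comp ?_ ?_; assumption) | (with_reducible refine IntF.comp₂ ?_ ?_ ?_; assumption) | (with_reducible refine IntF.comp₃ ?_ ?_ ?_ ?_; assumption) | with_reducible apply IntF.pair)))
        fun _ _ => rfl
    · exact EqFam.comp (ef_db hG) (φ := fun q : INat M × IPow M (INat M) => q.2) (by (repeat' (first | with_reducible exact IntF.id | with_reducible exact IntF.fst' | with_reducible exact IntF.snd' | with_reducible exact IntF.const _ | with_reducible exact Int.const _ | assumption | with_reducible apply Int.and | with_reducible apply Int.or | with_reducible apply Int.not | with_reducible apply Int.imp | with_reducible apply Int.iff | with_reducible apply Int.ne | with_reducible apply Int.eq | with_reducible apply Int.mem | with_reducible apply Int.subset | with_reducible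 apply Int.ltN | with_reducible apply Int.leN | with_reducible_and_instances apply Int.le | with_reducible_and_instances apply Int.lt | with_reducible apply Int.all | with_reducible apply Int.ex | with_reducible apply IntF.fst | with_reducible apply IntF.snd | with_reducible apply IntF.app | with_reducible apply IntF.inl | with_reducible apply IntF.inr | with_reducible_and_instances apply IntF.mul | with_reducible_and_instances apply IntF.inv | with_reducible_and_instances apply IntF.add | with_reducible_and_instances apply IntF.sub | with_reducible_and_instances apply IntF.neg | with_reducible_and_instances apply IntF.smul | with_reducible apply Int.fin | with_reducible apply IntF.sep | with_reducible apply IntF.lam | with_reducible apply IntF.insert | with_reducible apply IntF.singleton | with_reducible apply IntF.union | with_reducible apply IntF.iimage | with_reducible apply IntF.ite | with_reducible apply IntF.the | with_reducible apply IntF.irec | with_reducible apply IntF.succ | with_reducible apply IntF.val | with_reducible apply IntF.mk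 | (with_reducible refine Int.comp ?_ ?_; assumption) | (with_reducible refine Int.comp₂ ?_ ?_ ?_; assumption) | (with_reducible refine Int.comp₃ ?_ ?_ ?_ ?_; assumption) | (with_reducible refine Int.comp₄ ?_ ?_ ?_ ?_ ?_; assumption) | (with_reducible refine IntF.comp ?_ ?_; assumption) | (with_reducible refine IntF.comp₂ ?_ ?_ ?_; assumption) | (with_reducible refine IntF.comp₃ ?_ ?_ ?_ ?_; assumption) | with_reducible apply IntF.pair)))
        fun _ _ => rfl
  obtain ⟨R, hR⟩ := EqFam.set1G hfU (Y := fun (r : PP M (INat M)) q =>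
    ∀ x, ((q.1, x) : QC M (INat M)) ∈ r.2.1 → x ∈ q.2) (by (repeat' (first | with_reducible exact IntF.id | with_reducible exact IntF.fst' | with_reducible exact IntF.snd' | with_reducible exact IntF.const _ | with_reducible exact Int.const _ | assumption | with_reducible apply Int.and | with_reducible apply Int.or | with_reducible apply Int.not | with_reducible apply Int.imp | with_reducible apply Int.iff | with_reducible apply Int.ne | with_reducible apply Int.eq | with_reducible apply Int.mem | with_reducible apply Int.subset | with_reducible apply Int.ltN | with_reducible apply Int.leN | with_reducible_and_instances apply Int.le | with_reducible_and_instances apply Int.lt | with_reducible apply Int.all | with_reducible apply Int.ex | with_reducible apply IntF.fst | with_reducible apply IntF.snd | with_reducible apply IntF.app | with_reducible apply IntF.inl | with_reducible apply IntF.inr | with_reducible_and_instances apply IntF.mul | with_reducible_and_instances apply IntF.inv | with_reducible_and_instances apply IntF.add | with_reducible_and_instances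 apply IntF.sub | with_reducible_and_instances apply IntF.neg | with_reducible_and_instances apply IntF.smul | with_reducible apply Int.fin | with_reducible apply IntF.sep | with_reducible apply IntF.lam | with_reducible apply IntF.insert | with_reducible apply IntF.singleton | with_reducible apply IntF.union | with_reducible apply IntF.iimage | with_reducible apply IntF.ite | with_reducible apply IntF.the | with_reducible apply IntF.irec | with_reducible apply IntF.succ | with_reducible apply IntF.val | with_reducible apply IntF.mk | (with_reducible refine Int.comp ?_ ?_; assumption) | (with_reducible refine Int.comp₂ ?_ ?_ ?_; assumption) | (with_reducible refine Int.comp₃ ?_ ?_ ?_ ?_; assumption) | (with_reducible refine Int.comp₄ ?_ ?_ ?_ ?_ ?_; assumption) | (with_reducible refine IntF.comp ?_ ?_; assumption) | (with_reducible refine IntF.comp₂ ?_ ?_ ?_; assumption) | (with_reducible refine IntF.comp₃ ?_ ?_ ?_ ?_; assumption) | with_reducible apply IntF.pair)))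
    ⟨l₀, fun π _ r q h x hx => by
      rw [mem_mb]
      exact h _ (mem_smulq.1 hx)⟩
  have hCU : ∀ n b, Mem (code (M := NN (SQ (ZT M (INat M))) hG) (nnN (SQ (ZT M (INat M))) hG hC n, dB b)) R ↔
      Ul G n b := by
    intro n b
    rw [code_prod, hdc]
    refine (hR _).trans ⟨?_, fun ⟨r, h1, h2⟩ => ⟨(n, b), r, h1, h2, rfl⟩⟩
    rintro ⟨⟨n', b'⟩, r, h1, h2, h3⟩
    obtain ⟨h4, h5⟩ := op_inj h3
    obtain rfl := (nn_inj hG).1 h4
    obtain rfl := db_inj hG h5
    exact ⟨r, h1, h2⟩
  have hlt : ∀ (n : INat M) (Q : INat (NN (SQ (ZT M (INat M))) hG) → Prop),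
      (∀ k, k < nnN (SQ (ZT M (INat M))) hG hC n → Q k) ↔ ∀ k, k < n → Q (nnN (SQ (ZT M (INat M))) hG hC k) := by
    intro n Q
    refine ⟨fun h k hk => h _ ((nnN_lt hG hC).2 hk), fun h k hk => ?_⟩
    obtain ⟨k, rfl⟩ := nnN_surj hG hC k
    exact h k ((nnN_lt hG hC).1 hk)
  refine ⟨z, fun q => Mem (code (M := NN (SQ (ZT M (INat M))) hG) q) R, ⟨R, fun _ => Iff.rfl⟩,
    ?_, ?_, ?_, ?_, ?_, ?_, ?_, ?_⟩
  · intro n A B h1 h2
    obtain ⟨n, rfl⟩ := nnN_surj hG hC n
    obtain ⟨a, rfl⟩ := hall A
    obtain ⟨b, rfl⟩ := hall B
    rw [hCU] at h1 ⊢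
    exact h1.mono fun x hx => (hdB b x).1 (h2 _ ((hdB a x).2 hx))
  · intro n A B h1 h2
    obtain ⟨n, rfl⟩ := nnN_surj hG hC n
    obtain ⟨a, rfl⟩ := hall A
    obtain ⟨b, rfl⟩ := hall B
    rw [← hint]
    rw [hCU] at h1 h2 ⊢
    exact h1.inter hG h2
  · intro n A h1
    obtain ⟨n, rfl⟩ := nnN_surj hG hC n
    obtain ⟨a, rfl⟩ := hall A
    rw [hfin]
    rw [hCU] at h1
    exact h1.not_fin
  · intro n A
    obtain ⟨n, rfl⟩ := nnN_surj hG hC n
    obtain ⟨a, rfl⟩ := hall A
    rw [← htop, ← hdif]
    rw [hCU, hCU]
    exact ul_ultra hG n a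
  · intro m n hmn
    obtain ⟨n, rfl⟩ := nnN_surj hG hC n
    obtain ⟨m, rfl⟩ := nnN_surj hG hC m
    obtain ⟨b, h1, h2⟩ := ul_sep hG (m := m) (n := n) fun h => hmn (h ▸ rfl)
    refine ⟨dB b, ?_⟩
    rw [hCU, hCU]
    exact ⟨h1, h2⟩
  · intro A hA'
    obtain ⟨a, rfl⟩ := hall A
    rw [hfin] at hA'
    obtain ⟨n, hn⟩ := ul_dense hG hA'
    exact ⟨nnN (SQ (ZT M (INat M))) hG hC n, (hCU n a).2 hn⟩
  · intro A hA'
    obtain ⟨a, rfl⟩ := hall A
    rw [hfin] at hA'
    obtain ⟨b, h1, h2, h3⟩ := exists_half hA'
    refine ⟨dB b, fun y hy => ?_, ?_, ?_⟩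
    · obtain ⟨y, rfl⟩ := hsurj y
      exact (hdB a y).2 (h1 y ((hdB b y).1 hy))
    · rwa [hfin]
    · rwa [← hdif, hfin]
  · intro J hJ
    obtain ⟨w, hw⟩ := hJ
    have hJ' : ∀ b n, J (dB b, nnN (SQ (ZT M (INat M))) hG hC n) ↔
        Mem (op (db (ZT M (INat M)) hG b) (nn _ hG n)) w := by
      intro b n
      rw [← hdc]
      exact (hw (dB b, nnN (SQ (ZT M (INat M))) hG hC n)).symm
    obtain ⟨l, hl⟩ := hom2 hG w
    obtain ⟨F, hF, hF1, hF2⟩ := hfinF (lf l) (fin_lf l)
    refine ⟨F, hF, fun A n hJA => ?_⟩
    obtain ⟨b, rfl⟩ := hall A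
    obtain ⟨n, rfl⟩ := nnN_surj hG hC n
    obtain ⟨m, hm⟩ := hl b n ((hJ' b n).1 hJA)
    refine ⟨nnN (SQ (ZT M (INat M))) hG hC m, fun H₁ H₂ h1 h2 h3 h4 h5 h6 => ?_⟩
    obtain ⟨H₁, rfl⟩ := hall H₁
    obtain ⟨H₂, rfl⟩ := hall H₂
    rw [hfin] at h4
    rw [hlt] at h5 h6
    have h3' : ∀ d, d ∈ lf l → ∀ x y, x ∈ H₁ ∨ x ∈ H₂ → y ∈ H₁ ∨ y ∈ H₂ → x ∈ d → y ∈ d := by
      intro d hd x y hx hy hxd
      rw [← hdB, ← hdB] at hx hy
      exact (hdB d y).1 (h3 (dB d) (hF1 d hd) _ _ hx hy ((hdB d x).2 hxd))
    obtain ⟨H, h7, h8⟩ := hm H₁ H₂ (fun x hx => (hdB b x).1 (h1 _ ((hdB H₁ x).2 hx)))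
      (fun x hx hxb => h2 _ ((hdB H₂ x).2 hx) ((hdB b x).2 hxb))
      (fun x hx hxl => h4 ((IFin.singleton x).subset fun y hy =>
        h3' _ (mem_lf₂ hxl) x y hx (Or.inl hy) (mem_singleton.2 rfl)))
      (fun d hd => h3' d (mem_lf₁ hd)) h4 (fun k hk h => h5 k hk ((hCU k H₁).2 h))
      (fun k hk h => h6 k hk ((hCU k H₂).2 h))
    refine ⟨dB H, fun y hy => ?_, ?_⟩
    · obtain ⟨y, rfl⟩ := hsurj y
      exact (hdB H₁ y).2 (h7 y ((hdB H y).1 hy))
    · rw [← hdif, ← huni, hJ']
      exact h8

end

end Pool.Agent.Helper672.ZFA.Q301SF
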